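import Pool.Agent.Work.MP_8a95ee_gt.R.Stmts
import Pool.Agent.Work.MP_8a95ee_gt.Bd.B01

/-!
# Basic lemmas: flag complexes, signs, cones
-/

namespace MP8a95ee

namespace RA

theorem adj_symm {L : Finset (Finset ℕ)} {a b : ℕ} (h : Adj L a b) : Adj L b a :=
  ⟨h.1.symm, by rw [Finset.pair_comm]; exact h.2⟩

theorem pair_sub {a b : ℕ} {s : Finset ℕ} (ha : a ∈ s) (hb : b ∈ s) :
    ({a, b} : Finset ℕ) ⊆ s := by
  intro x hx
  rw [Finset.mem_insert, Finset.mem_singleton] at hx
  rcases hx with h | h <;> rw [h] <;> assumption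

theorem adj_of_mem {L : Finset (Finset ℕ)} (hf : FlagC L) {s : Finset ℕ} (hs : s ∈ L) {a b : ℕ}
    (ha : a ∈ s) (hb : b ∈ s) (h : a ≠ b) : Adj L a b :=
  ⟨h, hf.mono hs (pair_sub ha hb)⟩

theorem insert_mem {L : Finset (Finset ℕ)} (hf : FlagC L) {s : Finset ℕ} (hs : s ∈ L) {a : ℕ}
    (ha : a ∈ verts L) (h : ∀ b ∈ s, b ≠ a → Adj L b a) : insert a s ∈ L := by
  have haa : ({a, a} : Finset ℕ) ∈ L := by
    have := (verts_mem_iff hf a).1 ha
    simpa using this
  rw [hf]
  intro x hx y hy
  rw [Finset.mem_insert] at hx hy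
  by_cases hxa : x = a
  · by_cases hya : y = a
    · rw [hxa, hya]; exact haa
    · rw [hxa, Finset.pair_comm]
      exact (h y (hy.resolve_left hya) hya).2
  · by_cases hya : y = a
    · rw [hya]
      exact (h x (hx.resolve_left hxa) hxa).2
    · exact hf.mono hs (pair_sub (hx.resolve_left hxa) (hy.resolve_left hya))

theorem sg_sq (a : ℕ) (t : Finset ℕ) : sg a t * sg a t = 1 := by
  unfold sg
  rw [← pow_add, ← two_mul, pow_mul]
  norm_num

theorem sg_insert {a c : ℕ} {u : Finset ℕ} (hc : c ∉ u) :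
    sg a (insert c u) = sg a u * if c < a then -1 else 1 := by
  unfold sg
  rw [Finset.filter_insert]
  split_ifs with h
  · rw [Finset.card_insert_of_notMem (by simp [hc]), pow_succ]
  · rw [mul_one]

theorem sg_anti {a c : ℕ} {u : Finset ℕ} (ha : a ∉ u) (hc : c ∉ u) (hne : a ≠ c) :
    sg a (insert c u) * sg c u = -(sg c (insert a u) * sg a u) := by
  rw [sg_insert hc, sg_insert ha]
  rcases lt_or_gt_of_ne hne with h | h
  · rw [if_neg (not_lt.2 h.le), if_pos h]; ring
  · rw [if_pos h, if_neg (not_lt.2 h.le)]; ring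

/-- the form of the anticommutation used for multiplication and contraction -/
theorem sg_anti' {a c : ℕ} {u : Finset ℕ} (ha : a ∉ u) (hc : c ∉ u) (hne : a ≠ c) :
    sg c (insert a u) * sg a (insert c u) = -(sg c u * sg a u) := by
  have h1 := sg_anti ha hc hne
  have h2 := sg_sq c u
  have h3 := sg_sq a u
  calc sg c (insert a u) * sg a (insert c u)
      = sg c (insert a u) * (sg a (insert c u) * sg c u) * sg c u := by
        rw [mul_assoc, mul_assoc, h2, mul_one]
    _ = -(sg c (insert a u) * sg c (insert a u)) * sg a u * sg c u := by rw [h1]; ring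
    _ = -(sg c u * sg a u) := by rw [sg_sq]; ring

/-- cone with apex `v` -/
def coneS (v : ℕ) (c : Finset ℕ → ℝ) (w : Finset ℕ) : ℝ :=
  if v ∈ w then sg v (w.erase v) * c (w.erase v) else 0

theorem bdS_coneS {L : Finset (Finset ℕ)} {v : ℕ} (hv : v ∈ verts L) (c : Finset ℕ → ℝ) :
    bdS L (coneS v c) = fun w => c w - coneS v (bdS L c) w := by
  funext w
  unfold bdS
  by_cases hvw : v ∈ w
  · have h1 : coneS v (fun t => ∑ a ∈ verts L \ t, sg a t * c (insert a t)) w =
        sg v (w.erase v) * ∑ a ∈ verts L \ w.erase v, sg a (w.erase v) *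
          c (insert a (w.erase v)) := by
      unfold coneS
      rw [if_pos hvw]
    rw [h1]
    have h2 : verts L \ w.erase v = insert v (verts L \ w) := by
      ext b
      simp only [Finset.mem_sdiff, Finset.mem_erase, Finset.mem_insert]
      constructor
      · rintro ⟨h3, h4⟩
        by_cases hb : b = v
        · exact Or.inl hb
        · exact Or.inr ⟨h3, fun h => h4 ⟨hb, h⟩⟩
      · rintro (rfl | ⟨h3, h4⟩)
        · exact ⟨hv, fun h => h.1 rfl⟩
        · exact ⟨h3, fun h => h4 h.2⟩
    rw [h2, Finset.sum_insert (by simp [hvw]), Finset.insert_erase hvw, mul_add, ← mul_assoc,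
      sg_sq, one_mul, sub_add_cancel_left, Finset.mul_sum, ← Finset.sum_neg_distrib]
    refine Finset.sum_congr rfl fun a ha => ?_
    rw [Finset.mem_sdiff] at ha
    have hav : a ≠ v := by
      rintro rfl
      exact ha.2 hvw
    unfold coneS
    rw [if_pos (Finset.mem_insert_of_mem hvw), Finset.erase_insert_of_ne hav]
    have h3 := sg_anti' (a := v) (c := a) (u := w.erase v) (Finset.notMem_erase v w)
      (fun h => ha.2 (Finset.mem_of_mem_erase h)) hav.symm
    rw [Finset.insert_erase hvw] at h3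
    rw [← mul_assoc, h3]
    ring
  · have h1 : coneS v (fun t => ∑ a ∈ verts L \ t, sg a t * c (insert a t)) w = 0 := by
      unfold coneS
      rw [if_neg hvw]
    rw [h1, sub_zero, Finset.sum_eq_single v]
    · unfold coneS
      rw [if_pos (Finset.mem_insert_self _ _), Finset.erase_insert hvw, ← mul_assoc, sg_sq, one_mul]
    · intro a _ hav
      unfold coneS
      rw [if_neg, mul_zero]
      rw [Finset.mem_insert]
      rintro (h | h)
      · exact hav h.symm
      · exact hvw h
    · intro h
      exact absurd (Finset.mem_sdiff.2 ⟨hv, hvw⟩) h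

end RA

end MP8a95ee
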