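import Pool.Agent.Work.MP_8a95ee_gt.R.Bas

/-!
# S_B5: the map psi
-/

namespace MP8a95ee

namespace RA

theorem dsum {S M : Type} [AddCommGroup M] [Module ℝ M] {n : ℕ} (f : (Fin n → S) → M)
    (T : Fin (n + 2) → S) :
    ∑ i : Fin (n + 2), ((-1 : ℝ) ^ (i : ℕ)) • ∑ j : Fin (n + 1), ((-1 : ℝ) ^ (j : ℕ)) •
      f (fun k => T (i.succAbove (j.succAbove k))) = 0 := by
  simp only [Finset.smul_sum]
  rw [← Finset.sum_product' (Finset.univ : Finset (Fin (n + 2)))
    (Finset.univ : Finset (Fin (n + 1)))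
    (fun i j => (-1 : ℝ) ^ (i : ℕ) • ((-1 : ℝ) ^ (j : ℕ) •
      f (fun k => T (i.succAbove (j.succAbove k)))))]
  refine Finset.sum_involution (fun p _ => (p.1.succAbove p.2, p.2.predAbove p.1)) ?_ ?_ ?_ ?_
  · rintro ⟨i, j⟩ _
    simp only [Fin.succAbove_succAbove_succAbove_predAbove]
    have h := Fin.neg_one_pow_succAbove_add_predAbove (R := ℝ) i j
    rw [smul_smul, smul_smul, ← pow_add, ← pow_add, h, neg_smul, add_neg_cancel]
  · rintro ⟨i, j⟩ _ _ h
    exact Fin.succAbove_ne i j (Prod.ext_iff.1 h).1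
  · intro _ _
    exact Finset.mem_univ _
  · rintro ⟨i, j⟩ _
    exact Prod.ext (Fin.succAbove_succAbove_predAbove _ _) (Fin.predAbove_predAbove_succAbove _ _)

theorem KG_comp {L : Finset (Finset ℕ)} {G : Finset ℕ × Finset ℕ → Prop} {k l : ℕ}
    {T : Fin k → Finset ℕ} (h : KG L G T) (f : Fin l → Fin k) : KG L G fun j => T (f j) := by
  obtain ⟨h1, h2⟩ := h
  refine ⟨fun i => h1 _, ?_⟩
  rcases h2 with ⟨u, hu⟩ | ⟨p, hp1, hp2, hp3⟩
  · exact Or.inl ⟨u, fun i => hu _⟩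
  · exact Or.inr ⟨p, hp1, hp2, fun i => hp3 _⟩

theorem Wt_comp {k l : ℕ} (T : Fin k → Finset ℕ) (f : Fin l → Fin k) :
    Wt (fun j => T (f j)) ⊆ Wt T := by
  intro a ha
  unfold Wt at ha ⊢
  rw [Finset.mem_biUnion] at ha ⊢
  obtain ⟨i, -, hi⟩ := ha
  exact ⟨f i, Finset.mem_univ _, hi⟩

theorem mem_Wt {k : ℕ} {T : Fin k → Finset ℕ} {a : ℕ} : a ∈ Wt T ↔ ∃ i, a ∈ T i := by
  unfold Wt
  rw [Finset.mem_biUnion]
  simp

theorem exists_apex {L : Finset (Finset ℕ)} (hf : FlagC L) {k : ℕ} {T : Fin (k + 1) → Finset ℕ}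
    (h : KG L (TrivP L) T) : ∃ v, v ∈ Wt T ∧ ∀ w ∈ Wt T, w ≠ v → Adj L w v := by
  obtain ⟨h1, h2⟩ := h
  have key : InK T → ∃ v, v ∈ Wt T ∧ ∀ w ∈ Wt T, w ≠ v → Adj L w v := by
    rintro ⟨u, hu⟩
    refine ⟨u, mem_Wt.2 ⟨0, hu 0⟩, fun w hw hwu => ?_⟩
    obtain ⟨i, hi⟩ := mem_Wt.1 hw
    exact adj_of_mem hf (h1 i).1 hi (hu i) hwu
  rcases h2 with h2 | ⟨⟨P, Q⟩, ⟨-, -, hP, hQ, -⟩, hT, hF⟩
  · exact key h2
  · obtain ⟨p, hp⟩ := hP
    obtain ⟨q, hq⟩ := hQ
    have hT' : P ∪ Q ∈ L := hT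
    by_cases hex : ∃ i, P ⊆ T i
    · obtain ⟨i0, hi0⟩ := hex
      refine ⟨p, mem_Wt.2 ⟨i0, hi0 hp⟩, fun w hw hwp => ?_⟩
      obtain ⟨i, hi⟩ := mem_Wt.1 hw
      by_cases hwPQ : w ∈ P ∪ Q
      · exact adj_of_mem hf hT' hwPQ (Finset.mem_union_left _ hp) hwp
      · exact (hF i).2 w hi hwPQ p (Finset.mem_union_left _ hp)
    · apply key
      refine ⟨q, fun i => ?_⟩
      rcases (hF i).1 with h | h
      · exact absurd ⟨i, h.1⟩ hex
      · exact h.1 hq

open Classical in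
/-- a cone vertex, if there is one -/
noncomputable def apex (L : Finset (Finset ℕ)) (X : Finset ℕ) : ℕ :=
  if h : ∃ v, v ∈ X ∧ ∀ w ∈ X, w ≠ v → Adj L w v then Classical.choose h else 0

theorem apex_spec {L : Finset (Finset ℕ)} {X : Finset ℕ}
    (h : ∃ v, v ∈ X ∧ ∀ w ∈ X, w ≠ v → Adj L w v) :
    apex L X ∈ X ∧ ∀ w ∈ X, w ≠ apex L X → Adj L w (apex L X) := by
  unfold apex
  rw [dif_pos h]
  exact Classical.choose_spec h

/-- the map psi -/
noncomputable def psi (L : Finset (Finset ℕ)) : ∀ k, (Fin k → Finset ℕ) → Finset ℕ → ℝ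
  | 0, _ => fun t => if t = ∅ then 1 else 0
  | k + 1, T => coneS (apex L (Wt T))
      (∑ i : Fin (k + 1), ((-1 : ℝ) ^ (i : ℕ)) • psi L k fun j => T (i.succAbove j))

theorem bdS_sum {L : Finset (Finset ℕ)} {ι : Type} (s : Finset ι) (r : ι → ℝ)
    (c : ι → Finset ℕ → ℝ) :
    bdS L (∑ i ∈ s, r i • c i) = ∑ i ∈ s, r i • bdS L (c i) := by
  funext t
  unfold bdS
  simp only [Finset.sum_apply, Pi.smul_apply, smul_eq_mul, Finset.mul_sum]
  rw [Finset.sum_comm]
  refine Finset.sum_congr rfl fun i _ => Finset.sum_congr rfl fun a _ => ?_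
  ring

theorem psi_support {L : Finset (Finset ℕ)} (hf : FlagC L) : ∀ k (T : Fin k → Finset ℕ),
    KG L (TrivP L) T → ∀ t, psi L k T t ≠ 0 → t ∈ L ∧ t ⊆ Wt T ∧ t.card = k
  | 0, T, _, t, ht => by
    have h : t = ∅ := by
      by_contra h
      apply ht
      unfold psi
      rw [if_neg h]
    subst h
    exact ⟨hf.empty_mem, Finset.empty_subset _, Finset.card_empty⟩
  | k + 1, T, hT, t, ht => by
    obtain ⟨hv, hadj⟩ := apex_spec (exists_apex hf hT)
    unfold psi coneS at ht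
    split_ifs at ht with hvt
    · have h1 := right_ne_zero_of_mul ht
      rw [Finset.sum_apply] at h1
      obtain ⟨i, -, hi⟩ := Finset.exists_ne_zero_of_sum_ne_zero h1
      rw [Pi.smul_apply, smul_eq_mul] at hi
      obtain ⟨h2, h3, h4⟩ := psi_support hf k _ (KG_comp hT i.succAbove) _
        (right_ne_zero_of_mul hi)
      have h3' := h3.trans (Wt_comp T i.succAbove)
      have hvv : apex L (Wt T) ∈ verts L := by
        obtain ⟨j, hj⟩ := mem_Wt.1 hv
        unfold verts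
        rw [Finset.mem_biUnion]
        exact ⟨T j, (hT.1 j).1, hj⟩
      refine ⟨?_, ?_, ?_⟩
      · rw [← Finset.insert_erase hvt]
        exact insert_mem hf h2 hvv fun b hb hne => hadj b (h3' hb) hne
      · rw [← Finset.insert_erase hvt]
        exact Finset.insert_subset hv h3'
      · rw [← Finset.insert_erase hvt, Finset.card_insert_of_notMem (Finset.notMem_erase _ _), h4]
    · exact absurd rfl ht

theorem psi_bd {L : Finset (Finset ℕ)} (hf : FlagC L) : ∀ k (T : Fin (k + 1) → Finset ℕ),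
    KG L (TrivP L) T → bdS L (psi L (k + 1) T) =
      ∑ i : Fin (k + 1), ((-1 : ℝ) ^ (i : ℕ)) • psi L k fun j => T (i.succAbove j) := by
  intro k
  induction k with
  | zero =>
    intro T hT
    obtain ⟨hv, hadj⟩ := apex_spec (exists_apex hf hT)
    have hvv : apex L (Wt T) ∈ verts L := by
      obtain ⟨j, hj⟩ := mem_Wt.1 hv
      unfold verts
      rw [Finset.mem_biUnion]
      exact ⟨T j, (hT.1 j).1, hj⟩
    rw [psi, bdS_coneS hvv, bdS_sum]
    have h0 : ∀ T' : Fin 0 → Finset ℕ, bdS L (psi L 0 T') = 0 := by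
      intro T'
      funext t
      unfold bdS
      refine Finset.sum_eq_zero fun a _ => ?_
      have h : psi L 0 T' (insert a t) = 0 := by
        unfold psi
        exact if_neg (Finset.insert_ne_empty _ _)
      rw [h, mul_zero]
    have h1 : coneS (apex L (Wt T)) (∑ i : Fin (0 + 1), ((-1 : ℝ) ^ (i : ℕ)) •
        bdS L (psi L 0 fun j => T (i.succAbove j))) = 0 := by
      funext w
      unfold coneS
      split_ifs
      · rw [Finset.sum_apply, Finset.sum_eq_zero, mul_zero]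
        · rfl
        · intro i _
          rw [h0]
          simp
      · rfl
    rw [h1]
    funext w
    simp
  | succ k ih =>
    intro T hT
    obtain ⟨hv, hadj⟩ := apex_spec (exists_apex hf hT)
    have hvv : apex L (Wt T) ∈ verts L := by
      obtain ⟨j, hj⟩ := mem_Wt.1 hv
      unfold verts
      rw [Finset.mem_biUnion]
      exact ⟨T j, (hT.1 j).1, hj⟩
    rw [psi, bdS_coneS hvv, bdS_sum]
    have h0 : ∑ i : Fin (k + 1 + 1), ((-1 : ℝ) ^ (i : ℕ)) •
        bdS L (psi L (k + 1) fun j => T (i.succAbove j)) = 0 := by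
      rw [← dsum (psi L k) T]
      refine Finset.sum_congr rfl fun i _ => ?_
      rw [ih _ (KG_comp hT i.succAbove)]
    rw [h0]
    funext w
    unfold coneS
    simp

theorem itemB5 : S_B5 := fun L hf =>
  ⟨psi L, fun _ => rfl, fun k T hT t ht => psi_support hf k T hT t ht,
    fun k T hT => psi_bd hf k T hT⟩

end RA

end MP8a95ee
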