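import Pool.Agent.Work.MP_8a95ee_gt.R.Stmts
import Pool.Agent.Work.MP_8a95ee_gt.PartOneB
import Pool.Agent.Work.MP_8a95ee_gt.F

/-!
# Part I: if `ζ` does not bound then the norm is positive
-/

set_option autoImplicit false

namespace MP8a95ee

namespace RA

namespace P13

open Finset

/-- the vertices of `L` as a type -/
abbrev VL (L : Finset (Finset ℕ)) : Type := {x // x ∈ verts L}

/-- the graph of `L` -/
def gr (L : Finset (Finset ℕ)) : SimpleGraph (VL L) where
  Adj a b := Adj L a b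
  symm := ⟨fun a b h => ⟨h.1.symm, by rw [Finset.pair_comm]; exact h.2⟩⟩
  loopless := ⟨fun a h => h.1 rfl⟩

/-- sets of vertices as sets of numbers -/
def em {L : Finset (Finset ℕ)} (T : Finset (VL L)) : Finset ℕ := T.map (Function.Embedding.subtype _)

theorem mem_em {L : Finset (Finset ℕ)} (T : Finset (VL L)) (x : ℕ) :
    x ∈ em T ↔ ∃ h : x ∈ verts L, (⟨x, h⟩ : VL L) ∈ T := by
  simp [em]

theorem em_mem {L : Finset (Finset ℕ)} (hf : FlagC L) (T : Finset (VL L))
    (hT : ∀ a ∈ T, ∀ b ∈ T, a ≠ b → (gr L).Adj a b) : em T ∈ L := by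
  rw [hf]
  intro x hx y hy
  obtain ⟨hx1, hx2⟩ := (mem_em T x).1 hx
  obtain ⟨hy1, hy2⟩ := (mem_em T y).1 hy
  by_cases hxy : x = y
  · subst hxy
    obtain ⟨σ, hσ, hxσ⟩ := Finset.mem_biUnion.1 hx1
    exact (hf σ).1 hσ x hxσ x hxσ
  · exact (hT _ hx2 _ hy2 (fun h => hxy (congrArg Subtype.val h))).2

/-- tuples in `K''` -/
theorem kg_of {L : Finset (Finset ℕ)} (hf : FlagC L) {k : ℕ} (T : Fin k → Finset (VL L))
    (hc : ∀ i, ∀ a ∈ T i, ∀ b ∈ T i, a ≠ b → (gr L).Adj a b) (hne : ∀ i, (T i).Nonempty)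
    (h : RACG.InK T ∨ RACG.InF (gr L) T) : KG L (fun _ => True) (fun i => em (T i)) := by
  refine ⟨fun i => ⟨em_mem hf _ (hc i), ?_⟩, ?_⟩
  · obtain ⟨a, ha⟩ := hne i
    exact ⟨a, (mem_em _ _).2 ⟨a.2, ha⟩⟩
  by_cases hK : RACG.InK T
  · left
    obtain ⟨a, ha⟩ := hK
    exact ⟨a, fun i => (mem_em _ _).2 ⟨a.2, ha i⟩⟩
  right
  rcases h with h | h
  · exact absurd h hK
  obtain ⟨P, Q, hP, hQ, hPQ, hT0⟩ := h
  have hT : ∀ i, ∃ τ : Finset (VL L), (∀ a ∈ τ, (∀ b ∈ P, (gr L).Adj a b) ∧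
      ∀ b ∈ Q, (gr L).Adj a b) ∧
      ((∀ x, x ∈ T i ↔ x ∈ P ∨ x ∈ τ) ∨ (∀ x, x ∈ T i ↔ x ∈ Q ∨ x ∈ τ)) := by
    intro i
    obtain ⟨τ, hτ, h3⟩ := hT0 i
    refine ⟨τ, hτ, ?_⟩
    rcases h3 with h3 | h3
    · left
      intro x
      rw [h3]
      exact @Finset.mem_union _ (fun a b => Classical.propDecidable (a = b)) _ _ _
    · right
      intro x
      rw [h3]
      exact @Finset.mem_union _ (fun a b => Classical.propDecidable (a = b)) _ _ _
  clear hT0
  obtain ⟨p0, hp0⟩ := hP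
  obtain ⟨q0, hq0⟩ := hQ
  -- both types occur
  have h1 : ∃ i, P ⊆ T i := by
    by_contra hcon
    push Not at hcon
    apply hK
    refine ⟨q0, fun i => ?_⟩
    obtain ⟨τ, -, h2 | h2⟩ := hT i
    · exact absurd (fun x hx => (h2 x).2 (Or.inl hx)) (hcon i)
    · exact (h2 _).2 (Or.inl hq0)
  have h2 : ∃ i, Q ⊆ T i := by
    by_contra hcon
    push Not at hcon
    apply hK
    refine ⟨p0, fun i => ?_⟩
    obtain ⟨τ, -, h3 | h3⟩ := hT i
    · exact (h3 _).2 (Or.inl hp0)
    · exact absurd (fun x hx => (h3 x).2 (Or.inl hx)) (hcon i)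
  obtain ⟨i1, hi1⟩ := h1
  obtain ⟨i2, hi2⟩ := h2
  have hPL : em P ∈ L := em_mem hf P fun a ha b hb hab => hc i1 a (hi1 ha) b (hi1 hb) hab
  have hQL : em Q ∈ L := em_mem hf Q fun a ha b hb hab => hc i2 a (hi2 ha) b (hi2 hb) hab
  have hdis : Disjoint (em P) (em Q) := by
    rw [Finset.disjoint_left] at hPQ ⊢
    intro x hx hy
    obtain ⟨hx1, hx2⟩ := (mem_em _ x).1 hx
    obtain ⟨hy1, hy2⟩ := (mem_em _ x).1 hy
    exact hPQ hx2 hy2
  refine ⟨(em P, em Q), ⟨hPL, hQL, ⟨p0, (mem_em _ _).2 ⟨p0.2, hp0⟩⟩, ⟨q0, (mem_em _ _).2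
    ⟨q0.2, hq0⟩⟩, hdis⟩, trivial, ?_⟩
  intro i
  obtain ⟨τ, hτ, h3⟩ := hT i
  have hadj : ∀ t ∈ em τ, ∀ c ∈ em P ∪ em Q, Adj L t c := by
    intro t ht c hcc
    obtain ⟨ht1, ht2⟩ := (mem_em _ t).1 ht
    rcases Finset.mem_union.1 hcc with hc1 | hc1
    · obtain ⟨hc2, hc3⟩ := (mem_em _ c).1 hc1
      exact (hτ _ ht2).1 _ hc3
    · obtain ⟨hc2, hc3⟩ := (mem_em _ c).1 hc1
      exact (hτ _ ht2).2 _ hc3
  have hmem : ∀ t ∈ em (T i), t ∉ em P ∪ em Q → t ∈ em τ := by
    intro t ht htn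
    rw [Finset.mem_union, not_or] at htn
    obtain ⟨ht1, ht2⟩ := (mem_em _ t).1 ht
    rw [mem_em] at htn ⊢
    rw [mem_em] at htn
    rcases h3 with h3 | h3
    · exact ⟨ht1, ((h3 _).1 ht2).resolve_left fun h => htn.1 ⟨ht1, h⟩⟩
    · exact ⟨ht1, ((h3 _).1 ht2).resolve_left fun h => htn.2 ⟨ht1, h⟩⟩
  refine ⟨?_, fun t ht htn => hadj t (hmem t ht htn)⟩
  rcases h3 with h3 | h3
  · left
    constructor
    · intro x hx
      obtain ⟨hx1, hx2⟩ := (mem_em _ x).1 hx
      exact (mem_em _ x).2 ⟨hx1, (h3 _).2 (Or.inl hx2)⟩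
    · rw [Finset.disjoint_left]
      intro x hx hy
      obtain ⟨hx1, hx2⟩ := (mem_em _ x).1 hx
      obtain ⟨hy1, hy2⟩ := (mem_em _ x).1 hy
      rcases (h3 _).1 hy2 with h | h
      · exact Finset.disjoint_left.1 hPQ h hx2
      · exact ((hτ _ h).2 _ hx2).ne rfl
  · right
    constructor
    · intro x hx
      obtain ⟨hx1, hx2⟩ := (mem_em _ x).1 hx
      exact (mem_em _ x).2 ⟨hx1, (h3 _).2 (Or.inl hx2)⟩
    · rw [Finset.disjoint_left]
      intro x hx hy
      obtain ⟨hx1, hx2⟩ := (mem_em _ x).1 hx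
      obtain ⟨hy1, hy2⟩ := (mem_em _ x).1 hy
      rcases (h3 _).1 hy2 with h | h
      · exact Finset.disjoint_left.1 hPQ hx2 h
      · exact ((hτ _ h).1 _ hx2).ne rfl

/-- duality -/
theorem duality (L : Finset (Finset ℕ)) (m : ℕ) (o : (Fin (m + 1) → ℕ) → ℤ)
    (h : ∀ f : (Fin (m + 1) → Finset ℕ) → ℝ,
      (∀ T : Fin (m + 2) → Finset ℕ, KG L (fun _ => True) T → dl f T = 0) →
      Finsupp.linearCombination ℝ f (zeta L o) = 0) : Bounds L o (KG L fun _ => True) := by
  by_contra hcon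
  set U : Submodule ℝ (Ch (Finset ℕ) (m + 1)) :=
    (Finsupp.supported ℝ ℝ {T : Fin (m + 2) → Finset ℕ | KG L (fun _ => True) T}).map bdT with hU
  have hz : zeta L o ∉ U := by
    rintro ⟨b, hb, hbz⟩
    exact hcon ⟨b, fun T hT => hb hT, hbz⟩
  obtain ⟨φ, hφ, hφU⟩ := Submodule.exists_le_ker_of_notMem hz
  set f : (Fin (m + 1) → Finset ℕ) → ℝ := fun T => φ (Finsupp.single T 1) with hf
  have hφf : ∀ c, φ c = Finsupp.linearCombination ℝ f c := by
    intro c
    rw [Finsupp.linearCombination_apply]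
    conv_lhs => rw [← Finsupp.sum_single c]
    rw [map_finsuppSum]
    refine Finsupp.sum_congr fun T _ => ?_
    rw [hf, smul_eq_mul, ← smul_eq_mul, ← map_smul, Finsupp.smul_single, smul_eq_mul, mul_one]
  apply hφ
  rw [hφf]
  apply h
  intro T hT
  have h1 : bdT (Finsupp.single T (1 : ℝ)) ∈ U := by
    refine Submodule.mem_map_of_mem ?_
    rw [Finsupp.mem_supported]
    intro T' hT'
    have := Finsupp.support_single_subset hT'
    rw [Finset.mem_singleton] at this
    rw [this]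
    exact hT
  have h2 := hφU h1
  rw [LinearMap.mem_ker, hφf] at h2
  have h3 : bdT (Finsupp.single T (1 : ℝ)) = bdT0 T := by
    rw [bdT, Finsupp.linearCombination_single, one_smul]
  rw [h3, bdT0, map_sum] at h2
  simp only [Finsupp.linearCombination_single] at h2
  exact h2

theorem dl_em {L : Finset (Finset ℕ)} {k : ℕ} (f : (Fin k → Finset ℕ) → ℝ)
    (T : Fin (k + 1) → Finset (VL L)) :
    PartOne.dl (fun T : Fin k → Finset (VL L) => f fun i => em (T i)) T =
      dl f (fun i => em (T i)) := by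
  unfold PartOne.dl dl
  refine Finset.sum_congr rfl fun i _ => ?_
  rw [smul_eq_mul]

theorem verts_of_mem {L : Finset (Finset ℕ)} {σ : Finset ℕ} (hσ : σ ∈ L) {x : ℕ} (hx : x ∈ σ) :
    x ∈ verts L := Finset.mem_biUnion.2 ⟨σ, hσ, hx⟩

/-- the generators, indexed by all natural numbers -/
noncomputable def rG (L : Finset (Finset ℕ)) (i : ℕ) : RACG.W (gr L) :=
  if h : i ∈ verts L then RACG.gen (gr L) ⟨i, h⟩ else 1

theorem rG_of_mem {L : Finset (Finset ℕ)} {i : ℕ} (h : i ∈ verts L) :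
    rG L i = RACG.gen (gr L) ⟨i, h⟩ := dif_pos h

/-- sums over tuples of vertices -/
theorem sum_pi {A : Finset ℕ} {n : ℕ} (φ : (Fin n → ℕ) → ℝ) :
    ∑ s ∈ Fintype.piFinset (fun _ : Fin n => A), φ s =
      ∑ t : Fin n → {x // x ∈ A}, φ fun i => t i := by
  refine (Finset.sum_bij' (fun (t : Fin n → {x // x ∈ A}) _ => fun i => (t i : ℕ))
    (fun s hs => fun i => ⟨s i, Fintype.mem_piFinset.1 hs i⟩) ?_ ?_ ?_ ?_ ?_).symm
  · intro t _
    exact Fintype.mem_piFinset.2 fun i => (t i).2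
  · intro s _
    exact Finset.mem_univ _
  · intro t _
    rfl
  · intro s _
    rfl
  · intro t _
    rfl

/-- the two descriptions of `f(ζ)` -/
theorem zv_eq (L : Finset (Finset ℕ)) {m : ℕ} (o : (Fin (m + 1) → ℕ) → ℤ)
    (ho : IsOrient L (m + 1) o) (f : (Fin (m + 1) → Finset ℕ) → ℝ) :
    PartOne.zv (fun s : Fin (m + 1) → VL L => (o fun i => s i : ℝ))
      (fun T : Fin (m + 1) → Finset (VL L) => f fun i => em (T i)) =
      Finsupp.linearCombination ℝ f (zeta L o) := by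
  unfold zeta PartOne.zv
  rw [map_sum, sum_pi]
  refine Finset.sum_congr rfl fun s _ => ?_
  by_cases hos : o (fun i => s i) = 0
  · rw [map_sum]
    simp [hos]
  have hinj : Function.Injective fun i => (s i : ℕ) := B6.inj_of_ne_zero ho hos
  rw [map_sum, Finset.mul_sum]
  have h1 : (Finset.univ.image fun i : Fin m => (s i.castSucc : ℕ)) =
      (Finset.univ.erase (Fin.last m)).image fun i => (s i : ℕ) := by
    ext x
    simp only [Finset.mem_image, Finset.mem_univ, true_and, Finset.mem_erase, and_true]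
    constructor
    · rintro ⟨i, rfl⟩
      exact ⟨i.castSucc, Fin.castSucc_ne_last i, rfl⟩
    · rintro ⟨i, hi, rfl⟩
      obtain ⟨j, rfl⟩ := Fin.exists_castSucc_eq.2 hi
      exact ⟨j, rfl⟩
  rw [h1, Finset.powerset_image, Finset.sum_image fun a _ b _ hab => Finset.image_injective hinj hab]
  refine Finset.sum_congr rfl fun b hb => ?_
  rw [Finsupp.linearCombination_single, smul_eq_mul, Finset.card_image_of_injective _ hinj,
    mul_assoc]
  congr 3
  refine congrArg f ?_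
  funext k
  unfold zt
  have h2 : (Finset.univ.filter fun i : Fin m => (i : ℕ) < (k : ℕ)).image
      (fun i => (s i.castSucc : ℕ)) = (PartOne.pre (m + 1) k).image fun i => (s i : ℕ) := by
    ext x
    simp only [Finset.mem_image, Finset.mem_filter, Finset.mem_univ, true_and, PartOne.mem_pre]
    constructor
    · rintro ⟨i, hi, rfl⟩
      exact ⟨i.castSucc, by simpa using hi, rfl⟩
    · rintro ⟨i, hi, rfl⟩
      have hk := k.2
      have hil : i ≠ Fin.last m := by
        rintro rfl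
        rw [Fin.val_last] at hi
        omega
      obtain ⟨j, rfl⟩ := Fin.exists_castSucc_eq.2 hil
      exact ⟨j, by simpa using hi, rfl⟩
  rw [h2, ← Finset.image_symmDiff _ _ hinj]
  unfold em
  rw [Finset.map_eq_image, Finset.image_insert, Finset.image_image]
  rfl

theorem main (L : Finset (Finset ℕ)) (hf : FlagC L) (m : ℕ)
    (o : (Fin (m + 1) → ℕ) → ℤ) (ho : IsOrient L (m + 1) o)
    (f : (Fin (m + 1) → Finset ℕ) → ℝ)
    (hfK : ∀ T : Fin (m + 2) → Finset ℕ, KG L (fun _ => True) T → dl f T = 0) :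
    ∃ K : BCocycle (RACG.W (gr L)) (PartOne.sgn (gr L)) (m + 1),
      ∑ s ∈ Fintype.piFinset (fun _ : Fin (m + 1) => verts L),
        (o s : ℝ) * K.F (Fin.partialProd fun i => rG L (s i)) =
        2 * (-1) ^ m * Finsupp.linearCombination ℝ f (zeta L o) := by
  classical
  set f' : (Fin (m + 1) → Finset (VL L)) → ℝ := fun T => f fun i => em (T i) with hf'
  have hcl : ∀ T : Fin (m + 2) → Finset (VL L),
      (∀ i, ∀ a ∈ T i, ∀ b ∈ T i, a ≠ b → (gr L).Adj a b) → (∀ i, (T i).Nonempty) →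
      (RACG.InK T ∨ RACG.InF (gr L) T) → PartOne.dl f' T = 0 := by
    intro T h1 h2 h3
    rw [hf', dl_em]
    exact hfK _ (kg_of hf T h1 h2 h3)
  obtain ⟨K, hK⟩ := PartOne.cocycle_exists (gr L) f' (Nat.card (RACG.Cfg (VL L) (m + 1)) + (m + 2))
    (by
      intro v
      have hfin : {x | ¬ RACG.InK (fun i => RACG.fl (gr L) x (v i)) ∧
          ¬ RACG.InF (gr L) (fun i => RACG.fl (gr L) x (v i))}.Finite :=
        (RACG.finite_hull (gr L) v).subset fun x hx => hx.1
      refine ⟨hfin.toFinset ∪ Finset.univ.image v, ?_, ?_⟩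
      · refine (Finset.card_union_le _ _).trans (add_le_add ?_ ?_)
        · rw [← Set.ncard_eq_toFinset_card _ hfin]
          exact RACG.bounded (gr L) v
        · refine Finset.card_image_le.trans ?_
          simp
      · intro x hx
        rw [Finset.mem_union, not_or, Set.Finite.mem_toFinset] at hx
        refine hcl _ (fun i a ha b hb hab => RACG.fl_adj (gr L) ha hb hab) (fun i => ?_) ?_
        · refine RACG.fl_nonempty (gr L) fun h => hx.2 ?_
          exact Finset.mem_image.2 ⟨i, Finset.mem_univ _, h.symm⟩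
        · by_contra hcon
          rw [not_or] at hcon
          exact hx.1 hcon)
  refine ⟨K, ?_⟩
  rw [sum_pi]
  have hadj : ∀ s : Fin (m + 1) → VL L, (o (fun i => s i) : ℝ) ≠ 0 → ∀ i j, i ≠ j →
      (gr L).Adj (s i) (s j) := by
    intro s hs i j hij
    have hs' : o (fun i => s i) ≠ 0 := fun h => hs (by rw [h]; simp)
    have hinj : Function.Injective fun i => (s i : ℕ) := B6.inj_of_ne_zero ho hs'
    have him := ho.2.1 _ hs'
    refine ⟨fun h => hij (hinj h), ?_⟩
    exact (hf _).1 him _ (Finset.mem_image_of_mem _ (Finset.mem_univ i)) _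
      (Finset.mem_image_of_mem _ (Finset.mem_univ j))
  have hev := PartOne.evaluation (gr L) (fun s : Fin (m + 1) → VL L => (o fun i => s i : ℝ))
    (by
      intro s i j hij
      have := ho.1 (fun k => (s k : ℕ)) i j hij
      show ((o fun k => ((s ∘ Equiv.swap i j) k : ℕ) : ℤ) : ℝ) = _
      rw [show (fun k => ((s ∘ Equiv.swap i j) k : ℕ)) = (fun k => (s k : ℕ)) ∘ Equiv.swap i j from rfl,
        this]
      push_cast
      rfl)
    hadj
    (by
      intro s
      have h1 := ho.2.2.2 (fun k => (s k : ℕ)) (Fin.last m)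
      have h2 : ∀ x : VL L, (fun k => ((Function.update s (Fin.last m) x) k : ℕ)) =
          Function.update (fun k => (s k : ℕ)) (Fin.last m) (x : ℕ) := by
        intro x
        funext k
        by_cases hk : k = Fin.last m
        · subst hk; simp
        · simp [Function.update_of_ne hk]
      simp only [h2]
      rw [← Finset.sum_coe_sort] at h1
      exact_mod_cast h1)
    f'
    (by
      intro T h1 h2
      obtain ⟨a, ha⟩ := h2
      exact hcl T h1 (fun i => ⟨a, ha i⟩) (Or.inl ⟨a, ha⟩))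
  rw [zv_eq L o ho f] at hev
  rw [← hev]
  refine Finset.sum_congr rfl fun s _ => ?_
  rw [hK]
  simp only [rG_of_mem (Subtype.prop _)]

theorem prf : S_P13 := by
  classical
  intro L hf m o ho hnb
  -- a function which detects ζ
  obtain ⟨f, hfK, hfz⟩ : ∃ f : (Fin (m + 1) → Finset ℕ) → ℝ,
      (∀ T : Fin (m + 2) → Finset ℕ, KG L (fun _ => True) T → dl f T = 0) ∧
      Finsupp.linearCombination ℝ f (zeta L o) ≠ 0 := by
    by_contra hcon
    push Not at hcon
    exact hnb (duality L m o hcon)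
  obtain ⟨K, hK⟩ := main L hf m o ho f hfK
  set A : ℝ := 2 * (-1) ^ m * Finsupp.linearCombination ℝ f (zeta L o) with hA
  have hA0 : A ≠ 0 := mul_ne_zero (mul_ne_zero two_ne_zero (pow_ne_zero _ (by norm_num))) hfz
  have hsq : ∀ i ∈ verts L, rG L i * rG L i = 1 := by
    intro i hi
    rw [rG_of_mem hi]
    exact RACG.gen_mul_self _ _
  have hcomm : ∀ σ ∈ L, ∀ i ∈ σ, ∀ j ∈ σ, rG L i * rG L j = rG L j * rG L i := by
    intro σ hσ i hi j hj
    by_cases hij : i = j
    · rw [hij]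
    · rw [rG_of_mem (verts_of_mem hσ hi), rG_of_mem (verts_of_mem hσ hj)]
      exact RACG.gen_comm (gr L) ⟨hij, (hf σ).1 hσ i hi j hj⟩
  have hχ : ∀ i ∈ verts L, PartOne.sgn (gr L) (rG L i) = -1 := by
    intro i hi
    rw [rG_of_mem hi]
    exact PartOne.sgn_gen _ _
  obtain ⟨c, hcb, hcc, hcv⟩ := E.exists_cochain L hf (PartOne.sgn (gr L)) K (rG L) hsq hcomm hχ
  have hev : E.ev c (momentCycle L (m + 1) o) = 2 ^ (verts L).card * A := by
    rw [E.ev_moment L hf o ⟨ho.1, ho.2.1, ho.2.2.2⟩ c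
      (fun s => K.F (Fin.partialProd fun i => rG L (s i))) hcv, hK]
  have hCpos : 0 ≤ K.C := (abs_nonneg _).trans (K.bound fun _ => 1)
  set D : ℝ := 2 ^ (verts L).card * |A| with hD
  have hDpos : 0 < D := by positivity
  refine ⟨D / (K.C + 1), by positivity, ?_⟩
  intro X _ g lam z w h
  have hbd : E.ev c (bd w) = 0 := by
    have := B3.ev_bd c hcc w
    rw [B3.ev_eq] at this
    exact this
  have hz : E.ev (fun σ => c (g.comp σ)) z = lam * (2 ^ (verts L).card * A) := by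
    rw [← F.ev_push, h, map_add, map_smul, hev, hbd, add_zero, smul_eq_mul]
  have hle := B3.ev_le (fun σ => c (g.comp σ)) (K.C + 1) (fun σ => by
    have := hcb (g.comp σ)
    linarith) z
  rw [B3.ev_eq] at hle
  have hle' : |lam * (2 ^ (verts L).card * A)| ≤ (K.C + 1) * l1 z := by
    rw [← hz]; exact hle
  have e1 : |lam * (2 ^ (verts L).card * A)| = D * |lam| := by
    rw [abs_mul, abs_mul, hD]
    rw [abs_of_pos (by positivity : (0 : ℝ) < 2 ^ (verts L).card)]
    ring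
  rw [e1] at hle'
  rw [div_mul_eq_mul_div, div_le_iff₀ (by positivity)]
  linarith

end P13

end RA

end MP8a95ee
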