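import Pool.Agent.Work.MP_8a95ee_gt.R.Bas

/-!
# S_B4: contraction of the complex over a suspension
-/

namespace MP8a95ee

namespace RA

section

variable {L : Finset (Finset ℕ)} {N : Type} [AddCommGroup N] [Module ℝ N] {e : ℕ → N →ₗ[ℝ] N}

/-- the part of the boundary that does not involve `a` and `b` -/
def dY (L : Finset (Finset ℕ)) (e : ℕ → N →ₗ[ℝ] N) (a b : ℕ) (z : Finset ℕ → Finset ℕ → N)
    (s u : Finset ℕ) : N :=
  (∑ c ∈ s, sg c u • e c (z (s.erase c) (insert c u))) -
    ∑ c ∈ (verts L \ (s ∪ u)) \ {a, b}, sg c u • z s (insert c u)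

theorem dY_add (a b : ℕ) (z z' : Finset ℕ → Finset ℕ → N) (s u : Finset ℕ) :
    dY L e a b (fun s u => z s u + z' s u) s u = dY L e a b z s u + dY L e a b z' s u := by
  unfold dY
  simp only [map_add, smul_add, Finset.sum_add_distrib]
  abel

theorem dY_neg (a b : ℕ) (z : Finset ℕ → Finset ℕ → N) (s u : Finset ℕ) :
    dY L e a b (fun s u => - z s u) s u = - dY L e a b z s u := by
  unfold dY
  simp only [map_neg, smul_neg, Finset.sum_neg_distrib]
  abel

theorem dD_split {a b : ℕ} (ha : a ∈ verts L) (hb : b ∈ verts L) (hab : a ≠ b)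
    (x : Finset ℕ → Finset ℕ → N) {s u : Finset ℕ} (hd : Disjoint s u)
    (has : a ∉ s ∪ u) (hbs : b ∉ s ∪ u) :
    dD L e x s u = dY L e a b x s u - sg a u • x s (insert a u) - sg b u • x s (insert b u) := by
  unfold dD dY
  rw [if_pos hd]
  have h1 : verts L \ (s ∪ u) = insert a (insert b ((verts L \ (s ∪ u)) \ {a, b})) := by
    ext c
    simp only [Finset.mem_sdiff, Finset.mem_insert, Finset.mem_singleton]
    constructor
    · rintro h
      by_cases hca : c = a
      · exact Or.inl hca
      · by_cases hcb : c = b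
        · exact Or.inr (Or.inl hcb)
        · exact Or.inr (Or.inr ⟨h, fun h' => h'.elim hca hcb⟩)
    · rintro (rfl | rfl | h)
      · exact ⟨ha, has⟩
      · exact ⟨hb, hbs⟩
      · exact h.1
  rw [h1, Finset.sum_insert (by simp [hab]), Finset.sum_insert (by simp)]
  rw [← h1]
  abel

theorem dD_split_a {a b : ℕ} (hf : FlagC L) (hab : a ≠ b) (hadj : ¬ Adj L a b) {X : Finset ℕ}
    {x : Finset ℕ → Finset ℕ → N} (hx : IsDD L e X x) {s u : Finset ℕ} (hd : Disjoint s u)
    (has : a ∉ s ∪ u) :
    dD L e x (insert a s) u = sg a u • e a (x s (insert a u)) +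
      dY L e a b (fun s u => x (insert a s) u) s u := by
  have ha1 : a ∉ s := fun h => has (Finset.mem_union_left _ h)
  have ha2 : a ∉ u := fun h => has (Finset.mem_union_right _ h)
  unfold dD dY
  rw [if_pos (Finset.disjoint_insert_left.2 ⟨ha2, hd⟩), Finset.sum_insert ha1,
    Finset.erase_insert ha1, add_sub_assoc]
  congr 1
  congr 1
  · refine Finset.sum_congr rfl fun c hc => ?_
    have hca : a ≠ c := by
      rintro rfl
      exact ha1 hc
    rw [Finset.erase_insert_of_ne hca]
  · symm
    refine Finset.sum_subset_zero_on_sdiff ?_ ?_ fun _ _ => rfl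
    · intro c hc
      simp only [Finset.mem_sdiff, Finset.mem_union, Finset.mem_insert,
        Finset.mem_singleton, not_or] at hc ⊢
      exact ⟨hc.1.1, ⟨⟨hc.2.1, hc.1.2.1⟩, hc.1.2.2⟩⟩
    · intro c hc
      simp only [Finset.mem_sdiff, Finset.mem_union, Finset.mem_insert,
        Finset.mem_singleton, not_or, not_and, not_not] at hc
      have hcb : c = b := hc.2 ⟨hc.1.1, hc.1.2.1.2, hc.1.2.2⟩ hc.1.2.1.1
      subst hcb
      by_contra hne
      have h0 : x (insert a s) (insert c u) ≠ 0 := by
        intro h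
        rw [h, smul_zero] at hne
        exact hne rfl
      obtain ⟨h1, h2, h3⟩ := (hx _ _).1 h0
      exact hadj (adj_of_mem hf h2 (by simp) (by simp) hab)

theorem dY_comm (a b : ℕ) (z : Finset ℕ → Finset ℕ → N) (s u : Finset ℕ) :
    dY L e a b z s u = dY L e b a z s u := by
  unfold dY
  rw [Finset.pair_comm]

/-- multiplication by `a` on the second argument -/
noncomputable def mul (a b : ℕ) (y : Finset ℕ → Finset ℕ → N) (s u : Finset ℕ) : N :=
  if a ∈ u ∧ a ∉ s ∧ b ∉ s ∧ b ∉ u then sg a (u.erase a) • y s (u.erase a) else 0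

theorem dD_add (x y : Finset ℕ → Finset ℕ → N) (s u : Finset ℕ) :
    dD L e (fun s u => x s u + y s u) s u = dD L e x s u + dD L e y s u := by
  unfold dD
  split_ifs
  · simp only [map_add, smul_add, Finset.sum_add_distrib]
    abel
  · rw [add_zero]

/-- the boundary of `mul a b y` at the places without `a` and `b` -/
theorem dD_mul_0 {a b : ℕ} (ha : a ∈ verts L) (hab : a ≠ b)
    (y : Finset ℕ → Finset ℕ → N) {s u : Finset ℕ} (hd : Disjoint s u)
    (has : a ∉ s ∪ u) (hbs : b ∉ s ∪ u) : dD L e (mul a b y) s u = - y s u := by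
  have ha1 : a ∉ s := fun h => has (Finset.mem_union_left _ h)
  have ha2 : a ∉ u := fun h => has (Finset.mem_union_right _ h)
  have hb1 : b ∉ s := fun h => hbs (Finset.mem_union_left _ h)
  have hb2 : b ∉ u := fun h => hbs (Finset.mem_union_right _ h)
  unfold dD
  rw [if_pos hd, Finset.sum_eq_zero, zero_sub, Finset.sum_eq_single a]
  · unfold mul
    rw [if_pos ⟨Finset.mem_insert_self _ _, ha1, hb1, by
      rw [Finset.mem_insert]; rintro (h | h); exacts [hab h.symm, hb2 h]⟩, Finset.erase_insert ha2,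
      smul_smul, sg_sq, one_smul]
  · intro c _ hca
    unfold mul
    rw [if_neg, smul_zero]
    rintro ⟨h, -⟩
    rw [Finset.mem_insert] at h
    exact h.elim (fun h => hca h.symm) ha2
  · intro h
    exact absurd (Finset.mem_sdiff.2 ⟨ha, has⟩) h
  · intro c hc
    unfold mul
    rw [if_neg, map_zero, smul_zero]
    rintro ⟨h, -⟩
    rw [Finset.mem_insert] at h
    rcases h with h | h
    · rw [h] at ha1; exact ha1 hc
    · exact ha2 h

/-- the boundary of `mul a b y` at the places with `a` in the first set -/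
theorem dD_mul_1 {a b : ℕ} (hab : a ≠ b)
    (y : Finset ℕ → Finset ℕ → N) {s u : Finset ℕ} (hd : Disjoint (insert a s) u)
    (has : a ∉ s) (hbs : b ∉ s ∪ u) : dD L e (mul a b y) (insert a s) u = e a (y s u) := by
  have ha2 : a ∉ u := fun h => (Finset.disjoint_left.1 hd) (Finset.mem_insert_self _ _) h
  have hb1 : b ∉ s := fun h => hbs (Finset.mem_union_left _ h)
  have hb2 : b ∉ u := fun h => hbs (Finset.mem_union_right _ h)
  unfold dD
  rw [if_pos hd, Finset.sum_insert has, Finset.erase_insert has]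
  rw [Finset.sum_eq_zero, Finset.sum_eq_zero, add_zero, sub_zero]
  · unfold mul
    rw [if_pos ⟨Finset.mem_insert_self _ _, has, hb1, by
      rw [Finset.mem_insert]; rintro (h | h); exacts [hab h.symm, hb2 h]⟩, Finset.erase_insert ha2,
      map_smul, smul_smul, sg_sq, one_smul]
  · intro c _
    unfold mul
    rw [if_neg, smul_zero]
    rintro ⟨-, h, -⟩
    exact h (Finset.mem_insert_self _ _)
  · intro c hc
    have hca : a ≠ c := by
      rintro rfl
      exact has hc
    unfold mul
    rw [if_neg, map_zero, smul_zero]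
    rintro ⟨-, h, -⟩
    exact h (Finset.mem_erase.2 ⟨hca, Finset.mem_insert_self _ _⟩)

/-- the boundary of `mul a b y` at the places with `b` in one of the sets -/
theorem dD_mul_2 {a b : ℕ} (y : Finset ℕ → Finset ℕ → N) {s u : Finset ℕ}
    (hbs : b ∈ s ∪ u) : dD L e (mul a b y) s u = 0 := by
  unfold dD
  split_ifs with hd
  · rw [Finset.sum_eq_zero, Finset.sum_eq_zero, sub_zero]
    · intro c _
      unfold mul
      rw [if_neg, smul_zero]
      rintro ⟨h1, h2, h3, h4⟩
      rcases Finset.mem_union.1 hbs with h | h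
      · exact h3 h
      · exact h4 (Finset.mem_insert_of_mem h)
    · intro c hc
      unfold mul
      rw [if_neg, map_zero, smul_zero]
      rintro ⟨h1, h2, h3, h4⟩
      have hbc : ¬ b = c := fun h => h4 (h ▸ Finset.mem_insert_self _ _)
      rcases Finset.mem_union.1 hbs with h | h
      · exact h3 (Finset.mem_erase.2 ⟨hbc, h⟩)
      · exact h4 (Finset.mem_insert_of_mem h)
  · rfl

/-- the boundary of `mul a b y` at the places with `a` in the second set -/
theorem dD_mul_3 {a b : ℕ} (hab : a ≠ b)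
    (y : Finset ℕ → Finset ℕ → N) (hy : ∀ s u, y s (insert b u) = 0)
    {s u : Finset ℕ} (hd : Disjoint s (insert a u))
    (hau : a ∉ u) (hbs : b ∉ s ∪ u) :
    dD L e (mul a b y) s (insert a u) = - (sg a u • dY L e a b y s u) := by
  have ha1 : a ∉ s := fun h => (Finset.disjoint_left.1 hd) h (Finset.mem_insert_self _ _)
  have hb1 : b ∉ s := fun h => hbs (Finset.mem_union_left _ h)
  have hb2 : b ∉ u := fun h => hbs (Finset.mem_union_right _ h)
  unfold dD dY
  rw [if_pos hd, smul_sub, neg_sub, Finset.smul_sum, Finset.smul_sum, sub_eq_add_neg,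
    ← Finset.sum_neg_distrib, sub_eq_add_neg, ← Finset.sum_neg_distrib, add_comm]
  congr 1
  · symm
    have hsub : (verts L \ (s ∪ u)) \ {a, b} ⊆ verts L \ (s ∪ insert a u) := by
      intro c hc
      simp only [Finset.mem_sdiff, Finset.mem_union, Finset.mem_insert,
        Finset.mem_singleton, not_or] at hc ⊢
      exact ⟨hc.1.1, hc.1.2.1, hc.2.1, hc.1.2.2⟩
    refine Finset.sum_subset_zero_on_sdiff hsub ?_ ?_
    · intro c hc
      simp only [Finset.mem_sdiff, Finset.mem_union, Finset.mem_insert,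
        Finset.mem_singleton, not_or, not_and, not_not] at hc
      have hcb : c = b := hc.2 ⟨hc.1.1, hc.1.2.1, hc.1.2.2.2⟩ hc.1.2.2.1
      rw [hcb]
      unfold mul
      rw [if_neg, smul_zero, neg_zero]
      rintro ⟨-, -, -, h⟩
      exact h (Finset.mem_insert_self _ _)
    · intro c hc
      simp only [Finset.mem_sdiff, Finset.mem_union, Finset.mem_insert,
        Finset.mem_singleton, not_or] at hc
      obtain ⟨⟨hc1, hc2, hc3⟩, hc4, hc5⟩ := hc
      unfold mul
      rw [if_pos ⟨by simp, ha1, hb1, by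
        simp only [Finset.mem_insert, not_or]
        exact ⟨Ne.symm hc5, hab.symm, hb2⟩⟩, Finset.erase_insert_of_ne hc4,
        Finset.erase_insert hau, smul_smul, smul_smul, ← neg_smul]
      congr 1
      have := sg_anti' (a := a) (c := c) (u := u) hau hc3 (Ne.symm hc4)
      rw [this]
      ring
  · refine Finset.sum_congr rfl fun c hc => ?_
    have hca : c ≠ a := by
      rintro rfl
      exact ha1 hc
    have hcb : c ≠ b := by
      rintro rfl
      exact hb1 hc
    have hcu : c ∉ u := fun h => (Finset.disjoint_left.1 hd) hc (Finset.mem_insert_of_mem h)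
    unfold mul
    rw [if_pos ⟨by simp, fun h => ha1 (Finset.mem_of_mem_erase h),
      fun h => hb1 (Finset.mem_of_mem_erase h), by
        simp only [Finset.mem_insert, not_or]
        exact ⟨Ne.symm hcb, hab.symm, hb2⟩⟩, Finset.erase_insert_of_ne hca,
      Finset.erase_insert hau, map_smul, smul_smul, smul_smul, ← neg_smul]
    congr 1
    have := sg_anti' (a := a) (c := c) (u := u) hau hcu (Ne.symm hca)
    rw [this]
    ring

/-- the inverse isomorphism -/
noncomputable def RR (e : ℕ → N →ₗ[ℝ] N) (a b : ℕ) (m m' : N) : N :=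
  open Classical in if h : ∃ g, e a g = m ∧ e b g = m' then Classical.choose h else 0

theorem RR_spec (hI : IdemSys L N e) {a b : ℕ} (ha : a ∈ verts L) (hb : b ∈ verts L)
    (hab : a ≠ b) (hadj : ¬ Adj L a b) {m m' : N} (hm : e a m = m) (hm' : e b m' = m') :
    e a (RR e a b m m') = m ∧ e b (RR e a b m m') = m' := by
  obtain ⟨g, hg, -⟩ := hI.iso a ha b hb hab hadj m m' hm hm'
  have h : ∃ g, e a g = m ∧ e b g = m' := ⟨g, hg⟩
  unfold RR
  rw [dif_pos h]
  exact Classical.choose_spec h

theorem eq_of_e (hI : IdemSys L N e) {a b : ℕ} (ha : a ∈ verts L) (hb : b ∈ verts L)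
    (hab : a ≠ b) (hadj : ¬ Adj L a b) {g g' : N} (h1 : e a g = e a g') (h2 : e b g = e b g') :
    g = g' := by
  obtain ⟨g0, -, hu⟩ := hI.iso a ha b hb hab hadj (e a g) (e b g) (hI.idem _ _) (hI.idem _ _)
  rw [hu g ⟨rfl, rfl⟩, hu g' ⟨h1.symm, h2.symm⟩]

theorem e_dY (hI : IdemSys L N e) {a b : ℕ} {d : ℕ} {z : Finset ℕ → Finset ℕ → N}
    {s u : Finset ℕ} (hs : ∀ c ∈ s, z (s.erase c) (insert c u) ≠ 0 → Adj L d c) :
    e d (dY L e a b z s u) = dY L e a b (fun s u => e d (z s u)) s u := by
  unfold dY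
  rw [map_sub, map_sum, map_sum]
  congr 1
  · refine Finset.sum_congr rfl fun c hc => ?_
    rw [map_smul]
    by_cases h : z (s.erase c) (insert c u) = 0
    · simp only [h, map_zero]
    · rw [hI.comm d c (hs c hc h)]
  · refine Finset.sum_congr rfl fun c _ => ?_
    rw [map_smul]

theorem dY_congr {a b : ℕ} {z z' : Finset ℕ → Finset ℕ → N} {s u : Finset ℕ}
    (has : a ∉ s ∪ u) (hbs : b ∉ s ∪ u)
    (h : ∀ s' u', a ∉ s' ∪ u' → b ∉ s' ∪ u' → z s' u' = z' s' u') :
    dY L e a b z s u = dY L e a b z' s u := by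
  unfold dY
  congr 1
  · refine Finset.sum_congr rfl fun c hc => ?_
    have hcs : c ∈ s ∪ u := Finset.mem_union_left _ hc
    rw [h]
    · intro h'
      simp only [Finset.mem_union, Finset.mem_erase, Finset.mem_insert] at h'
      rcases h' with h' | h' | h'
      · exact has (Finset.mem_union_left _ h'.2)
      · exact has (h' ▸ hcs)
      · exact has (Finset.mem_union_right _ h')
    · intro h'
      simp only [Finset.mem_union, Finset.mem_erase, Finset.mem_insert] at h'
      rcases h' with h' | h' | h'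
      · exact hbs (Finset.mem_union_left _ h'.2)
      · exact hbs (h' ▸ hcs)
      · exact hbs (Finset.mem_union_right _ h')
  · refine Finset.sum_congr rfl fun c hc => ?_
    simp only [Finset.mem_sdiff, Finset.mem_insert, Finset.mem_singleton, not_or] at hc
    rw [h]
    · intro h'
      simp only [Finset.mem_union, Finset.mem_insert] at h'
      rcases h' with h' | h' | h'
      · exact has (Finset.mem_union_left _ h')
      · exact hc.2.1 h'.symm
      · exact has (Finset.mem_union_right _ h')
    · intro h'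
      simp only [Finset.mem_union, Finset.mem_insert] at h'
      rcases h' with h' | h' | h'
      · exact hbs (Finset.mem_union_left _ h')
      · exact hc.2.2 h'.symm
      · exact hbs (Finset.mem_union_right _ h')

theorem B4 (hf : FlagC L) (hI : IdemSys L N e) {X : Finset ℕ} (hX : X ⊆ verts L)
    {a b : ℕ} (haX : a ∈ X) (hbX : b ∈ X) (hab : a ≠ b) (hadj : ¬ Adj L a b)
    (hY : ∀ c ∈ X, c ≠ a → c ≠ b → Adj L c a ∧ Adj L c b)
    {x : Finset ℕ → Finset ℕ → N} (hx : IsDD L e X x) (hdx : dD L e x = 0) :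
    ∃ y, IsDD L e X y ∧ dD L e y = x := by
  have ha : a ∈ verts L := hX haX
  have hb : b ∈ verts L := hX hbX
  -- the two components
  set m1 : Finset ℕ → Finset ℕ → N := fun s u => x (insert a s) u with hm1
  set m2 : Finset ℕ → Finset ℕ → N := fun s u => - x (insert b s) u + - e b (x s u) with hm2
  have e1 : ∀ s u, e a (m1 s u) = m1 s u := fun s u =>
    (hx (insert a s) u).2 a (Finset.mem_insert_self _ _)
  have e2 : ∀ s u, e b (m2 s u) = m2 s u := fun s u => by
    simp only [hm2]
    rw [map_add, map_neg, map_neg, hI.idem, (hx (insert b s) u).2 b (Finset.mem_insert_self _ _)]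
  set y3 : Finset ℕ → Finset ℕ → N := fun s u =>
    if a ∉ s ∪ u ∧ b ∉ s ∪ u then RR e a b (m1 s u) (m2 s u) else 0 with hy3
  set y4 : Finset ℕ → Finset ℕ → N := fun s u =>
    if a ∉ s ∪ u ∧ b ∉ s ∪ u then - x s u + - y3 s u else 0 with hy4
  have sy3 : ∀ s u, a ∉ s ∪ u → b ∉ s ∪ u → e a (y3 s u) = m1 s u ∧ e b (y3 s u) = m2 s u := by
    intro s u h1 h2
    simp only [hy3]
    rw [if_pos ⟨h1, h2⟩]
    exact RR_spec hI ha hb hab hadj (e1 s u) (e2 s u)
  -- where `y3`, `y4` live
  have supp : ∀ s u, (y3 s u ≠ 0 ∨ y4 s u ≠ 0) → (a ∉ s ∪ u ∧ b ∉ s ∪ u) ∧ Disjoint s u ∧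
      s ∪ u ∈ L ∧ s ∪ u ⊆ X := by
    intro s u h
    have hn : a ∉ s ∪ u ∧ b ∉ s ∪ u := by
      by_contra hn
      rcases h with h | h
      · apply h
        simp only [hy3]
        rw [if_neg hn]
      · apply h
        simp only [hy4]
        rw [if_neg hn]
    refine ⟨hn, ?_⟩
    have hor : x (insert a s) u ≠ 0 ∨ x (insert b s) u ≠ 0 ∨ x s u ≠ 0 := by
      by_contra hcon
      push Not at hcon
      obtain ⟨h1, h2, h3⟩ := hcon
      have h4 : y3 s u = 0 := by
        refine eq_of_e hI ha hb hab hadj ?_ ?_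
        · rw [(sy3 s u hn.1 hn.2).1, map_zero]; exact h1
        · rw [(sy3 s u hn.1 hn.2).2, map_zero]
          simp only [hm2]
          rw [h2, h3]; simp
      rcases h with h | h
      · exact h h4
      · apply h
        simp only [hy4]
        rw [if_pos hn, h3, h4]; simp
    rcases hor with h | h | h
    · obtain ⟨h1, h2, h3⟩ := (hx _ _).1 h
      refine ⟨Finset.disjoint_of_subset_left (Finset.subset_insert _ _) h1, hf.mono h2 ?_, ?_⟩
      · exact Finset.union_subset_union_left (Finset.subset_insert _ _)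
      · exact (Finset.union_subset_union_left (Finset.subset_insert _ _)).trans h3
    · obtain ⟨h1, h2, h3⟩ := (hx _ _).1 h
      refine ⟨Finset.disjoint_of_subset_left (Finset.subset_insert _ _) h1, hf.mono h2 ?_, ?_⟩
      · exact Finset.union_subset_union_left (Finset.subset_insert _ _)
      · exact (Finset.union_subset_union_left (Finset.subset_insert _ _)).trans h3
    · exact (hx _ _).1 h
  have adjs : ∀ s u, (y3 s u ≠ 0 ∨ y4 s u ≠ 0) → ∀ c ∈ s ∪ u, Adj L a c ∧ Adj L b c := by
    intro s u h c hc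
    obtain ⟨⟨h1, h2⟩, -, -, h3⟩ := supp s u h
    have := hY c (h3 hc) (fun h => h1 (h ▸ hc)) (fun h => h2 (h ▸ hc))
    exact ⟨adj_symm this.1, adj_symm this.2⟩
  -- values in `e_s N`
  have val3 : ∀ s u, ∀ c ∈ s, e c (y3 s u) = y3 s u := by
    intro s u c hc
    by_cases h0 : y3 s u = 0
    · rw [h0, map_zero]
    · obtain ⟨⟨h1, h2⟩, -⟩ := supp s u (Or.inl h0)
      obtain ⟨h3, h4⟩ := adjs s u (Or.inl h0) c (Finset.mem_union_left _ hc)
      refine eq_of_e hI ha hb hab hadj ?_ ?_
      · rw [hI.comm a c h3, (sy3 s u h1 h2).1]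
        exact (hx (insert a s) u).2 c (Finset.mem_insert_of_mem hc)
      · rw [hI.comm b c h4, (sy3 s u h1 h2).2]
        simp only [hm2]
        rw [map_add, map_neg, map_neg, ← hI.comm b c h4,
          (hx (insert b s) u).2 c (Finset.mem_insert_of_mem hc), (hx s u).2 c hc]
  have val4 : ∀ s u, ∀ c ∈ s, e c (y4 s u) = y4 s u := by
    intro s u c hc
    simp only [hy4]
    split_ifs
    · rw [map_add, map_neg, map_neg, val3 s u c hc, (hx s u).2 c hc]
    · rw [map_zero]
  have n3a : ∀ s u, y3 s (insert a u) = 0 := fun s u => by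
    simp only [hy3]
    rw [if_neg]
    rintro ⟨h, -⟩
    exact h (by simp)
  have n3b : ∀ s u, y3 s (insert b u) = 0 := fun s u => by
    simp only [hy3]
    rw [if_neg]
    rintro ⟨-, h⟩
    exact h (by simp)
  have n4a : ∀ s u, y4 s (insert a u) = 0 := fun s u => by
    simp only [hy4]
    rw [if_neg]
    rintro ⟨h, -⟩
    exact h (by simp)
  have n4b : ∀ s u, y4 s (insert b u) = 0 := fun s u => by
    simp only [hy4]
    rw [if_neg]
    rintro ⟨-, h⟩
    exact h (by simp)
  -- the multiplication produces elements of the complex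
  have isD : ∀ (c d : ℕ), c ∈ X → c ≠ d → ∀ y : Finset ℕ → Finset ℕ → N,
      (∀ s u, y s u ≠ 0 → Disjoint s u ∧ s ∪ u ∈ L ∧ s ∪ u ⊆ X ∧ ∀ g ∈ s ∪ u, Adj L c g) →
      (∀ s u, ∀ g ∈ s, e g (y s u) = y s u) → IsDD L e X (mul c d y) := by
    intro c d hc _ y hy hv s u
    constructor
    · intro h
      unfold mul at h
      split_ifs at h with h1
      · obtain ⟨h2, h3, h4, h5⟩ := h1
        have h6 : y s (u.erase c) ≠ 0 := by
          intro h'
          rw [h', smul_zero] at h
          exact h rfl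
        obtain ⟨h7, h8, h9, h10⟩ := hy _ _ h6
        have hu : insert c (s ∪ u.erase c) = s ∪ u := by
          rw [← Finset.union_insert, Finset.insert_erase h2]
        refine ⟨?_, ?_, ?_⟩
        · rw [← Finset.insert_erase h2, Finset.disjoint_insert_right]
          exact ⟨h3, h7⟩
        · rw [← hu]
          exact insert_mem hf h8 (hX hc) fun g hg _ => adj_symm (h10 g hg)
        · rw [← hu]
          exact Finset.insert_subset hc h9
      · exact absurd rfl h
    · intro g hg
      unfold mul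
      split_ifs
      · rw [map_smul, hv s _ g hg]
      · rw [map_zero]
  have hD3 : IsDD L e X (mul a b y3) := isD a b haX hab y3
    (fun s u h => ⟨(supp s u (Or.inl h)).2.1, (supp s u (Or.inl h)).2.2.1,
      (supp s u (Or.inl h)).2.2.2, fun g hg => (adjs s u (Or.inl h) g hg).1⟩) val3
  have hD4 : IsDD L e X (mul b a y4) := isD b a hbX hab.symm y4
    (fun s u h => ⟨(supp s u (Or.inr h)).2.1, (supp s u (Or.inr h)).2.2.1,
      (supp s u (Or.inr h)).2.2.2, fun g hg => (adjs s u (Or.inr h) g hg).2⟩) val4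
  refine ⟨fun s u => mul a b y3 s u + mul b a y4 s u, ?_, ?_⟩
  · intro s u
    constructor
    · intro h
      by_cases h1 : mul a b y3 s u = 0
      · have h2 : mul b a y4 s u ≠ 0 := by
          intro h2
          apply h
          change mul a b y3 s u + mul b a y4 s u = 0
          rw [h1, h2, zero_add]
        exact (hD4 s u).1 h2
      · exact (hD3 s u).1 h1
    · intro c hc
      rw [map_add, (hD3 s u).2 c hc, (hD4 s u).2 c hc]
  -- the boundary
  have hz : ∀ s u, a ∈ s ∪ u → b ∈ s ∪ u → x s u = 0 := by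
    intro s u h1 h2
    by_contra h
    exact hadj (adj_of_mem hf ((hx s u).1 h).2.1 h1 h2 hab)
  have hadj' : ¬ Adj L b a := fun h => hadj (adj_symm h)
  have K0 : ∀ s u, Disjoint s u → a ∉ s ∪ u → b ∉ s ∪ u →
      dY L e a b x s u = sg a u • x s (insert a u) + sg b u • x s (insert b u) := by
    intro s u hd h1 h2
    have h := dD_split (e := e) ha hb hab x hd h1 h2
    rw [hdx] at h
    have h' : (0 : N) = dY L e a b x s u - sg a u • x s (insert a u) -
      sg b u • x s (insert b u) := h
    rw [sub_sub] at h'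
    exact (sub_eq_zero.1 h'.symm)
  have K3 : ∀ s u, Disjoint s u → a ∉ s ∪ u → b ∉ s ∪ u →
      dY L e a b y3 s u = - (sg a u • x s (insert a u)) := by
    intro s u hd h1 h2
    have hA : ∀ c ∈ s, y3 (s.erase c) (insert c u) ≠ 0 → Adj L a c ∧ Adj L b c := fun c _ h =>
      adjs _ _ (Or.inl h) c (by simp)
    refine eq_of_e hI ha hb hab hadj ?_ ?_
    · rw [e_dY hI (fun c hc h => (hA c hc h).1),
        dY_congr (z' := m1) h1 h2 (fun s' u' h1' h2' => (sy3 s' u' h1' h2').1)]
      have h := dD_split_a (b := b) hf hab hadj hx hd h1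
      rw [hdx] at h
      have h' : (0 : N) = sg a u • e a (x s (insert a u)) +
        dY L e a b (fun s u => x (insert a s) u) s u := h
      rw [map_neg, map_smul]
      exact (neg_eq_of_add_eq_zero_right h'.symm).symm
    · rw [e_dY hI (fun c hc h => (hA c hc h).2),
        dY_congr (z' := m2) h1 h2 (fun s' u' h1' h2' => (sy3 s' u' h1' h2').2)]
      have h := dD_split_a (b := a) hf hab.symm hadj' hx hd h2
      rw [hdx] at h
      have h' : (0 : N) = sg b u • e b (x s (insert b u)) +
        dY L e b a (fun s u => x (insert b s) u) s u := h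
      rw [← dY_comm] at h'
      have h3 : dY L e a b (fun s u => x (insert b s) u) s u =
          - (sg b u • e b (x s (insert b u))) := (neg_eq_of_add_eq_zero_right h'.symm).symm
      have h4 : dY L e a b (fun s u => e b (x s u)) s u =
          e b (sg a u • x s (insert a u) + sg b u • x s (insert b u)) := by
        rw [← K0 s u hd h1 h2, e_dY hI]
        intro c hc hne
        obtain ⟨-, -, h5⟩ := (hx _ _).1 hne
        have hcX : c ∈ X := h5 (by simp)
        exact adj_symm (hY c hcX (fun h => h1 (h ▸ Finset.mem_union_left _ hc))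
          (fun h => h2 (h ▸ Finset.mem_union_left _ hc))).2
      simp only [hm2]
      rw [dY_add, dY_neg, dY_neg, h3, h4, map_add, map_smul, map_smul, map_neg, map_smul]
      abel
  have K4 : ∀ s u, Disjoint s u → a ∉ s ∪ u → b ∉ s ∪ u →
      dY L e a b y4 s u = - (sg b u • x s (insert b u)) := by
    intro s u hd h1 h2
    rw [dY_congr (z' := fun s u => - x s u + - y3 s u) h1 h2 (fun s' u' h1' h2' => by
      simp only [hy4]
      rw [if_pos ⟨h1', h2'⟩]), dY_add, dY_neg, dY_neg, K0 s u hd h1 h2, K3 s u hd h1 h2]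
    abel
  funext s u
  rw [dD_add]
  by_cases hd : Disjoint s u
  swap
  · have h1 : x s u = 0 := by
      by_contra h
      exact hd ((hx s u).1 h).1
    unfold dD
    rw [if_neg hd, if_neg hd, h1, add_zero]
  by_cases has : a ∈ s
  · have hau : a ∉ u := fun h => (Finset.disjoint_left.1 hd) has h
    rw [dD_mul_2 (a := b) (b := a) y4 (Finset.mem_union_left _ has), add_zero]
    by_cases hb' : b ∈ s ∪ u
    · rw [dD_mul_2 y3 hb', hz s u (Finset.mem_union_left _ has) hb']
    · obtain ⟨s', hs', rfl⟩ : ∃ s', a ∉ s' ∧ s = insert a s' :=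
        ⟨s.erase a, Finset.notMem_erase _ _, (Finset.insert_erase has).symm⟩
      have h2 : b ∉ s' ∪ u := fun h => hb' (by
        rcases Finset.mem_union.1 h with h | h
        · exact Finset.mem_union_left _ (Finset.mem_insert_of_mem h)
        · exact Finset.mem_union_right _ h)
      have h1 : a ∉ s' ∪ u := by
        rw [Finset.mem_union, not_or]
        exact ⟨hs', hau⟩
      rw [dD_mul_1 hab y3 hd hs' h2, (sy3 s' u h1 h2).1]
  by_cases hbs : b ∈ s
  · have hbu : b ∉ u := fun h => (Finset.disjoint_left.1 hd) hbs h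
    rw [dD_mul_2 y3 (Finset.mem_union_left _ hbs), zero_add]
    by_cases ha' : a ∈ s ∪ u
    · rw [dD_mul_2 (a := b) (b := a) y4 ha', hz s u ha' (Finset.mem_union_left _ hbs)]
    · obtain ⟨s', hs', rfl⟩ : ∃ s', b ∉ s' ∧ s = insert b s' :=
        ⟨s.erase b, Finset.notMem_erase _ _, (Finset.insert_erase hbs).symm⟩
      have h1 : a ∉ s' ∪ u := fun h => ha' (by
        rcases Finset.mem_union.1 h with h | h
        · exact Finset.mem_union_left _ (Finset.mem_insert_of_mem h)
        · exact Finset.mem_union_right _ h)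
      have h2 : b ∉ s' ∪ u := by
        rw [Finset.mem_union, not_or]
        exact ⟨hs', hbu⟩
      rw [dD_mul_1 hab.symm y4 hd hs' h1]
      simp only [hy4]
      rw [if_pos ⟨h1, h2⟩, map_add, map_neg, map_neg, (sy3 s' u h1 h2).2]
      simp only [hm2]
      abel
  by_cases hau : a ∈ u
  · rw [dD_mul_2 (a := b) (b := a) y4 (Finset.mem_union_right _ hau), add_zero]
    by_cases hbu : b ∈ u
    · rw [dD_mul_2 y3 (Finset.mem_union_right _ hbu),
        hz s u (Finset.mem_union_right _ hau) (Finset.mem_union_right _ hbu)]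
    · obtain ⟨u', hu', rfl⟩ : ∃ u', a ∉ u' ∧ u = insert a u' :=
        ⟨u.erase a, Finset.notMem_erase _ _, (Finset.insert_erase hau).symm⟩
      have h1 : a ∉ s ∪ u' := by
        rw [Finset.mem_union, not_or]
        exact ⟨has, hu'⟩
      have h2 : b ∉ s ∪ u' := by
        rw [Finset.mem_union, not_or]
        exact ⟨hbs, fun h => hbu (Finset.mem_insert_of_mem h)⟩
      have hd' : Disjoint s u' := Finset.disjoint_of_subset_right (Finset.subset_insert _ _) hd
      rw [dD_mul_3 hab y3 n3b hd hu' h2, K3 s u' hd' h1 h2, smul_neg, neg_neg, smul_smul, sg_sq,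
        one_smul]
  by_cases hbu : b ∈ u
  · rw [dD_mul_2 y3 (Finset.mem_union_right _ hbu), zero_add]
    obtain ⟨u', hu', rfl⟩ : ∃ u', b ∉ u' ∧ u = insert b u' :=
      ⟨u.erase b, Finset.notMem_erase _ _, (Finset.insert_erase hbu).symm⟩
    have h2 : b ∉ s ∪ u' := by
      rw [Finset.mem_union, not_or]
      exact ⟨hbs, hu'⟩
    have h1 : a ∉ s ∪ u' := by
      rw [Finset.mem_union, not_or]
      exact ⟨has, fun h => hau (Finset.mem_insert_of_mem h)⟩
    have hd' : Disjoint s u' := Finset.disjoint_of_subset_right (Finset.subset_insert _ _) hd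
    rw [dD_mul_3 hab.symm y4 n4a hd hu' h1, ← dY_comm, K4 s u' hd' h1 h2, smul_neg, neg_neg,
      smul_smul, sg_sq, one_smul]
  · have h1 : a ∉ s ∪ u := by
      rw [Finset.mem_union, not_or]
      exact ⟨has, hau⟩
    have h2 : b ∉ s ∪ u := by
      rw [Finset.mem_union, not_or]
      exact ⟨hbs, hbu⟩
    rw [dD_mul_0 ha hab y3 hd h1 h2, dD_mul_0 hb hab.symm y4 hd h2 h1]
    simp only [hy4]
    rw [if_pos ⟨h1, h2⟩]
    abel

end

theorem B4_stmt : S_B4 := fun _ hf _ _ _ _ hI _ hX _ _ ha hb hab hadj hY _ hx hdx =>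
  B4 hf hI hX ha hb hab hadj hY hx hdx

end RA

end MP8a95ee
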