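import Pool.Agent.Work.MP_8a95ee_gt.R.Stmts
import Pool.Agent.Work.MP_8a95ee_gt.R.Bas

/-!
# B10: existence of the coefficients
-/

namespace MP8a95ee

namespace RA

namespace B10

open Finset

variable {V : Finset ℕ} (adj : ℕ → ℕ → Prop)

open Classical in
/-- number of elements of `A` which are larger than `a` and not adjacent to `a` -/
noncomputable def kk (a : V) (A : Finset V) : ℕ :=
  (A.filter fun b : V => (a : ℕ) < (b : ℕ) ∧ ¬ adj a b).card

open Classical in
/-- the weight -/
noncomputable def wt (a : V) (A : Finset V) : ℝ :=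
  if a ∈ A then ((2 : ℝ) ^ kk adj a A)⁻¹ else 2 ^ kk adj a A

theorem mem_sd {c x : V} {A : Finset V} : x ∈ symmDiff A {c} ↔ (x ∈ A ∧ x ≠ c) ∨ (x = c ∧ c ∉ A) := by
  rw [Finset.mem_symmDiff, Finset.mem_singleton]
  constructor
  · rintro (h | ⟨rfl, h⟩)
    · exact Or.inl h
    · exact Or.inr ⟨rfl, h⟩
  · rintro (h | ⟨rfl, h⟩)
    · exact Or.inl h
    · exact Or.inr ⟨rfl, h⟩

theorem mem_sd_of_ne {c x : V} {A : Finset V} (h : x ≠ c) : x ∈ symmDiff A {c} ↔ x ∈ A := by
  rw [mem_sd]
  simp [h]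

theorem mem_sd_self {c : V} {A : Finset V} : c ∈ symmDiff A {c} ↔ c ∉ A := by
  rw [mem_sd]
  simp

theorem kk_eq {a c : V} {A : Finset V} (h : ¬ ((a : ℕ) < c ∧ ¬ adj a c)) :
    kk adj a (symmDiff A {c}) = kk adj a A := by
  classical
  unfold kk
  congr 1
  ext x
  simp only [mem_filter]
  by_cases hx : x = c
  · subst hx
    constructor
    · rintro ⟨-, h'⟩; exact absurd h' h
    · rintro ⟨-, h'⟩; exact absurd h' h
  · rw [mem_sd_of_ne hx]

theorem kk_ne {a c : V} {A : Finset V} (h : (a : ℕ) < c ∧ ¬ adj a c) :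
    kk adj a (symmDiff A {c}) ≠ kk adj a A := by
  classical
  have key : ∀ B : Finset V, c ∉ B → kk adj a (symmDiff B {c}) = kk adj a B + 1 := by
    intro B hB
    unfold kk
    have h1 : symmDiff B {c} = insert c B := by
      ext x
      rw [mem_sd, mem_insert]
      constructor
      · rintro (h | h)
        · exact Or.inr h.1
        · exact Or.inl h.1
      · rintro (rfl | h)
        · exact Or.inr ⟨rfl, hB⟩
        · exact Or.inl ⟨h, fun h' => hB (h' ▸ h)⟩
    rw [h1, filter_insert, if_pos h, card_insert_of_notMem (by simp [hB])]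
  by_cases hc : c ∈ A
  · have h2 := key (symmDiff A {c}) (by rw [mem_sd_self]; exact not_not.mpr hc)
    rw [symmDiff_symmDiff_cancel_right] at h2
    omega
  · have h2 := key A hc
    omega

theorem wt_pos (a : V) (A : Finset V) : 0 < wt adj a A := by
  unfold wt
  split_ifs <;> positivity

theorem wt_mul_self (a : V) (A : Finset V) : wt adj a A * wt adj a (symmDiff A {a}) = 1 := by
  have h1 : kk adj a (symmDiff A {a}) = kk adj a A := kk_eq adj (fun h => lt_irrefl _ h.1)
  unfold wt
  rw [h1]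
  by_cases ha : a ∈ A
  · rw [if_pos ha, if_neg (by rw [mem_sd_self]; exact not_not.mpr ha)]
    exact inv_mul_cancel₀ (by positivity)
  · rw [if_neg ha, if_pos (by rw [mem_sd_self]; exact ha)]
    exact mul_inv_cancel₀ (by positivity)

theorem wt_eq {a c : V} {A : Finset V} (hne : a ≠ c) (h : ¬ ((a : ℕ) < c ∧ ¬ adj a c)) :
    wt adj a (symmDiff A {c}) = wt adj a A := by
  unfold wt
  rw [kk_eq adj h]
  by_cases ha : a ∈ A
  · rw [if_pos ha, if_pos ((mem_sd_of_ne hne).mpr ha)]
  · rw [if_neg ha, if_neg (fun h => ha ((mem_sd_of_ne hne).mp h))]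

theorem wt_ne {a c : V} {A : Finset V} (hne : a ≠ c) (h : (a : ℕ) < c ∧ ¬ adj a c) :
    wt adj a (symmDiff A {c}) ≠ wt adj a A := by
  have h1 := kk_ne adj (A := A) h
  have h2 : (2 : ℝ) ^ kk adj a (symmDiff A {c}) ≠ 2 ^ kk adj a A := fun h3 =>
    h1 (pow_right_injective₀ (by norm_num) (by norm_num) h3)
  unfold wt
  by_cases ha : a ∈ A
  · rw [if_pos ha, if_pos ((mem_sd_of_ne hne).mpr ha)]
    exact fun h3 => h2 (inv_injective h3)
  · rw [if_neg ha, if_neg (fun h => ha ((mem_sd_of_ne hne).mp h))]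
    exact h2

/-- the involution -/
noncomputable def rr (a : V) : (Finset V → ℝ) →ₗ[ℝ] (Finset V → ℝ) where
  toFun F A := wt adj a A * F (symmDiff A {a})
  map_add' F G := by funext A; simp [mul_add]
  map_smul' c F := by funext A; simp; ring

theorem rr_apply (a : V) (F : Finset V → ℝ) (A : Finset V) :
    rr adj a F A = wt adj a A * F (symmDiff A {a}) := rfl

theorem rr_rr (a : V) (F : Finset V → ℝ) : rr adj a (rr adj a F) = F := by
  funext A
  rw [rr_apply, rr_apply, symmDiff_symmDiff_cancel_right, ← mul_assoc, wt_mul_self, one_mul]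

theorem rr_comm {a c : V} (hne : a ≠ c) (h1 : ¬ ((a : ℕ) < c ∧ ¬ adj a c))
    (h2 : ¬ ((c : ℕ) < a ∧ ¬ adj c a)) (F : Finset V → ℝ) :
    rr adj a (rr adj c F) = rr adj c (rr adj a F) := by
  funext A
  rw [rr_apply, rr_apply, rr_apply, rr_apply, wt_eq adj hne.symm h2, wt_eq adj hne h1,
    symmDiff_right_comm]
  ring

/-- common fixed vectors of two involutions with nonadjacent labels -/
theorem rr_fix {a b : V} (h : (a : ℕ) < b ∧ ¬ adj a b) {F : Finset V → ℝ}
    (ha : rr adj a F = F) (hb : rr adj b F = F) : F = 0 := by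
  have hne : a ≠ b := fun h' => by rw [h'] at h; exact lt_irrefl _ h.1
  have hba : ¬ ((b : ℕ) < a ∧ ¬ adj b a) := fun h' => lt_asymm h.1 h'.1
  have key : ∀ A : Finset V, F (symmDiff (symmDiff A {a}) {b}) = 0 := by
    intro A
    have e1 : F A = wt adj a A * (wt adj b A * F (symmDiff (symmDiff A {a}) {b})) := by
      have h1 := congrFun ha A
      have h2 := congrFun hb (symmDiff A {a})
      rw [rr_apply] at h1 h2
      rw [wt_eq adj hne.symm hba] at h2
      rw [← h1, ← h2]
    have e2 : F A = wt adj b A * (wt adj a (symmDiff A {b}) *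
        F (symmDiff (symmDiff A {a}) {b})) := by
      have h1 := congrFun hb A
      have h2 := congrFun ha (symmDiff A {b})
      rw [rr_apply] at h1 h2
      rw [symmDiff_right_comm A {b} {a}] at h2
      rw [← h1, ← h2]
    have e3 : (wt adj a (symmDiff A {b}) - wt adj a A) *
        (wt adj b A * F (symmDiff (symmDiff A {a}) {b})) = 0 := by
      linarith
    rcases mul_eq_zero.mp e3 with h3 | h3
    · exact absurd (sub_eq_zero.mp h3) (wt_ne adj hne h)
    · exact (mul_eq_zero.mp h3).resolve_left (wt_pos adj b A).ne'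
  funext A
  have h1 := key (symmDiff (symmDiff A {a}) {b})
  rw [symmDiff_right_comm (symmDiff A {a}) {b} {a}, symmDiff_symmDiff_cancel_right,
    symmDiff_symmDiff_cancel_right] at h1
  exact h1

open Classical in
/-- the sign -/
noncomputable def sgn (a : V) (A : Finset V) : ℝ := if a ∈ A then -1 else 1

theorem sgn_sq (a : V) (A : Finset V) : sgn a A * sgn a A = 1 := by
  unfold sgn
  split_ifs <;> norm_num

/-- multiplication by the sign -/
noncomputable def σl (a : V) : (Finset V → ℝ) →ₗ[ℝ] (Finset V → ℝ) where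
  toFun F A := sgn a A * F A
  map_add' F G := by funext A; simp [mul_add]
  map_smul' c F := by funext A; simp; ring

theorem σl_apply (a : V) (F : Finset V → ℝ) (A : Finset V) : σl a F A = sgn a A * F A := rfl

theorem σl_σl (a : V) (F : Finset V → ℝ) : σl a (σl a F) = F := by
  funext A
  rw [σl_apply, σl_apply, ← mul_assoc, sgn_sq, one_mul]

theorem rr_σl_self (a : V) (F : Finset V → ℝ) : rr adj a (σl a F) = - σl a (rr adj a F) := by
  funext A
  rw [rr_apply, σl_apply, Pi.neg_apply, σl_apply, rr_apply]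
  have h : sgn a (symmDiff A {a}) = - sgn a A := by
    unfold sgn
    by_cases ha : a ∈ A
    · rw [if_neg (by rw [mem_sd_self]; exact not_not.mpr ha), if_pos ha]; ring
    · rw [if_pos (by rw [mem_sd_self]; exact ha), if_neg ha]
  rw [h]; ring

theorem rr_σl {a b : V} (hne : a ≠ b) (F : Finset V → ℝ) :
    rr adj b (σl a F) = σl a (rr adj b F) := by
  funext A
  rw [rr_apply, σl_apply, σl_apply, rr_apply]
  have h : sgn a (symmDiff A {b}) = sgn a A := by
    unfold sgn
    by_cases ha : a ∈ A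
    · rw [if_pos ((mem_sd_of_ne hne).mpr ha), if_pos ha]
    · rw [if_neg (fun h => ha ((mem_sd_of_ne hne).mp h)), if_neg ha]
  rw [h]; ring

/-- splitting of a subspace into eigenspaces of an involution -/
theorem finrank_half {N : Type} [AddCommGroup N] [Module ℝ N] [FiniteDimensional ℝ N]
    (U Um : Submodule ℝ N) (r s : N →ₗ[ℝ] N) (hr : ∀ x, r (r x) = x) (hs : ∀ x, s (s x) = x)
    (hrU : ∀ x ∈ U, r x ∈ U) (hsU : ∀ x ∈ U, s x ∈ U) (hrs : ∀ x, r (s x) = - s (r x))
    (hUm : ∀ x, x ∈ Um ↔ x ∈ U ∧ r x = -x) :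
    Module.finrank ℝ U = 2 * Module.finrank ℝ Um := by
  set e : N ≃ₗ[ℝ] N := LinearEquiv.ofInvolutive s hs with he
  have hes : ∀ x, e x = s x := fun x => rfl
  set Up : Submodule ℝ N := Um.map (e : N →ₗ[ℝ] N) with hUp
  have hUp' : ∀ x, x ∈ Up ↔ x ∈ U ∧ r x = x := by
    intro x
    rw [hUp, Submodule.mem_map]
    constructor
    · rintro ⟨y, hy, rfl⟩
      obtain ⟨h1, h2⟩ := (hUm y).mp hy
      refine ⟨hsU y h1, ?_⟩
      show r (s y) = s y
      rw [hrs, h2, map_neg, neg_neg]
    · rintro ⟨h1, h2⟩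
      refine ⟨s x, (hUm _).mpr ⟨hsU x h1, by rw [hrs, h2]⟩, hs x⟩
  have h1 : Module.finrank ℝ Up = Module.finrank ℝ Um := LinearEquiv.finrank_map_eq e Um
  have hsup : Um ⊔ Up = U := by
    apply le_antisymm
    · exact sup_le (fun x hx => ((hUm x).mp hx).1) (fun x hx => ((hUp' x).mp hx).1)
    · intro x hx
      have h2 : x = (1 / 2 : ℝ) • (x - r x) + (1 / 2 : ℝ) • (x + r x) := by
        rw [← smul_add, sub_add_add_cancel, ← two_smul ℝ x, smul_smul]
        norm_num
      rw [h2]
      refine Submodule.add_mem_sup ?_ ?_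
      · refine (hUm _).mpr ⟨U.smul_mem _ (U.sub_mem hx (hrU x hx)), ?_⟩
        rw [map_smul, map_sub, hr, ← smul_neg, neg_sub]
      · refine (hUp' _).mpr ⟨U.smul_mem _ (U.add_mem hx (hrU x hx)), ?_⟩
        rw [map_smul, map_add, hr, add_comm]
  have hinf : Um ⊓ Up = ⊥ := by
    rw [eq_bot_iff]
    rintro x ⟨h2, h3⟩
    have h4 := ((hUm x).mp h2).2
    have h5 := ((hUp' x).mp h3).2
    rw [h5] at h4
    rw [Submodule.mem_bot]
    have h6 : (2 : ℝ) • x = 0 := by
      rw [two_smul]
      nth_rewrite 2 [h4]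
      exact add_neg_cancel x
    exact (smul_eq_zero.mp h6).resolve_left two_ne_zero
  have h2 := Submodule.finrank_sup_add_finrank_inf_eq Um Up
  rw [hsup, hinf, finrank_bot, h1] at h2
  omega

open Classical in
/-- the idempotents -/
noncomputable def ee (V : Finset ℕ) (adj : ℕ → ℕ → Prop) (a : ℕ) :
    (Finset V → ℝ) →ₗ[ℝ] (Finset V → ℝ) :=
  if h : a ∈ V then (1 / 2 : ℝ) • (LinearMap.id - rr adj ⟨a, h⟩) else 0

theorem ee_pos {a : ℕ} (h : a ∈ V) (F : Finset V → ℝ) :
    ee V adj a F = (1 / 2 : ℝ) • (F - rr adj ⟨a, h⟩ F) := by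
  unfold ee
  rw [dif_pos h]
  rfl

theorem ee_neg {a : ℕ} (h : a ∉ V) (F : Finset V → ℝ) : ee V adj a F = 0 := by
  unfold ee
  rw [dif_neg h]
  rfl

theorem ee_idem (a : ℕ) (F : Finset V → ℝ) : ee V adj a (ee V adj a F) = ee V adj a F := by
  by_cases h : a ∈ V
  · rw [ee_pos adj h, ee_pos adj h, map_smul, map_sub, rr_rr]
    funext A
    simp only [Pi.smul_apply, Pi.sub_apply, smul_eq_mul]
    ring
  · rw [ee_neg adj h, ee_neg adj h]

theorem ee_fix_iff {a : ℕ} (h : a ∈ V) (F : Finset V → ℝ) :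
    ee V adj a F = F ↔ rr adj ⟨a, h⟩ F = -F := by
  rw [ee_pos adj h]
  constructor
  · intro h1
    funext A
    have h2 := congrFun h1 A
    simp only [Pi.smul_apply, Pi.sub_apply, smul_eq_mul] at h2
    rw [Pi.neg_apply]
    linarith
  · intro h1
    funext A
    have h2 := congrFun h1 A
    simp only [Pi.smul_apply, Pi.sub_apply, smul_eq_mul]
    rw [Pi.neg_apply] at h2
    linarith

theorem ee_zero_iff {a : ℕ} (h : a ∈ V) (F : Finset V → ℝ) :
    ee V adj a F = 0 ↔ rr adj ⟨a, h⟩ F = F := by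
  rw [ee_pos adj h]
  constructor
  · intro h1
    funext A
    have h2 := congrFun h1 A
    simp only [Pi.smul_apply, Pi.sub_apply, smul_eq_mul, Pi.zero_apply] at h2
    linarith
  · intro h1
    rw [h1, sub_self, smul_zero]

variable {adj} (hsymm : ∀ a b, adj a b → adj b a)

include hsymm in
theorem ee_comm {a b : ℕ} (hne : a ≠ b) (hab : adj a b) (F : Finset V → ℝ) :
    ee V adj a (ee V adj b F) = ee V adj b (ee V adj a F) := by
  by_cases ha : a ∈ V
  · by_cases hb : b ∈ V
    · rw [ee_pos adj ha, ee_pos adj hb, ee_pos adj hb, ee_pos adj ha, map_smul, map_smul, map_sub,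
        map_sub, rr_comm adj (a := ⟨a, ha⟩) (c := ⟨b, hb⟩) (fun h => hne (Subtype.mk.inj h))
          (fun h => h.2 hab) (fun h => h.2 (hsymm a b hab))]
      funext A
      simp only [Pi.smul_apply, Pi.sub_apply, smul_eq_mul]
      ring
    · rw [ee_neg adj hb, ee_neg adj hb, map_zero]
  · rw [ee_neg adj ha, ee_neg adj ha, map_zero]

include hsymm in
theorem finrank_Es (s : Finset ℕ) (hs : s ⊆ V) (hadj : ∀ a ∈ s, ∀ b ∈ s, a ≠ b → adj a b) :
    Module.finrank ℝ (Es (ee V adj) s) = 2 ^ (V.card - s.card) := by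
  classical
  induction s using Finset.induction_on with
  | empty =>
    have h1 : Es (ee V adj) ∅ = ⊤ := by
      rw [eq_top_iff]
      intro x _ a ha
      exact absurd ha (notMem_empty a)
    rw [h1, finrank_top, Module.finrank_fintype_fun_eq_card, Fintype.card_finset,
      Fintype.card_coe, card_empty, Nat.sub_zero]
  | insert a s has ih =>
    have haV : a ∈ V := hs (mem_insert_self a s)
    have ih' := ih (fun x hx => hs (mem_insert_of_mem hx))
      (fun x hx y hy => hadj x (mem_insert_of_mem hx) y (mem_insert_of_mem hy))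
    have h1 := finrank_half (Es (ee V adj) s) (Es (ee V adj) (insert a s)) (rr adj ⟨a, haV⟩)
      (σl ⟨a, haV⟩) (rr_rr adj _) (σl_σl _) ?_ ?_ (rr_σl_self adj _) ?_
    · have hcard : (insert a s).card ≤ V.card := card_le_card hs
      rw [card_insert_of_notMem has] at hcard ⊢
      have h2 : V.card - s.card = (V.card - (s.card + 1)) + 1 := by omega
      rw [ih', h2, pow_succ] at h1
      omega
    · intro x hx b hb
      have hbV : b ∈ V := hs (mem_insert_of_mem hb)
      have hne : a ≠ b := fun h => has (h ▸ hb)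
      have hab := hadj a (mem_insert_self a s) b (mem_insert_of_mem hb) hne
      have h2 := hx b hb
      rw [ee_fix_iff adj hbV] at h2 ⊢
      rw [rr_comm adj (a := ⟨b, hbV⟩) (c := ⟨a, haV⟩) (fun h => hne (Subtype.mk.inj h).symm)
        (fun h => h.2 (hsymm a b hab)) (fun h => h.2 hab), h2, map_neg]
    · intro x hx b hb
      have hbV : b ∈ V := hs (mem_insert_of_mem hb)
      have hne : a ≠ b := fun h => has (h ▸ hb)
      have h2 := hx b hb
      rw [ee_fix_iff adj hbV] at h2 ⊢
      rw [rr_σl adj (a := ⟨a, haV⟩) (b := ⟨b, hbV⟩) (fun h => hne (Subtype.mk.inj h)), h2, map_neg]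
    · intro x
      constructor
      · intro hx
        exact ⟨fun b hb => hx b (mem_insert_of_mem hb),
          (ee_fix_iff adj haV x).mp (hx a (mem_insert_self a s))⟩
      · rintro ⟨h2, h3⟩ b hb
        rcases mem_insert.mp hb with rfl | hb
        · exact (ee_fix_iff adj haV x).mpr h3
        · exact h2 b hb

include hsymm in
theorem ee_iso {a b : ℕ} (ha : a ∈ V) (hb : b ∈ V) (hne : a ≠ b) (hab : ¬ adj a b)
    (m m' : Finset V → ℝ) (hm : ee V adj a m = m) (hm' : ee V adj b m' = m') :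
    ∃! g, ee V adj a g = m ∧ ee V adj b g = m' := by
  classical
  set Ea := Es (ee V adj) {a} with hEa
  set Eb := Es (ee V adj) {b} with hEb
  have hma : ∀ x, ee V adj a x ∈ Ea := by
    intro x c hc
    rw [mem_singleton] at hc
    subst hc
    exact ee_idem adj _ x
  have hmb : ∀ x, ee V adj b x ∈ Eb := by
    intro x c hc
    rw [mem_singleton] at hc
    subst hc
    exact ee_idem adj _ x
  let Φ : (Finset V → ℝ) →ₗ[ℝ] (Ea × Eb) :=
    ((ee V adj a).codRestrict Ea hma).prod ((ee V adj b).codRestrict Eb hmb)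
  have hinj : Function.Injective Φ := by
    rw [injective_iff_map_eq_zero]
    intro x hx
    have h1 : ee V adj a x = 0 := by
      have := congrArg (fun p : Ea × Eb => (p.1 : Finset V → ℝ)) hx
      exact this
    have h2 : ee V adj b x = 0 := by
      have := congrArg (fun p : Ea × Eb => (p.2 : Finset V → ℝ)) hx
      exact this
    rw [ee_zero_iff adj ha] at h1
    rw [ee_zero_iff adj hb] at h2
    rcases lt_or_gt_of_ne hne with h | h
    · exact rr_fix adj (a := ⟨a, ha⟩) (b := ⟨b, hb⟩) ⟨h, hab⟩ h1 h2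
    · exact rr_fix adj (a := ⟨b, hb⟩) (b := ⟨a, ha⟩) ⟨h, fun h' => hab (hsymm b a h')⟩ h2 h1
  have hfa : Module.finrank ℝ Ea = 2 ^ (V.card - 1) := by
    have := finrank_Es hsymm {a} (singleton_subset_iff.mpr ha) (fun x hx y hy h => by
      rw [mem_singleton] at hx hy
      exact absurd (hx.trans hy.symm) h)
    rwa [card_singleton] at this
  have hfb : Module.finrank ℝ Eb = 2 ^ (V.card - 1) := by
    have := finrank_Es hsymm {b} (singleton_subset_iff.mpr hb) (fun x hx y hy h => by
      rw [mem_singleton] at hx hy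
      exact absurd (hx.trans hy.symm) h)
    rwa [card_singleton] at this
  have hsurj : Function.Surjective Φ := by
    refine (LinearMap.injective_iff_surjective_of_finrank_eq_finrank ?_).mp hinj
    rw [Module.finrank_prod, hfa, hfb, Module.finrank_fintype_fun_eq_card, Fintype.card_finset,
      Fintype.card_coe]
    have hpos : 0 < V.card := card_pos.mpr ⟨a, ha⟩
    obtain ⟨n, hn⟩ := Nat.exists_eq_add_of_le' hpos
    rw [hn]
    simp only [Nat.add_sub_cancel]
    ring
  have hmE : m ∈ Ea := by rw [← hm]; exact hma m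
  have hmE' : m' ∈ Eb := by rw [← hm']; exact hmb m'
  obtain ⟨g, hg⟩ := hsurj (⟨m, hmE⟩, ⟨m', hmE'⟩)
  refine ⟨g, ⟨?_, ?_⟩, ?_⟩
  · exact congrArg (fun p : Ea × Eb => (p.1 : Finset V → ℝ)) hg
  · exact congrArg (fun p : Ea × Eb => (p.2 : Finset V → ℝ)) hg
  · rintro g' ⟨h1, h2⟩
    apply hinj
    rw [hg]
    exact Prod.ext (Subtype.ext h1) (Subtype.ext h2)

end B10

open B10 in
theorem itemB10 : S_B10 := by
  intro L hf
  have hsymm : ∀ a b, Adj L a b → Adj L b a := fun a b h => adj_symm h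
  refine ⟨ee (verts L) (Adj L), ⟨?_, ?_, ?_⟩, ?_⟩
  · exact fun a x => ee_idem (Adj L) a x
  · exact fun a b hab x => ee_comm hsymm hab.1 hab x
  · intro a ha b hb hne hab m m' hm hm'
    exact ee_iso hsymm ha hb hne hab m m' hm hm'
  · intro s hs
    refine finrank_Es hsymm s (fun x hx => ?_) (fun a ha b hb h => adj_of_mem hf hs ha hb h)
    rw [verts_mem_iff hf]
    exact hf.mono hs (Finset.singleton_subset_iff.mpr hx)

end RA

end MP8a95ee
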