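import Pool.Agent.Work.MP_8a95ee_gt.R.Stmts
import Pool.Agent.Work.MP_8a95ee_gt.R.Bas

/-!
# Item B6: existence of the chain map `Ψ`
-/

set_option autoImplicit false

namespace MP8a95ee

namespace RA

namespace IB6

theorem dl_dl {S M : Type} [AddCommGroup M] [Module ℝ M] {n : ℕ} (f : (Fin n → S) → M)
    (T : Fin (n + 2) → S) : dl (dl f) T = 0 := by
  unfold dl
  simp only [Finset.smul_sum]
  rw [← Finset.sum_product' (Finset.univ : Finset (Fin (n + 2)))
    (Finset.univ : Finset (Fin (n + 1)))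
    (fun i j => (-1 : ℝ) ^ (i : ℕ) • ((-1 : ℝ) ^ (j : ℕ) •
      f (fun k => T (i.succAbove (j.succAbove k)))))]
  refine Finset.sum_involution (fun p _ => (p.1.succAbove p.2, p.2.predAbove p.1)) ?_ ?_ ?_ ?_
  · rintro ⟨i, j⟩ _
    simp only [Fin.succAbove_succAbove_succAbove_predAbove]
    have h := Fin.neg_one_pow_succAbove_add_predAbove (R := ℝ) i j
    rw [smul_smul, smul_smul, ← pow_add, ← pow_add, h, ← add_smul]
    rw [add_neg_cancel, zero_smul]
  · rintro ⟨i, j⟩ _ _ h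
    exact Fin.succAbove_ne i j (Prod.ext_iff.1 h).1
  · intro _ _
    exact Finset.mem_univ _
  · rintro ⟨i, j⟩ _
    exact Prod.ext (Fin.succAbove_succAbove_predAbove _ _) (Fin.predAbove_predAbove_succAbove _ _)

theorem dl_comp {S M M' : Type} [AddCommGroup M] [Module ℝ M] [AddCommGroup M'] [Module ℝ M']
    {n : ℕ} (g : M →ₗ[ℝ] M') (f : (Fin n → S) → M) (T : Fin (n + 1) → S) :
    g (dl f T) = dl (fun T => g (f T)) T := by
  unfold dl
  rw [map_sum]
  simp only [map_smul]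

variable {L : Finset (Finset ℕ)} {N : Type} [AddCommGroup N] [Module ℝ N] {e : ℕ → N →ₗ[ℝ] N}

/-- `dD` as a linear map -/
def dDl (L : Finset (Finset ℕ)) (e : ℕ → N →ₗ[ℝ] N) :
    (Finset ℕ → Finset ℕ → N) →ₗ[ℝ] (Finset ℕ → Finset ℕ → N) where
  toFun := dD L e
  map_add' := fun x y => by
    funext s u
    simp only [dD, Pi.add_apply]
    split_ifs
    · simp only [map_add, smul_add, Finset.sum_add_distrib]
      abel
    · simp
  map_smul' := fun c x => by
    funext s u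
    simp only [dD, Pi.smul_apply, RingHom.id_apply]
    split_ifs
    · rw [smul_sub, Finset.smul_sum, Finset.smul_sum]
      simp only [map_smul]
      congr 1
      · exact Finset.sum_congr rfl fun a _ => smul_comm _ _ _
      · exact Finset.sum_congr rfl fun a _ => smul_comm _ _ _
    · simp

/-- `capU` as a linear map -/
def capl (φ : Finset ℕ → N) : (Finset ℕ → ℝ) →ₗ[ℝ] (Finset ℕ → Finset ℕ → N) where
  toFun := capU φ
  map_add' := fun x y => by
    funext s u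
    simp only [capU, Pi.add_apply]
    split_ifs
    · rw [mul_add, add_smul]
    · simp
  map_smul' := fun c x => by
    funext s u
    simp only [capU, Pi.smul_apply, RingHom.id_apply, smul_eq_mul]
    split_ifs
    · rw [smul_smul]
      congr 1
      ring
    · simp

theorem isDD_mono {X Y : Finset ℕ} (hXY : X ⊆ Y) {x : Finset ℕ → Finset ℕ → N}
    (hx : IsDD L e X x) : IsDD L e Y x := fun s u =>
  ⟨fun h => ⟨((hx s u).1 h).1, ((hx s u).1 h).2.1, ((hx s u).1 h).2.2.trans hXY⟩, (hx s u).2⟩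

theorem isDD_dl {n : ℕ} (f : (Fin n → Finset ℕ) → Finset ℕ → Finset ℕ → N)
    (T : Fin (n + 1) → Finset ℕ) (X : Finset ℕ)
    (h : ∀ i : Fin (n + 1), IsDD L e X (f fun j => T (i.succAbove j))) : IsDD L e X (dl f T) := by
  intro s u
  have h0 : dl f T s u = ∑ i : Fin (n + 1), ((-1 : ℝ) ^ (i : ℕ)) • f (fun j => T (i.succAbove j)) s u := by
    unfold dl
    rw [Finset.sum_apply, Finset.sum_apply]
    rfl
  constructor
  · intro hne
    rw [h0] at hne
    obtain ⟨i, -, hi⟩ := Finset.exists_ne_zero_of_sum_ne_zero hne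
    exact (h i s u).1 fun h' => hi (by rw [h', smul_zero])
  · rw [h0]
    exact Submodule.sum_mem _ fun i _ => Submodule.smul_mem _ _ (h i s u).2

theorem kg_face {G : Finset ℕ × Finset ℕ → Prop} {k l : ℕ} {T : Fin k → Finset ℕ}
    (h : KG L G T) (f : Fin l → Fin k) : KG L G fun j => T (f j) := by
  refine ⟨fun i => h.1 _, ?_⟩
  rcases h.2 with ⟨u, hu⟩ | ⟨p, hp, hG, hF⟩
  · exact Or.inl ⟨u, fun i => hu _⟩
  · exact Or.inr ⟨p, hp, hG, fun i => hF _⟩

theorem wt_face {k l : ℕ} (T : Fin k → Finset ℕ) (f : Fin l → Fin k) :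
    Wt (fun j => T (f j)) ⊆ Wt T := by
  intro x hx
  unfold Wt at *
  rw [Finset.mem_biUnion] at *
  obtain ⟨j, -, hj⟩ := hx
  exact ⟨f j, Finset.mem_univ _, hj⟩

open Classical in
/-- the map `Ψ` -/
noncomputable def Psi (L : Finset (Finset ℕ)) (e : ℕ → N →ₗ[ℝ] N) (φ : Finset ℕ → N)
    (ψ : ∀ k, (Fin k → Finset ℕ) → Finset ℕ → ℝ) :
    ∀ k, (Fin k → Finset ℕ) → Finset ℕ → Finset ℕ → N
  | 0, T => capU φ (ψ 0 T)
  | (k + 1), T => if KG L (TrivP L) T then capU φ (ψ (k + 1) T) else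
      if h : ∃ y, IsDD L e (Wt T) y ∧ dD L e y = dl (Psi L e φ ψ k) T then h.choose else 0

theorem psi_triv (φ : Finset ℕ → N) (ψ : ∀ k, (Fin k → Finset ℕ) → Finset ℕ → ℝ) (k : ℕ)
    (T : Fin k → Finset ℕ) (h : KG L (TrivP L) T) : Psi L e φ ψ k T = capU φ (ψ k T) := by
  cases k with
  | zero => rfl
  | succ k => rw [Psi, if_pos h]

theorem isDD_cap (h3 : S_B3) (hf : FlagC L) (he : IdemSys L N e) {φ : Finset ℕ → N}
    (hφ : IsCC L e φ) (hd : dC L e φ = 0) {ψ : ∀ k, (Fin k → Finset ℕ) → Finset ℕ → ℝ}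
    (hψ : IsPsi L ψ) {k : ℕ} {T : Fin k → Finset ℕ} (hT : KG L (TrivP L) T) :
    IsDD L e (Wt T) (capU φ (ψ k T)) ∧
      dD L e (capU φ (ψ k T)) = capU φ (bdS L (ψ k T)) :=
  h3 L hf N e he φ hφ hd (Wt T) (ψ k T) fun t ht =>
    ⟨(hψ.2.1 k T hT t ht).1, (hψ.2.1 k T hT t ht).2.1⟩

theorem step (h3 : S_B3) (h4 : S_B4) (hf : FlagC L) (he : IdemSys L N e) {φ : Finset ℕ → N}
    (hφ : IsCC L e φ) (hd : dC L e φ = 0) {ψ : ∀ k, (Fin k → Finset ℕ) → Finset ℕ → ℝ}
    (hψ : IsPsi L ψ) (k : ℕ)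
    (hP : ∀ T : Fin k → Finset ℕ, KG L (fun p => TrivP L p ∨ PairP L p) T →
      IsDD L e (Wt T) (Psi L e φ ψ k T))
    (hQ : ∀ T : Fin (k + 1) → Finset ℕ, ¬ KG L (TrivP L) T →
      KG L (fun p => TrivP L p ∨ PairP L p) T → dD L e (dl (Psi L e φ ψ k) T) = 0)
    (T : Fin (k + 1) → Finset ℕ) (hT : KG L (fun p => TrivP L p ∨ PairP L p) T) :
    IsDD L e (Wt T) (Psi L e φ ψ (k + 1) T) ∧
      dD L e (Psi L e φ ψ (k + 1) T) = dl (Psi L e φ ψ k) T := by
  by_cases hTr : KG L (TrivP L) T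
  · obtain ⟨h1, h2⟩ := isDD_cap h3 hf he hφ hd hψ hTr
    rw [psi_triv φ ψ (k + 1) T hTr]
    refine ⟨h1, ?_⟩
    rw [h2, hψ.2.2 k T hTr]
    have h5 : capU φ (∑ i : Fin (k + 1), ((-1 : ℝ) ^ (i : ℕ)) • ψ k fun j => T (i.succAbove j)) =
        ∑ i : Fin (k + 1), ((-1 : ℝ) ^ (i : ℕ)) • capU φ (ψ k fun j => T (i.succAbove j)) := by
      have := map_sum (capl φ)
        (fun i : Fin (k + 1) => ((-1 : ℝ) ^ (i : ℕ)) • ψ k fun j => T (i.succAbove j)) Finset.univ
      simp only [map_smul] at this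
      exact this
    rw [h5]
    unfold dl
    refine Finset.sum_congr rfl fun i _ => ?_
    rw [psi_triv φ ψ k _ (kg_face hTr _)]
  · have hK : ¬ InK T := fun h => hTr ⟨hT.1, Or.inl h⟩
    obtain ⟨p, hgp, hG, hF⟩ := hT.2.resolve_left hK
    have hnt : ¬ TrivP L p := fun h => hTr ⟨hT.1, Or.inr ⟨p, hgp, h, hF⟩⟩
    obtain ⟨a, b, hab, hadj, rfl⟩ := hG.resolve_left hnt
    have haW : a ∈ Wt T := by
      by_contra ha
      refine hK ⟨b, fun i => ?_⟩
      rcases (hF i).1 with h | h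
      · exact absurd (Finset.mem_biUnion.2 ⟨i, Finset.mem_univ _, h.1 (Finset.mem_singleton_self _)⟩) ha
      · exact h.1 (Finset.mem_singleton_self _)
    have hbW : b ∈ Wt T := by
      by_contra hb
      refine hK ⟨a, fun i => ?_⟩
      rcases (hF i).1 with h | h
      · exact h.1 (Finset.mem_singleton_self _)
      · exact absurd (Finset.mem_biUnion.2 ⟨i, Finset.mem_univ _, h.1 (Finset.mem_singleton_self _)⟩) hb
    have hWL : Wt T ⊆ verts L := by
      intro x hx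
      obtain ⟨i, -, hi⟩ := Finset.mem_biUnion.1 hx
      exact Finset.mem_biUnion.2 ⟨T i, (hT.1 i).1, hi⟩
    have hz : IsDD L e (Wt T) (dl (Psi L e φ ψ k) T) :=
      isDD_dl _ T _ fun i => isDD_mono (wt_face T _) (hP _ (kg_face hT _))
    have hex : ∃ y, IsDD L e (Wt T) y ∧ dD L e y = dl (Psi L e φ ψ k) T := by
      refine h4 L hf N e he (Wt T) hWL a b haW hbW hab hadj ?_ _ hz (hQ T hTr hT)
      intro c hc hca hcb
      obtain ⟨i, -, hi⟩ := Finset.mem_biUnion.1 hc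
      have := (hF i).2 c hi (by simp [hca, hcb])
      exact ⟨this a (by simp), this b (by simp)⟩
    rw [Psi, if_neg hTr, dif_pos hex]
    exact hex.choose_spec

theorem main (h3 : S_B3) (h4 : S_B4) (hf : FlagC L) (he : IdemSys L N e) {φ : Finset ℕ → N}
    (hφ : IsCC L e φ) (hd : dC L e φ = 0) {ψ : ∀ k, (Fin k → Finset ℕ) → Finset ℕ → ℝ}
    (hψ : IsPsi L ψ) (k : ℕ) :
    ∀ T : Fin (k + 1) → Finset ℕ, KG L (fun p => TrivP L p ∨ PairP L p) T →
    IsDD L e (Wt T) (Psi L e φ ψ (k + 1) T) ∧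
      dD L e (Psi L e φ ψ (k + 1) T) = dl (Psi L e φ ψ k) T := by
  induction k with
  | zero =>
    refine step h3 h4 hf he hφ hd hψ 0 ?_ ?_
    · intro T _
      have hT : KG L (TrivP L) T := ⟨fun i => i.elim0, Or.inl ⟨0, fun i => i.elim0⟩⟩
      exact (isDD_cap h3 hf he hφ hd hψ hT).1
    · intro T h1 h2
      exfalso
      obtain ⟨u, hu⟩ := (h2.1 0).2
      refine h1 ⟨h2.1, Or.inl ⟨u, fun i => ?_⟩⟩
      have hi : i = 0 := Fin.ext (by have := i.2; simp only [Fin.val_zero]; omega)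
      rw [hi]
      exact hu
  | succ k ih =>
    refine step h3 h4 hf he hφ hd hψ (k + 1) (fun T hT => (ih T hT).1) ?_
    intro T _ hT
    have h1 := dl_comp (dDl L e) (Psi L e φ ψ (k + 1)) T
    have h2 : dl (fun T => dDl L e (Psi L e φ ψ (k + 1) T)) T = dl (dl (Psi L e φ ψ k)) T := by
      unfold dl
      refine Finset.sum_congr rfl fun i _ => ?_
      congr 1
      exact (ih _ (kg_face hT _)).2
    rw [h2, dl_dl] at h1
    exact h1

end IB6

theorem itemB6 (h3 : S_B3) (h4 : S_B4) : S_B6 := by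
  intro L hf N _ _ e he φ hφ hd ψ hψ
  refine ⟨IB6.Psi L e φ ψ, IB6.psi_triv φ ψ, ?_, ?_⟩
  · intro k T hT
    cases k with
    | zero =>
      have hT' : KG L (TrivP L) T := ⟨fun i => i.elim0, Or.inl ⟨0, fun i => i.elim0⟩⟩
      exact (IB6.isDD_cap h3 hf he hφ hd hψ hT').1
    | succ k => exact (IB6.main h3 h4 hf he hφ hd hψ k T hT).1
  · intro k T hT
    exact (IB6.main h3 h4 hf he hφ hd hψ k T hT).2

end RA

end MP8a95ee
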