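import Pool.Agent.Work.MP_8a95ee_gt.R.Stmts

/-!
# Item B7a: boundary of `zetaR`
-/

namespace MP8a95ee

namespace RA

namespace B7a

/-- alternating functions -/
def AltF {n : ℕ} (c : (Fin n → ℕ) → ℝ) : Prop :=
  ∀ (s : Fin n → ℕ) (i j : Fin n), i ≠ j → c (s ∘ Equiv.swap i j) = - c s

theorem alt_perm {n : ℕ} {c : (Fin n → ℕ) → ℝ} (hc : AltF c) (σ : Equiv.Perm (Fin n)) :
    ∀ s : Fin n → ℕ, c (s ∘ σ) = ((Equiv.Perm.sign σ : ℤ) : ℝ) * c s := by
  induction σ using Equiv.Perm.swap_induction_on' with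
  | one => intro s; simp
  | mul_swap f x y hxy ih =>
    intro s
    have h : s ∘ ⇑(f * Equiv.swap x y) = (s ∘ f) ∘ Equiv.swap x y := rfl
    rw [h, hc _ x y hxy, ih, map_mul, Equiv.Perm.sign_swap hxy]
    simp

theorem alt_rotate {n : ℕ} {c : (Fin (n + 1) → ℕ) → ℝ} (hc : AltF c) (s : Fin n → ℕ) (b : ℕ) :
    c (Fin.snoc (α := fun _ => ℕ) s b) = (-1) ^ n * c (Fin.cons (α := fun _ => ℕ) b s) := by
  have h : (Fin.snoc (α := fun _ => ℕ) s b : Fin (n + 1) → ℕ) =
      (Fin.cons (α := fun _ => ℕ) b s : Fin (n + 1) → ℕ) ∘ finRotate (n + 1) := by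
    rw [Fin.snoc_eq_cons_rotate]
    rfl
  rw [h, alt_perm hc, sign_finRotate]
  simp

theorem alt_snoc {n : ℕ} {c : (Fin (n + 1) → ℕ) → ℝ} (hc : AltF c) (l : ℕ) :
    AltF fun s : Fin n → ℕ => c (Fin.snoc (α := fun _ => ℕ) s l) := by
  intro s i j hij
  have h : (Fin.snoc (α := fun _ => ℕ) (s ∘ Equiv.swap i j) l : Fin (n + 1) → ℕ) =
      (Fin.snoc (α := fun _ => ℕ) s l : Fin (n + 1) → ℕ) ∘ Equiv.swap i.castSucc j.castSucc := by
    funext k
    refine Fin.lastCases ?_ (fun k => ?_) k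
    · rw [Fin.snoc_last, Function.comp_apply, Equiv.swap_apply_of_ne_of_ne, Fin.snoc_last]
      · exact (Fin.castSucc_lt_last i).ne'
      · exact (Fin.castSucc_lt_last j).ne'
    · rw [Fin.snoc_castSucc, Function.comp_apply, Function.comp_apply]
      have h1 : Equiv.swap i.castSucc j.castSucc k.castSucc = (Equiv.swap i j k).castSucc := by
        rw [(Fin.castSucc_injective n).swap_apply]
      rw [h1, Fin.snoc_castSucc]
  show c (Fin.snoc (α := fun _ => ℕ) (s ∘ Equiv.swap i j) l) = _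
  rw [h, hc _ _ _ fun h => hij (Fin.castSucc_injective n h)]

theorem image_cons {n : ℕ} (g : Fin n → ℕ) (x : ℕ) :
    Finset.univ.image (Fin.cons (α := fun _ => ℕ) x g : Fin (n + 1) → ℕ) =
      insert x (Finset.univ.image g) := by
  ext y
  simp only [Finset.mem_image, Finset.mem_insert, Finset.mem_univ, true_and, Fin.exists_fin_succ,
    Fin.cons_zero, Fin.cons_succ]
  constructor
  · rintro (h | h)
    · exact Or.inl h.symm
    · exact Or.inr h
  · rintro (h | h)
    · exact Or.inl h.symm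
    · exact Or.inr h

theorem image_snoc {n : ℕ} (g : Fin n → ℕ) (x : ℕ) :
    Finset.univ.image (Fin.snoc (α := fun _ => ℕ) g x : Fin (n + 1) → ℕ) =
      insert x (Finset.univ.image g) := by
  ext y
  simp only [Finset.mem_image, Finset.mem_insert, Finset.mem_univ, true_and]
  constructor
  · rintro ⟨j, h⟩
    revert h
    refine Fin.lastCases (fun h => ?_) (fun j h => ?_) j
    · rw [Fin.snoc_last] at h
      exact Or.inl h.symm
    · rw [Fin.snoc_castSucc] at h
      exact Or.inr ⟨j, h⟩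
  · rintro (h | ⟨j, h⟩)
    · exact ⟨Fin.last n, by rw [Fin.snoc_last]; exact h.symm⟩
    · exact ⟨j.castSucc, by rw [Fin.snoc_castSucc]; exact h⟩

theorem flips_insert {n : ℕ} (g : Fin n → ℕ) (x : ℕ) (hx : x ∉ Finset.univ.image g)
    (B : Finset ℕ) (k : Fin (n + 1)) : flips (insert x B) g k = insert x (flips B g k) := by
  unfold flips
  have h : x ∉ (Finset.univ.filter fun j : Fin n => (j : ℕ) < (k : ℕ)).image g := by
    intro h
    refine hx ?_
    rw [Finset.mem_image] at h ⊢
    obtain ⟨j, _, h⟩ := h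
    exact ⟨j, Finset.mem_univ _, h⟩
  ext y
  by_cases hy : y = x
  · subst hy
    simp only [Finset.mem_symmDiff, Finset.mem_insert, true_or, h, not_false_eq_true, and_self,
      false_and, or_false]
  · simp only [Finset.mem_symmDiff, Finset.mem_insert, hy, false_or]

section sums

variable {M : Type*} [AddCommGroup M] [Module ℝ M]

/-- a face -/
noncomputable def fc (V : Finset ℕ) {n : ℕ} (c : (Fin (n + 1) → ℕ) → ℝ)
    (Ψ : (Fin (n + 1) → Finset ℕ) → M) (i : Fin (n + 2)) : M :=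
  ∑ s ∈ Fintype.piFinset (fun _ : Fin (n + 1) => V), ∑ B ∈ (Finset.univ.image s).powerset,
    (c s * (-1 : ℝ) ^ B.card) • Ψ (fun k => flips B s (i.succAbove k))

/-- the common value of the outer faces -/
noncomputable def wc (V : Finset ℕ) {n : ℕ} (c : (Fin (n + 1) → ℕ) → ℝ)
    (Ψ : (Fin (n + 1) → Finset ℕ) → M) : M :=
  ∑ g ∈ Fintype.piFinset (fun _ : Fin n => V), ∑ x ∈ V,
    (c (Fin.cons (α := fun _ => ℕ) x g)) • ∑ B ∈ (insert x (Finset.univ.image g)).powerset,
      ((-1 : ℝ) ^ B.card) • Ψ (flips B g)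

theorem fc_zero (V : Finset ℕ) {n : ℕ} (c : (Fin (n + 1) → ℕ) → ℝ)
    (hi : ∀ s, c s ≠ 0 → Function.Injective s) (Ψ : (Fin (n + 1) → Finset ℕ) → M) :
    fc V c Ψ 0 = - wc V c Ψ := by
  unfold fc wc
  rw [B5.sum_cons, ← Finset.sum_neg_distrib]
  refine Finset.sum_congr rfl fun g _ => ?_
  rw [← Finset.sum_neg_distrib]
  refine Finset.sum_congr rfl fun x _ => ?_
  by_cases h0 : c (Fin.cons (α := fun _ => ℕ) x g) = 0
  · rw [h0, zero_smul, neg_zero]
    refine Finset.sum_eq_zero fun B _ => ?_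
    rw [zero_mul, zero_smul]
  · have hinj := hi _ h0
    have h1 := B5.sum_shift (insert x (Finset.univ.image g)) x (Finset.mem_insert_self _ _)
      (fun B => Ψ (flips B g))
    rw [← smul_neg, ← h1, Finset.smul_sum, image_cons]
    refine Finset.sum_congr rfl fun B _ => ?_
    rw [smul_smul]
    congr 2
    funext k
    rw [Fin.zero_succAbove, B5.flips_succ _ _ hinj, Fin.cons_zero, Fin.tail_cons]

theorem fc_last (V : Finset ℕ) {n : ℕ} (c : (Fin (n + 1) → ℕ) → ℝ) (hc : AltF c)
    (Ψ : (Fin (n + 1) → Finset ℕ) → M) :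
    fc V c Ψ (Fin.last (n + 1)) = ((-1 : ℝ) ^ n) • wc V c Ψ := by
  unfold fc wc
  rw [B5.sum_snoc, Finset.smul_sum]
  refine Finset.sum_congr rfl fun g _ => ?_
  rw [Finset.smul_sum]
  refine Finset.sum_congr rfl fun x _ => ?_
  rw [image_snoc, Finset.smul_sum, Finset.smul_sum]
  refine Finset.sum_congr rfl fun B _ => ?_
  rw [smul_smul, smul_smul, alt_rotate hc]
  congr 2
  funext k
  rw [Fin.succAbove_last, B5.flips_castSucc, Fin.init_snoc]

theorem fc_mid (V : Finset ℕ) {n : ℕ} (c : (Fin (n + 1) → ℕ) → ℝ) (hc : AltF c)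
    (Ψ : (Fin (n + 1) → Finset ℕ) → M) (i : Fin n) : fc V c Ψ i.castSucc.succ = 0 := by
  set p : Fin (n + 1) := i.castSucc with hp
  set q : Fin (n + 1) := i.succ with hq
  have hpq : (q : ℕ) = (p : ℕ) + 1 := by rw [hp, hq, Fin.val_succ, Fin.val_castSucc]
  have hne : p ≠ q := by
    intro h
    rw [h] at hpq
    omega
  have key : fc V c Ψ p.succ = - fc V c Ψ p.succ := by
    unfold fc
    rw [← Finset.sum_neg_distrib]
    refine Finset.sum_bij' (fun s _ => s ∘ Equiv.swap p q) (fun s _ => s ∘ Equiv.swap p q)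
      ?_ ?_ ?_ ?_ ?_
    · intro s hs
      rw [Fintype.mem_piFinset] at hs ⊢
      exact fun j => hs _
    · intro s hs
      rw [Fintype.mem_piFinset] at hs ⊢
      exact fun j => hs _
    · intro s _
      funext j
      simp
    · intro s _
      funext j
      simp
    · intro s _
      have h2 : Finset.univ.image (s ∘ Equiv.swap p q) = Finset.univ.image s := by
        rw [← Finset.image_image]
        congr 1
        exact Finset.image_univ_equiv _
      rw [h2, ← Finset.sum_neg_distrib]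
      refine Finset.sum_congr rfl fun B _ => ?_
      have h3 : (fun k => flips B (s ∘ Equiv.swap p q) (p.succ.succAbove k)) =
          fun k => flips B s (p.succ.succAbove k) := by
        funext k
        refine B5.flips_swap B s p q hpq _ ?_
        intro h
        refine Fin.succAbove_ne p.succ k (Fin.ext ?_)
        rw [h, hpq, Fin.val_succ]
      rw [h3, hc s p q hne, neg_mul, neg_smul, neg_neg]
  have h2 : (2 : ℝ) • fc V c Ψ p.succ = 0 := by
    rw [two_smul]
    nth_rewrite 1 [key]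
    exact neg_add_cancel _
  exact (smul_eq_zero.1 h2).resolve_left two_ne_zero

theorem fc_sum (V : Finset ℕ) {n : ℕ} (c : (Fin (n + 1) → ℕ) → ℝ) (hc : AltF c)
    (hi : ∀ s, c s ≠ 0 → Function.Injective s) (Ψ : (Fin (n + 1) → Finset ℕ) → M) :
    ∑ i : Fin (n + 2), ((-1 : ℝ) ^ (i : ℕ)) • fc V c Ψ i = (-2 : ℝ) • wc V c Ψ := by
  rw [Fin.sum_univ_succ, Fin.sum_univ_castSucc]
  have h1 : ∀ i : Fin n, ((-1 : ℝ) ^ (i.castSucc.succ : ℕ)) • fc V c Ψ i.castSucc.succ = 0 := by
    intro i
    rw [fc_mid V c hc, smul_zero]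
  rw [Finset.sum_eq_zero fun i _ => h1 i, zero_add, fc_zero V c hi, Fin.succ_last, fc_last V c hc,
    smul_smul, Fin.val_zero, pow_zero, one_smul, Fin.val_last]
  have h2 : (-1 : ℝ) ^ (n + 1) * (-1) ^ n = -1 := by
    rw [← pow_add, show n + 1 + n = 2 * n + 1 by ring, pow_succ, pow_mul]
    norm_num
  rw [h2, neg_one_smul, neg_smul, two_smul, neg_add]

/-- splitting of the outer faces -/
theorem wc_split (V : Finset ℕ) {n : ℕ} (c : (Fin (n + 1) → ℕ) → ℝ)
    (hi : ∀ s, c s ≠ 0 → Function.Injective s) (Ψ : (Fin (n + 1) → Finset ℕ) → M) :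
    wc V c Ψ = (∑ g ∈ Fintype.piFinset (fun _ : Fin n => V), ∑ x ∈ V,
      ∑ B ∈ (Finset.univ.image g).powerset,
        (c (Fin.cons (α := fun _ => ℕ) x g) * (-1 : ℝ) ^ B.card) • Ψ (flips B g)) -
      ∑ g ∈ Fintype.piFinset (fun _ : Fin n => V), ∑ x ∈ V,
      ∑ B ∈ (Finset.univ.image g).powerset,
        (c (Fin.cons (α := fun _ => ℕ) x g) * (-1 : ℝ) ^ B.card) •
          Ψ (fun k => insert x (flips B g k)) := by
  unfold wc
  rw [← Finset.sum_sub_distrib]
  refine Finset.sum_congr rfl fun g _ => ?_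
  rw [← Finset.sum_sub_distrib]
  refine Finset.sum_congr rfl fun x _ => ?_
  rw [← Finset.sum_sub_distrib]
  by_cases h0 : c (Fin.cons (α := fun _ => ℕ) x g) = 0
  · rw [h0, zero_smul]
    symm
    refine Finset.sum_eq_zero fun B _ => ?_
    rw [zero_mul, zero_smul, zero_smul, sub_zero]
  · have hinj := hi _ h0
    have hx : x ∉ Finset.univ.image g := by
      intro h
      rw [Finset.mem_image] at h
      obtain ⟨j, _, h⟩ := h
      have h1 : (Fin.cons (α := fun _ => ℕ) x g : Fin (n + 1) → ℕ) j.succ =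
          (Fin.cons (α := fun _ => ℕ) x g : Fin (n + 1) → ℕ) 0 := by
        rw [Fin.cons_succ, Fin.cons_zero, h]
      exact Fin.succ_ne_zero j (hinj h1)
    rw [Finset.sum_powerset_insert hx, ← Finset.sum_add_distrib, Finset.smul_sum]
    refine Finset.sum_congr rfl fun B hB => ?_
    have hxB : x ∉ B := fun h => hx (Finset.mem_powerset.1 hB h)
    have h2 : flips (insert x B) g = fun k => insert x (flips B g k) := by
      funext k
      exact flips_insert g x hx B k
    rw [h2, Finset.card_insert_of_notMem hxB, pow_succ, smul_add, smul_smul, smul_smul, sub_eq_add_neg,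
      ← neg_smul]
    congr 2
    ring

end sums

theorem zt_snoc {m : ℕ} (s : Fin m → ℕ) (l : ℕ) (B : Finset ℕ) :
    zt (Fin.snoc (α := fun _ => ℕ) s l : Fin (m + 1) → ℕ) B = fun j => insert l (flips B s j) := by
  funext j
  unfold zt flips
  rw [Fin.snoc_last]
  congr 2
  ext x
  simp only [Finset.mem_image, Finset.mem_filter, Finset.mem_univ, true_and, Fin.snoc_castSucc]

theorem image_castSucc_snoc {m : ℕ} (s : Fin m → ℕ) (l : ℕ) :
    (Finset.univ.image fun i : Fin m => (Fin.snoc (α := fun _ => ℕ) s l : Fin (m + 1) → ℕ)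
      i.castSucc) = Finset.univ.image s := by
  ext x
  simp only [Finset.mem_image, Finset.mem_univ, true_and, Fin.snoc_castSucc]

theorem bdT_single {S : Type} {k : ℕ} (T : Fin (k + 1) → S) (r : ℝ) :
    bdT (Finsupp.single T r) = ∑ i : Fin (k + 1), ((-1 : ℝ) ^ (i : ℕ)) • (r •
      Finsupp.single (fun j => T (i.succAbove j)) (1 : ℝ)) := by
  unfold bdT
  rw [Finsupp.linearCombination_single]
  unfold bdT0
  rw [Finset.smul_sum]
  refine Finset.sum_congr rfl fun i _ => ?_
  rw [Finsupp.smul_single, Finsupp.smul_single, Finsupp.smul_single, smul_eq_mul, smul_eq_mul,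
    smul_eq_mul, mul_one, mul_comm]

end B7a

open B7a in
theorem itemB7a : S_B7a := by
  intro V m c hc
  have hA : AltF c := hc.1
  have hI : ∀ l, ∀ s : Fin (m + 1) → ℕ, c (Fin.snoc (α := fun _ => ℕ) s l) ≠ 0 →
      Function.Injective s := by
    intro l s h i j hij
    have h1 := (hc.2 _ h).1
    have h2 : (Fin.snoc (α := fun _ => ℕ) s l : Fin (m + 2) → ℕ) i.castSucc =
        (Fin.snoc (α := fun _ => ℕ) s l : Fin (m + 2) → ℕ) j.castSucc := by
      rw [Fin.snoc_castSucc, Fin.snoc_castSucc, hij]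
    exact Fin.castSucc_injective _ (h1 h2)
  let Ψ : ℕ → (Fin (m + 1) → Finset ℕ) → Ch (Finset ℕ) (m + 1) :=
    fun l T => Finsupp.single (fun j => insert l (T j)) (1 : ℝ)
  -- the left side
  have hL : bdT (zetaR V c) = ∑ l ∈ V, ∑ i : Fin (m + 2), ((-1 : ℝ) ^ (i : ℕ)) •
      fc V (fun s => c (Fin.snoc (α := fun _ => ℕ) s l)) (Ψ l) i := by
    unfold zetaR
    rw [B5.sum_snoc, Finset.sum_comm, map_sum]
    refine Finset.sum_congr rfl fun l _ => ?_
    unfold fc
    simp_rw [Finset.smul_sum]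
    rw [Finset.sum_comm, map_sum]
    refine Finset.sum_congr rfl fun s _ => ?_
    rw [Finset.sum_comm, map_sum, image_castSucc_snoc]
    refine Finset.sum_congr rfl fun B _ => ?_
    rw [bdT_single, zt_snoc]
  rw [hL]
  have hS : ∀ l, ∑ i : Fin (m + 2), ((-1 : ℝ) ^ (i : ℕ)) •
      fc V (fun s => c (Fin.snoc (α := fun _ => ℕ) s l)) (Ψ l) i =
      (-2 : ℝ) • wc V (fun s => c (Fin.snoc (α := fun _ => ℕ) s l)) (Ψ l) := by
    intro l
    exact fc_sum V _ (alt_snoc hA l) (hI l) (Ψ l)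
  rw [Finset.sum_congr rfl fun l _ => hS l, ← Finset.smul_sum]
  congr 1
  rw [Finset.sum_congr rfl fun l _ => wc_split V _ (hI l) (Ψ l), Finset.sum_sub_distrib]
  have hZ : ∑ l ∈ V, ∑ g ∈ Fintype.piFinset (fun _ : Fin m => V), ∑ x ∈ V,
      ∑ B ∈ (Finset.univ.image g).powerset,
        (c (Fin.snoc (α := fun _ => ℕ) (Fin.cons (α := fun _ => ℕ) x g) l) *
          (-1 : ℝ) ^ B.card) • Ψ l (fun k => insert x (flips B g k)) = 0 := by
    rw [Finset.sum_comm]
    refine Finset.sum_eq_zero fun g _ => ?_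
    have key : ∑ l ∈ V, ∑ x ∈ V, ∑ B ∈ (Finset.univ.image g).powerset,
        (c (Fin.snoc (α := fun _ => ℕ) (Fin.cons (α := fun _ => ℕ) x g) l) *
          (-1 : ℝ) ^ B.card) • Ψ l (fun k => insert x (flips B g k)) =
        - ∑ l ∈ V, ∑ x ∈ V, ∑ B ∈ (Finset.univ.image g).powerset,
        (c (Fin.snoc (α := fun _ => ℕ) (Fin.cons (α := fun _ => ℕ) x g) l) *
          (-1 : ℝ) ^ B.card) • Ψ l (fun k => insert x (flips B g k)) := by
      conv_lhs => rw [Finset.sum_comm]
      rw [← Finset.sum_neg_distrib]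
      refine Finset.sum_congr rfl fun x _ => ?_
      rw [← Finset.sum_neg_distrib]
      refine Finset.sum_congr rfl fun l _ => ?_
      rw [← Finset.sum_neg_distrib]
      refine Finset.sum_congr rfl fun B _ => ?_
      have h1 : c (Fin.snoc (α := fun _ => ℕ) (Fin.cons (α := fun _ => ℕ) x g) l) =
          - c (Fin.snoc (α := fun _ => ℕ) (Fin.cons (α := fun _ => ℕ) l g) x) := by
        have h2 : (Fin.snoc (α := fun _ => ℕ) (Fin.cons (α := fun _ => ℕ) x g) l : Fin (m + 2) → ℕ) =
            (Fin.snoc (α := fun _ => ℕ) (Fin.cons (α := fun _ => ℕ) l g) x : Fin (m + 2) → ℕ) ∘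
              Equiv.swap 0 (Fin.last (m + 1)) := by
          funext k
          refine Fin.lastCases ?_ (fun k => ?_) k
          · rw [Fin.snoc_last, Function.comp_apply, Equiv.swap_apply_right, ← Fin.castSucc_zero,
              Fin.snoc_castSucc, Fin.cons_zero]
          · refine Fin.cases ?_ (fun k => ?_) k
            · rw [Fin.snoc_castSucc, Fin.cons_zero, Function.comp_apply, Fin.castSucc_zero,
                Equiv.swap_apply_left, Fin.snoc_last]
            · rw [Fin.snoc_castSucc, Fin.cons_succ, Function.comp_apply,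
                Equiv.swap_apply_of_ne_of_ne, Fin.snoc_castSucc, Fin.cons_succ]
              · intro h
                exact Fin.succ_ne_zero k (Fin.castSucc_injective _ h)
              · exact (Fin.castSucc_lt_last _).ne
        rw [h2, hA _ _ _ (Fin.last_pos' (n := m + 1)).ne]
      have h3 : Ψ l (fun k => insert x (flips B g k)) = Ψ x (fun k => insert l (flips B g k)) := by
        show Finsupp.single _ _ = Finsupp.single _ _
        congr 1
        funext k
        exact Finset.insert_comm _ _ _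
      rw [h1, h3, neg_mul, neg_smul]
    have h2 : (2 : ℝ) • ∑ l ∈ V, ∑ x ∈ V, ∑ B ∈ (Finset.univ.image g).powerset,
        (c (Fin.snoc (α := fun _ => ℕ) (Fin.cons (α := fun _ => ℕ) x g) l) *
          (-1 : ℝ) ^ B.card) • Ψ l (fun k => insert x (flips B g k)) = 0 := by
      rw [two_smul]
      nth_rewrite 1 [key]
      exact neg_add_cancel _
    exact (smul_eq_zero.1 h2).resolve_left two_ne_zero
  rw [hZ, sub_zero]
  unfold zetaR
  rw [B5.sum_snoc, Finset.sum_comm]
  refine Finset.sum_congr rfl fun g _ => ?_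
  refine Finset.sum_congr rfl fun l _ => ?_
  rw [image_castSucc_snoc, Finset.sum_comm]
  refine Finset.sum_congr rfl fun B _ => ?_
  rw [zt_snoc, Finset.sum_mul]
  have h4 : ∀ x, (Fin.cons (α := fun _ => ℕ) x (Fin.snoc (α := fun _ => ℕ) g l) : Fin (m + 2) → ℕ) =
      Fin.snoc (α := fun _ => ℕ) (Fin.cons (α := fun _ => ℕ) x g) l :=
    fun x => Fin.cons_snoc_eq_snoc_cons x g l
  simp_rw [h4]
  rw [← Finset.sum_smul]
  show _ • Finsupp.single _ _ = _
  rw [Finsupp.smul_single, smul_eq_mul, mul_one]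

end RA

end MP8a95ee
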