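import Pool.Agent.Work.MP_8a95ee_gt.R.Stmts

namespace MP8a95ee

namespace RA

namespace B9

variable {L : Finset (Finset ℕ)} {N : Type} [AddCommGroup N] [Module ℝ N]
  {e : ℕ → N →ₗ[ℝ] N}

/-- `dD` as a linear map -/
noncomputable def dDl (L : Finset (Finset ℕ)) (e : ℕ → N →ₗ[ℝ] N) :
    (Finset ℕ → Finset ℕ → N) →ₗ[ℝ] (Finset ℕ → Finset ℕ → N) where
  toFun := dD L e
  map_add' := fun x y => by
    funext s u
    simp only [dD, Pi.add_apply, map_add, smul_add, Finset.sum_add_distrib]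
    split_ifs
    · abel
    · simp
  map_smul' := fun c x => by
    funext s u
    simp only [dD, Pi.smul_apply, map_smul, RingHom.id_apply]
    split_ifs
    · rw [smul_sub, Finset.smul_sum, Finset.smul_sum]
      congr 1
      · exact Finset.sum_congr rfl fun a _ => smul_comm _ _ _
      · exact Finset.sum_congr rfl fun a _ => smul_comm _ _ _
    · simp

/-- `capU` as a linear map in the chain -/
noncomputable def capl (φ : Finset ℕ → N) :
    (Finset ℕ → ℝ) →ₗ[ℝ] (Finset ℕ → Finset ℕ → N) where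
  toFun := capU φ
  map_add' := fun x y => by
    funext s u
    simp only [capU, Pi.add_apply]
    split_ifs
    · rw [mul_add, add_smul]
    · simp
  map_smul' := fun c x => by
    funext s u
    simp only [capU, Pi.smul_apply, smul_eq_mul, RingHom.id_apply]
    split_ifs
    · rw [smul_smul]
      congr 1
      ring
    · simp

theorem isDD_zero (X : Finset ℕ) : IsDD L e X (0 : Finset ℕ → Finset ℕ → N) :=
  fun s u => ⟨fun h => absurd rfl h, (Es e s).zero_mem⟩

theorem isDD_add {X : Finset ℕ} {x y : Finset ℕ → Finset ℕ → N} (hx : IsDD L e X x)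
    (hy : IsDD L e X y) : IsDD L e X (x + y) := by
  intro s u
  refine ⟨fun h => ?_, (Es e s).add_mem (hx s u).2 (hy s u).2⟩
  by_cases h1 : x s u = 0
  · by_cases h2 : y s u = 0
    · exact absurd (by simp [h1, h2]) h
    · exact (hy s u).1 h2
  · exact (hx s u).1 h1

theorem isDD_smul {X : Finset ℕ} {x : Finset ℕ → Finset ℕ → N} (c : ℝ) (hx : IsDD L e X x) :
    IsDD L e X (c • x) := by
  intro s u
  refine ⟨fun h => (hx s u).1 fun h1 => h (by simp [h1]), (Es e s).smul_mem c (hx s u).2⟩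

theorem isDD_mono {X Y : Finset ℕ} (hXY : X ⊆ Y) {x : Finset ℕ → Finset ℕ → N}
    (hx : IsDD L e X x) : IsDD L e Y x :=
  fun s u => ⟨fun h => ⟨((hx s u).1 h).1, ((hx s u).1 h).2.1, ((hx s u).1 h).2.2.trans hXY⟩,
    (hx s u).2⟩

theorem lin_bdT0 {S M : Type} [AddCommGroup M] [Module ℝ M] {k : ℕ} (f : (Fin k → S) → M)
    (T : Fin (k + 1) → S) : Finsupp.linearCombination ℝ f (bdT0 T) =
      ∑ i : Fin (k + 1), ((-1 : ℝ) ^ (i : ℕ)) • f fun j => T (i.succAbove j) := by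
  simp only [bdT0, map_sum, Finsupp.linearCombination_single]

theorem lin_bdT {S M : Type} [AddCommGroup M] [Module ℝ M] {k : ℕ} (f : (Fin k → S) → M)
    (b : Ch S (k + 1)) : Finsupp.linearCombination ℝ f (bdT b) =
      b.sum fun T c => c • ∑ i : Fin (k + 1), ((-1 : ℝ) ^ (i : ℕ)) • f fun j => T (i.succAbove j) := by
  rw [bdT, Finsupp.linearCombination_apply ℝ b, map_finsuppSum]
  refine Finsupp.sum_congr fun T _ => ?_
  rw [map_smul, lin_bdT0]

theorem verts_of {L : Finset (Finset ℕ)} {k : ℕ} {T : Fin k → Finset ℕ} (h : ∀ i, T i ∈ L) :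
    Wt T ⊆ verts L := by
  intro x hx
  obtain ⟨i, -, hi⟩ := Finset.mem_biUnion.1 hx
  exact Finset.mem_biUnion.2 ⟨T i, h i, hi⟩

theorem kg_zt {L : Finset (Finset ℕ)} (hf : FlagC L) {m : ℕ} {s : Fin (m + 1) → ℕ}
    (hs : Finset.univ.image s ∈ L) {B : Finset ℕ}
    (hB : B ⊆ Finset.univ.image fun i : Fin m => s i.castSucc)
    (G : Finset ℕ × Finset ℕ → Prop) : KG L G (zt s B) := by
  refine ⟨fun j => ⟨?_, ⟨s (Fin.last m), Finset.mem_insert_self _ _⟩⟩,
    Or.inl ⟨s (Fin.last m), fun j => Finset.mem_insert_self _ _⟩⟩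
  have hsub : zt s B j ⊆ Finset.univ.image s := by
    intro x hx
    rcases Finset.mem_insert.1 hx with h | h
    · exact Finset.mem_image.2 ⟨Fin.last m, Finset.mem_univ _, h.symm⟩
    · rcases Finset.mem_symmDiff.1 h with ⟨h, -⟩ | ⟨h, -⟩
      · obtain ⟨i, -, hi⟩ := Finset.mem_image.1 (hB h)
        exact Finset.mem_image.2 ⟨i.castSucc, Finset.mem_univ _, hi⟩
      · obtain ⟨i, -, hi⟩ := Finset.mem_image.1 h
        exact Finset.mem_image.2 ⟨i.castSucc, Finset.mem_univ _, hi⟩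
  exact (hf _).2 fun x hx y hy => (hf _).1 hs x (hsub hx) y (hsub hy)

end B9

theorem itemB9 (h5 : S_B5) (h6 : S_B6) (h7 : S_B7) (h8 : S_B8) : S_B9 := by
  intro L hf m hS o ho hB N _ _ e he φ hφ hd
  obtain ⟨ψ, hψ⟩ := h5 L hf
  obtain ⟨Ψ, hΨ1, hΨ2, hΨ3⟩ := h6 L hf N e he φ hφ hd ψ hψ
  obtain ⟨b, hb, hbd⟩ := hB
  set x : Finset ℕ → Finset ℕ → N := Finsupp.linearCombination ℝ (Ψ (m + 2)) b with hx
  have hxD : IsDD L e (verts L) x := by
    rw [hx, Finsupp.linearCombination_apply]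
    refine Finset.sum_induction _ (fun y => IsDD L e (verts L) y) (fun _ _ => B9.isDD_add)
      (B9.isDD_zero _) fun T hT => ?_
    refine B9.isDD_smul _ (B9.isDD_mono (B9.verts_of fun i => ((hb T hT).1 i).1)
      (hΨ2 _ T (hb T hT)))
  have hdx : dD L e x = capU φ ((-2 : ℝ) ^ m • oF o) := by
    have e1 : dD L e x = Finsupp.linearCombination ℝ (Ψ (m + 1)) (bdT b) := by
      rw [B9.lin_bdT, hx]
      change B9.dDl L e (Finsupp.linearCombination ℝ (Ψ (m + 2)) b) = _
      rw [Finsupp.linearCombination_apply, map_finsuppSum]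
      refine Finsupp.sum_congr fun T hT => ?_
      rw [map_smul]
      congr 1
      exact hΨ3 _ T (hb T hT)
    rw [e1, hbd, ← h7 L hf m o ho ψ hψ]
    change _ = B9.capl φ _
    simp only [zeta, map_sum, Finsupp.linearCombination_single, map_smul]
    refine Finset.sum_congr rfl fun s _ => Finset.sum_congr rfl fun B hB => ?_
    by_cases hos : o s = 0
    · simp [hos]
    · congr 1
      exact hΨ1 _ _ (B9.kg_zt hf (ho.2.1 s hos) (Finset.mem_powerset.1 hB) _)
  have hne : ((-2 : ℝ) ^ m) ≠ 0 := pow_ne_zero _ (by norm_num)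
  refine h8 L hf (m + 1) hS o ho N e he φ hφ hd (((-2 : ℝ) ^ m)⁻¹ • x)
    (B9.isDD_smul _ hxD) ?_
  change B9.dDl L e (((-2 : ℝ) ^ m)⁻¹ • x) = B9.capl φ (oF o)
  rw [map_smul]
  change ((-2 : ℝ) ^ m)⁻¹ • dD L e x = _
  rw [hdx]
  change ((-2 : ℝ) ^ m)⁻¹ • B9.capl φ ((-2 : ℝ) ^ m • oF o) = _
  rw [map_smul, smul_smul, inv_mul_cancel₀ hne, one_smul]

end RA

end MP8a95ee
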