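import Pool.Agent.Work.MP_8a95ee_gt.R.Stmts
import Pool.Agent.Work.MP_8a95ee_gt.Bd.B01

/-!
# P11: the combinatorial identity
-/

namespace MP8a95ee

namespace RA

namespace P11

open Finset

variable {L : Finset (Finset ℕ)} {m : ℕ} {o : (Fin (m + 1) → ℕ) → ℤ}

theorem o_perm (ho : IsOrient L (m + 1) o) (σ : Equiv.Perm (Fin (m + 1))) :
    ∀ s : Fin (m + 1) → ℕ, o (s ∘ σ) = (Equiv.Perm.sign σ : ℤ) * o s := by
  induction σ using Equiv.Perm.swap_induction_on with
  | one => intro s; simp
  | swap_mul f x y hxy ih =>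
    intro s
    have h1 : s ∘ ⇑(Equiv.swap x y * f) = (s ∘ Equiv.swap x y) ∘ f := by
      funext j
      simp
    rw [h1, ih, ho.1 s x y hxy, Equiv.Perm.sign_mul, Equiv.Perm.sign_swap hxy]
    simp

/-- the sum over corners -/
noncomputable def G (f : (Fin (m + 1) → Finset ℕ) → ℝ) (V : Finset ℕ) (u : Fin m → ℕ) : ℝ :=
  ∑ A ∈ V.powerset, (-1 : ℝ) ^ A.card * f (flips A u)

/-- the face opposite to the last vertex -/
noncomputable def X (L : Finset (Finset ℕ)) (o : (Fin (m + 1) → ℕ) → ℤ)
    (f : (Fin (m + 1) → Finset ℕ) → ℝ) : ℝ :=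
  ∑ s ∈ Fintype.piFinset (fun _ : Fin (m + 1) => verts L),
    (o s : ℝ) * G f (univ.image s) (Fin.init s)

/-- the faces -/
noncomputable def S (L : Finset (Finset ℕ)) (o : (Fin (m + 1) → ℕ) → ℤ)
    (f : (Fin (m + 1) → Finset ℕ) → ℝ) (i : Fin (m + 2)) : ℝ :=
  ∑ s ∈ Fintype.piFinset (fun _ : Fin (m + 1) => verts L),
    (o s : ℝ) * ∑ A ∈ (univ.image s).powerset, (-1 : ℝ) ^ A.card *
      f (fun j => flips A s (i.succAbove j))

theorem S_last (f : (Fin (m + 1) → Finset ℕ) → ℝ) : S L o f (Fin.last (m + 1)) = X L o f := by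
  unfold S X G
  refine sum_congr rfl fun s _ => ?_
  congr 1
  refine sum_congr rfl fun A _ => ?_
  congr 2
  funext k
  rw [Fin.succAbove_last]
  exact B5.flips_castSucc A s k

theorem S_zero (ho : IsOrient L (m + 1) o) (f : (Fin (m + 1) → Finset ℕ) → ℝ) :
    S L o f 0 = - (-1) ^ m * X L o f := by
  have h1 : ∀ s : Fin (m + 1) → ℕ,
      (o s : ℝ) * ∑ A ∈ (univ.image s).powerset, (-1 : ℝ) ^ A.card *
        f (fun j => flips A s (Fin.succAbove 0 j)) =
      - ((o s : ℝ) * G f (univ.image s) (Fin.tail s)) := by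
    intro s
    by_cases hs : Function.Injective s
    · have h2 := B5.sum_shift (univ.image s) (s 0) (mem_image_of_mem _ (mem_univ _))
        (fun A => f (flips A (Fin.tail s)))
      simp only [smul_eq_mul] at h2
      unfold G
      rw [← mul_neg, ← h2]
      congr 1
      refine sum_congr rfl fun A _ => ?_
      congr 2
      funext k
      rw [Fin.zero_succAbove]
      exact B5.flips_succ A s hs k
    · rw [B5.o_eq_zero ho hs]
      simp
  unfold S X
  rw [sum_congr rfl fun s _ => h1 s, sum_neg_distrib, neg_mul, mul_sum, neg_inj]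
  refine sum_bij' (fun s _ => s ∘ finRotate (m + 1)) (fun s _ => s ∘ (finRotate (m + 1)).symm)
    ?_ ?_ ?_ ?_ ?_
  · intro s hs
    rw [Fintype.mem_piFinset] at hs ⊢
    exact fun j => hs _
  · intro s hs
    rw [Fintype.mem_piFinset] at hs ⊢
    exact fun j => hs _
  · intro s _
    funext j
    simp
  · intro s _
    funext j
    simp
  · intro s _
    have h3 : univ.image (s ∘ finRotate (m + 1)) = univ.image s := by
      ext x
      simp only [mem_image, mem_univ, true_and, Function.comp]
      constructor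
      · rintro ⟨j, hj⟩
        exact ⟨_, hj⟩
      · rintro ⟨j, hj⟩
        exact ⟨(finRotate (m + 1)).symm j, by simpa using hj⟩
    have h4 : Fin.init (s ∘ finRotate (m + 1)) = Fin.tail s := by
      funext j
      simp [Fin.init, Fin.tail]
    have h5 : ((-1 : ℝ) ^ m) * (-1) ^ m = 1 := by
      rw [← mul_pow]; simp
    rw [h3, h4, o_perm ho, sign_finRotate]
    push_cast
    rw [← mul_assoc, ← mul_assoc, h5, one_mul]

theorem S_mid (ho : IsOrient L (m + 1) o) (f : (Fin (m + 1) → Finset ℕ) → ℝ)
    (i : Fin (m + 2)) (p q : Fin (m + 1)) (hpq : (q : ℕ) = (p : ℕ) + 1) (hi : (i : ℕ) = (q : ℕ)) :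
    S L o f i = 0 := by
  have hne : p ≠ q := by
    intro h
    rw [h] at hpq
    omega
  have key : S L o f i = - S L o f i := by
    unfold S
    rw [← sum_neg_distrib]
    refine sum_bij' (fun s _ => s ∘ Equiv.swap p q) (fun s _ => s ∘ Equiv.swap p q)
      ?_ ?_ ?_ ?_ ?_
    · intro s hs
      rw [Fintype.mem_piFinset] at hs ⊢
      exact fun j => hs _
    · intro s hs
      rw [Fintype.mem_piFinset] at hs ⊢
      exact fun j => hs _
    · intro s _
      funext j
      simp
    · intro s _
      funext j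
      simp
    · intro s _
      have h3 : univ.image (s ∘ Equiv.swap p q) = univ.image s := by
        ext x
        simp only [mem_image, mem_univ, true_and, Function.comp]
        constructor
        · rintro ⟨j, hj⟩
          exact ⟨_, hj⟩
        · rintro ⟨j, hj⟩
          exact ⟨Equiv.swap p q j, by simpa using hj⟩
      have h1 : ∀ A, (fun k => flips A (s ∘ Equiv.swap p q) (i.succAbove k)) =
          fun k => flips A s (i.succAbove k) := by
        intro A
        funext k
        refine B5.flips_swap A s p q hpq _ ?_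
        intro h
        exact Fin.succAbove_ne i k (Fin.ext (h.trans hi.symm))
      simp_rw [h1]
      rw [h3, ho.1 s p q hne, Int.cast_neg, neg_mul, neg_neg]
  linarith

theorem S_all (ho : IsOrient L (m + 1) o) (f : (Fin (m + 1) → Finset ℕ) → ℝ) :
    ∑ i : Fin (m + 2), (-1 : ℝ) ^ (i : ℕ) * S L o f i = -2 * (-1) ^ m * X L o f := by
  rw [Fin.sum_univ_succ, Fin.sum_univ_castSucc]
  have h : ∑ i : Fin m, (-1 : ℝ) ^ ((i.castSucc.succ : Fin (m + 2)) : ℕ) *
      S L o f i.castSucc.succ = 0 := by
    refine sum_eq_zero fun i _ => ?_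
    rw [S_mid ho f i.castSucc.succ i.castSucc i.succ (by simp) (by simp), mul_zero]
  rw [h, S_zero ho f, show (Fin.last m).succ = Fin.last (m + 1) from rfl, S_last]
  simp only [Fin.val_zero, pow_zero, Fin.val_last]
  ring

theorem X_eq (ho : IsOrient L (m + 1) o) (f : (Fin (m + 1) → Finset ℕ) → ℝ) :
    X L o f = - Finsupp.linearCombination ℝ f (zeta L o) := by
  have h1 : ∀ s : Fin (m + 1) → ℕ,
      (o s : ℝ) * G f (univ.image s) (Fin.init s) =
      (o s : ℝ) * G f (univ.image (Fin.init s)) (Fin.init s) -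
      (o s : ℝ) * ∑ B ∈ (univ.image fun i : Fin m => s i.castSucc).powerset,
        (-1 : ℝ) ^ B.card * f (zt s B) := by
    intro s
    by_cases hs : Function.Injective s
    · rw [← mul_sub]
      congr 1
      have h2 : univ.image s = insert (s (Fin.last m)) (univ.image (Fin.init s)) := by
        ext x
        simp only [mem_image, mem_univ, true_and, mem_insert, Fin.init]
        constructor
        · rintro ⟨j, hj⟩
          refine Fin.lastCases ?_ ?_ j (motive := fun j => s j = x →
            x = s (Fin.last m) ∨ ∃ a : Fin m, s a.castSucc = x) hj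
          · intro h
            exact Or.inl h.symm
          · intro i h
            exact Or.inr ⟨i, h⟩
        · rintro (h | ⟨i, h⟩)
          · exact ⟨_, h.symm⟩
          · exact ⟨_, h⟩
      have h3 : s (Fin.last m) ∉ univ.image (Fin.init s) := by
        intro h
        obtain ⟨i, _, hi⟩ := mem_image.1 h
        have := hs hi
        exact Fin.castSucc_ne_last i this
      have h4 : (univ.image fun i : Fin m => s i.castSucc) = univ.image (Fin.init s) := rfl
      unfold G
      rw [h2, sum_powerset_insert h3, h4, sub_eq_add_neg, ← sum_neg_distrib]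
      congr 1
      refine sum_congr rfl fun B hB => ?_
      have h5 : s (Fin.last m) ∉ B := fun h => h3 (mem_powerset.1 hB h)
      rw [card_insert_of_notMem h5, pow_succ, mul_neg_one, neg_mul, neg_inj]
      congr 2
      funext j
      unfold flips zt
      have h6 : (univ.filter fun i : Fin m => (i : ℕ) < (j : ℕ)).image (Fin.init s) =
        (univ.filter fun i : Fin m => (i : ℕ) < (j : ℕ)).image fun i => s i.castSucc := rfl
      rw [h6]
      have h7 : s (Fin.last m) ∉ (univ.filter fun i : Fin m => (i : ℕ) < (j : ℕ)).image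
          fun i => s i.castSucc := fun h => h3 (image_subset_image (filter_subset _ _) h)
      ext x
      simp only [mem_symmDiff, mem_insert]
      by_cases hx : x = s (Fin.last m)
      · subst hx
        simp only [true_or, h7, not_false_eq_true, not_true_eq_false, and_false,
          or_false, and_true]
      · simp only [hx, false_or]
    · rw [B5.o_eq_zero ho hs]
      simp
  unfold X
  rw [sum_congr rfl fun s _ => h1 s, sum_sub_distrib]
  have h8 : ∑ s ∈ Fintype.piFinset (fun _ : Fin (m + 1) => verts L),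
      (o s : ℝ) * G f (univ.image (Fin.init s)) (Fin.init s) = 0 := by
    rw [B5.sum_snoc]
    refine sum_eq_zero fun s _ => ?_
    simp only [Fin.init_snoc]
    rw [← sum_mul]
    have := B5.o_sum_snoc ho s
    have h3 : ∑ x ∈ verts L, (o (Fin.snoc s x) : ℝ) = 0 := by exact_mod_cast this
    rw [h3, zero_mul]
  rw [h8, zero_sub]
  congr 1
  unfold zeta
  rw [map_sum]
  refine sum_congr rfl fun s _ => ?_
  rw [map_sum, mul_sum]
  refine sum_congr rfl fun B _ => ?_
  rw [Finsupp.linearCombination_single, smul_eq_mul]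
  ring

end P11

open P11 in
theorem itemP11 : S_P11 := by
  intro L _ m o ho f
  have h1 : ∑ s ∈ Fintype.piFinset (fun _ : Fin (m + 1) => verts L), (o s : ℝ) *
      ∑ A ∈ (Finset.univ.image s).powerset, (-1 : ℝ) ^ A.card * dl f (flips A s) =
      ∑ i : Fin (m + 2), (-1 : ℝ) ^ (i : ℕ) * S L o f i := by
    have h0 : ∀ s : Fin (m + 1) → ℕ, (o s : ℝ) *
        ∑ A ∈ (Finset.univ.image s).powerset, (-1 : ℝ) ^ A.card * dl f (flips A s) =
        ∑ i : Fin (m + 2), (-1 : ℝ) ^ (i : ℕ) * ((o s : ℝ) *
          ∑ A ∈ (Finset.univ.image s).powerset, (-1 : ℝ) ^ A.card *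
            f (fun j => flips A s (i.succAbove j))) := by
      intro s
      unfold dl
      simp_rw [Finset.mul_sum]
      rw [Finset.sum_comm]
      refine Finset.sum_congr rfl fun i _ => Finset.sum_congr rfl fun A _ => ?_
      rw [smul_eq_mul]
      ring
    rw [Finset.sum_congr rfl fun s _ => h0 s, Finset.sum_comm]
    refine Finset.sum_congr rfl fun i _ => ?_
    rw [S, Finset.mul_sum]
  rw [h1, S_all ho f, X_eq ho f]
  ring

end RA

end MP8a95ee
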