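import Pool.Agent.Work.MP_8a95ee_gt.R.Stmts

/-!
# A2: deformation lemma for ordered chains
-/

namespace MP8a95ee

namespace RA

namespace ItA2

variable {S : Type}

/-- cone -/
noncomputable def con (p : S) {k : ℕ} : Ch S k →ₗ[ℝ] Ch S (k + 1) :=
  Finsupp.lmapDomain ℝ ℝ (fun T : Fin k → S => (Fin.cons p T : Fin (k + 1) → S))

/-- map -/
noncomputable def mp (h : S → S) {k : ℕ} : Ch S k →ₗ[ℝ] Ch S k :=
  Finsupp.lmapDomain ℝ ℝ (fun (T : Fin k → S) (i : Fin k) => h (T i))

theorem con_single (p : S) {k : ℕ} (T : Fin k → S) (c : ℝ) :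
    con p (Finsupp.single T c) = Finsupp.single (Fin.cons p T : Fin (k + 1) → S) c := by
  simp [con]

theorem mp_single (h : S → S) {k : ℕ} (T : Fin k → S) (c : ℝ) :
    mp h (Finsupp.single T c) = Finsupp.single (fun i => h (T i)) c := by
  simp [mp]

theorem bdT_single {k : ℕ} (T : Fin (k + 1) → S) (c : ℝ) :
    bdT (Finsupp.single T c) = c • bdT0 T := by
  simp [bdT]

theorem bdT_single_one {k : ℕ} (T : Fin (k + 1) → S) :
    bdT (Finsupp.single T (1 : ℝ)) = bdT0 T := by
  rw [bdT_single, one_smul]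

/-- two linear maps on chains which agree on tuples agree -/
theorem ext_ch {k : ℕ} {M : Type} [AddCommGroup M] [Module ℝ M] (f g : Ch S k →ₗ[ℝ] M)
    (h : ∀ T, f (Finsupp.single T 1) = g (Finsupp.single T 1)) (z : Ch S k) : f z = g z := by
  have : f = g := by
    apply Finsupp.lhom_ext
    intro T b
    have e : (Finsupp.single T b : Ch S k) = b • Finsupp.single T 1 := by simp
    rw [e, map_smul, map_smul, h]
  rw [this]

theorem bdT0_cons (p : S) {k : ℕ} (T : Fin (k + 1) → S) :
    bdT0 (Fin.cons p T : Fin (k + 2) → S) = Finsupp.single T 1 - con p (bdT0 T) := by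
  unfold bdT0
  rw [Fin.sum_univ_succ, map_sum, sub_eq_add_neg, ← Finset.sum_neg_distrib]
  refine congrArg₂ (· + ·) (by simp) (Finset.sum_congr rfl fun i _ => ?_)
  rw [con_single, ← Finsupp.single_neg]
  have e : (fun j => (Fin.cons p T : Fin (k + 2) → S) (i.succ.succAbove j))
      = Fin.cons p (fun j => T (i.succAbove j)) := by
    funext j
    refine Fin.cases ?_ (fun j => ?_) j
    · simp
    · simp
  rw [e]
  congr 1
  simp [pow_succ]

theorem bdT_con (p : S) {k : ℕ} (z : Ch S (k + 1)) : bdT (con p z) = z - con p (bdT z) := by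
  have := ext_ch (bdT ∘ₗ con p) (LinearMap.id - con p ∘ₗ bdT) (fun T => by
    simp only [LinearMap.comp_apply, LinearMap.sub_apply, LinearMap.id_apply]
    rw [con_single, bdT_single_one, bdT_single_one, bdT0_cons]) z
  simpa using this

theorem mp_bdT0 (h : S → S) {k : ℕ} (T : Fin (k + 1) → S) :
    mp h (bdT0 T) = bdT0 (fun i => h (T i)) := by
  unfold bdT0
  rw [map_sum]
  apply Finset.sum_congr rfl
  intro i _
  rw [mp_single]

theorem mp_bdT (h : S → S) {k : ℕ} (z : Ch S (k + 1)) : mp h (bdT z) = bdT (mp h z) := by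
  have := ext_ch (mp h ∘ₗ bdT) (bdT ∘ₗ mp h) (fun T => by
    simp only [LinearMap.comp_apply]
    rw [mp_single, bdT_single_one, bdT_single_one, mp_bdT0]) z
  simpa using this

/-- prism -/
noncomputable def Pr (h : S → S) : (k : ℕ) → (Ch S k →ₗ[ℝ] Ch S (k + 1))
  | 0 => 0
  | k + 1 => Finsupp.linearCombination ℝ fun T : Fin (k + 1) → S =>
      Finsupp.single (Fin.cons (T 0) (fun i => h (T i)) : Fin (k + 2) → S) 1
        - con (T 0) (Pr h k (Finsupp.single (Fin.tail T) 1))

theorem Pr_cons (h : S → S) {k : ℕ} (p : S) (z : Ch S k) :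
    Pr h (k + 1) (con p z) = con p (con (h p) (mp h z)) - con p (Pr h k z) := by
  have := ext_ch (Pr h (k + 1) ∘ₗ con p) (con p ∘ₗ con (h p) ∘ₗ mp h - con p ∘ₗ Pr h k)
    (fun T => by
      simp only [LinearMap.comp_apply, LinearMap.sub_apply]
      rw [con_single, mp_single, con_single, con_single]
      simp only [Pr, Finsupp.linearCombination_single, one_smul, Fin.cons_zero, Fin.tail_cons]
      have e : (fun i => h ((Fin.cons p T : Fin (k + 1) → S) i))
          = Fin.cons (h p) (fun i => h (T i)) := by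
        funext j
        refine Fin.cases ?_ (fun j => ?_) j
        · simp
        · simp
      rw [e]) z
  simpa using this

theorem single_eq_con {k : ℕ} (T : Fin (k + 1) → S) :
    (Finsupp.single T (1 : ℝ) : Ch S (k + 1)) = con (T 0) (Finsupp.single (Fin.tail T) 1) := by
  rw [con_single, Fin.cons_self_tail]

theorem bdT_con0 (p : S) (z : Ch S 0) : bdT (con p z) = z := by
  have := ext_ch (bdT ∘ₗ con p) LinearMap.id (fun T => by
    simp only [LinearMap.comp_apply, LinearMap.id_apply]
    rw [con_single, bdT_single_one]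
    unfold bdT0
    simp) z
  simpa using this

theorem mp_con (h : S → S) {k : ℕ} (p : S) (z : Ch S k) :
    mp h (con p z) = con (h p) (mp h z) := by
  have := ext_ch (mp h ∘ₗ con p) (con (h p) ∘ₗ mp h) (fun T => by
    simp only [LinearMap.comp_apply]
    rw [con_single, mp_single, mp_single, con_single]
    congr 1
    funext j
    refine Fin.cases ?_ (fun j => ?_) j
    · simp
    · simp) z
  simpa using this

theorem mp_zero_len (h : S → S) (z : Ch S 0) : mp h z = z := by
  have := ext_ch (mp h) LinearMap.id (fun T => by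
    simp only [LinearMap.id_apply]
    rw [mp_single]
    congr 1
    exact Subsingleton.elim _ _) z
  simpa using this

theorem bdT_Pr (h : S → S) : ∀ (k : ℕ) (z : Ch S (k + 1)),
    bdT (Pr h (k + 1) z) + Pr h k (bdT z) = mp h z - z := by
  intro k
  induction k with
  | zero =>
    intro z
    have := ext_ch (bdT ∘ₗ Pr h 1 + Pr h 0 ∘ₗ bdT) (mp h - LinearMap.id) (fun T => by
      simp only [LinearMap.comp_apply, LinearMap.sub_apply, LinearMap.id_apply,
        LinearMap.add_apply]
      rw [single_eq_con]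
      generalize (Finsupp.single (Fin.tail T) (1 : ℝ) : Ch S 0) = u
      rw [Pr_cons, map_sub, bdT_con, bdT_con0, mp_con, mp_zero_len]
      simp [Pr]) z
    simpa using this
  | succ k ih =>
    intro z
    have := ext_ch (bdT ∘ₗ Pr h (k + 2) + Pr h (k + 1) ∘ₗ bdT) (mp h - LinearMap.id) (fun T => by
      simp only [LinearMap.comp_apply, LinearMap.sub_apply, LinearMap.id_apply,
        LinearMap.add_apply]
      rw [single_eq_con]
      generalize (Finsupp.single (Fin.tail T) (1 : ℝ) : Ch S (k + 1)) = u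
      have e := ih u
      have e' : bdT (Pr h (k + 1) u) = mp h u - u - Pr h k (bdT u) := by
        rw [← e]; abel
      rw [Pr_cons, map_sub, bdT_con, bdT_con, bdT_con, bdT_con, mp_con, e',
        map_sub (Pr h (k + 1)), Pr_cons, mp_bdT]
      simp only [map_sub]
      abel) z
    simpa using this

/-- chains supported in a family -/
def Sup (Y : Set S → Prop) (k : ℕ) : Submodule ℝ (Ch S k) :=
  Finsupp.supported ℝ ℝ {T : Fin k → S | Y (Set.range T)}

theorem mem_Sup (Y : Set S → Prop) {k : ℕ} (z : Ch S k) :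
    z ∈ Sup Y k ↔ ∀ T ∈ z.support, Y (Set.range T) := by
  unfold Sup
  rw [Finsupp.mem_supported]
  exact Iff.rfl

theorem single_mem (Y : Set S → Prop) {k : ℕ} (T : Fin k → S) (c : ℝ) (h : Y (Set.range T)) :
    Finsupp.single T c ∈ Sup Y k :=
  Finsupp.single_mem_supported ℝ c h

/-- a linear map into chains preserves supports if it does on tuples -/
theorem map_mem (Y Y' : Set S → Prop) {k l : ℕ} (f : Ch S k →ₗ[ℝ] Ch S l)
    (hf : ∀ T, Y (Set.range T) → f (Finsupp.single T 1) ∈ Sup Y' l) (z : Ch S k)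
    (hz : z ∈ Sup Y k) : f z ∈ Sup Y' l := by
  rw [mem_Sup] at hz
  rw [← Finsupp.sum_single z, Finsupp.sum, map_sum]
  apply Submodule.sum_mem
  intro T hT
  have e : (Finsupp.single T (z T) : Ch S k) = z T • Finsupp.single T 1 := by simp
  rw [e, map_smul]
  exact Submodule.smul_mem _ _ (hf T (hz T hT))

theorem con_mem (Y Y' : Set S → Prop) (p : S) {k : ℕ}
    (hY : ∀ A, Y A → Y' (insert p A)) (z : Ch S k) (hz : z ∈ Sup Y k) :
    con p z ∈ Sup Y' (k + 1) := by
  refine map_mem Y Y' _ (fun T hT => ?_) z hz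
  rw [con_single]
  apply single_mem
  have := hY _ hT
  convert this using 1
  rw [Fin.range_cons]

theorem mp_mem (Y Y' : Set S → Prop) (h : S → S) {k : ℕ}
    (hY : ∀ A, Y A → Y' (h '' A)) (z : Ch S k) (hz : z ∈ Sup Y k) :
    mp h z ∈ Sup Y' k := by
  refine map_mem Y Y' _ (fun T hT => ?_) z hz
  rw [mp_single]
  apply single_mem
  have := hY _ hT
  convert this using 1
  rw [← Set.range_comp]
  rfl

/-- the prism of a tuple lives on its range and the image -/
theorem Pr_single_mem (h : S → S) : ∀ (k : ℕ) (T : Fin k → S),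
    Pr h k (Finsupp.single T 1) ∈
      Sup (fun B => B ⊆ Set.range T ∪ h '' Set.range T) (k + 1) := by
  intro k
  induction k with
  | zero => intro T; simp [Pr]
  | succ k ih =>
    intro T
    simp only [Pr, Finsupp.linearCombination_single, one_smul]
    apply Submodule.sub_mem
    · apply single_mem
      rw [Fin.range_cons]
      apply Set.insert_subset
      · exact Or.inl ⟨0, rfl⟩
      · rintro _ ⟨i, rfl⟩
        exact Or.inr ⟨T i, ⟨i, rfl⟩, rfl⟩
    · refine con_mem _ _ (T 0) (fun A hA => ?_) _ (ih (Fin.tail T))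
      apply Set.insert_subset
      · exact Or.inl ⟨0, rfl⟩
      · refine hA.trans ?_
        have : Set.range (Fin.tail T) ⊆ Set.range T := by
          rintro _ ⟨i, rfl⟩
          exact ⟨i.succ, rfl⟩
        exact Set.union_subset_union this (Set.image_mono this)

theorem Pr_mem (Y : Set S → Prop) (hm : ∀ A B, A ⊆ B → Y B → Y A) (h : S → S)
    (hh : ∀ A, Y A → Y (A ∪ h '' A)) {k : ℕ} (z : Ch S k) (hz : z ∈ Sup Y k) :
    Pr h k z ∈ Sup Y (k + 1) := by
  refine map_mem Y Y _ (fun T hT => ?_) z hz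
  have := Pr_single_mem h k T
  rw [mem_Sup] at this ⊢
  intro T' hT'
  exact hm _ _ (this T' hT') (hh _ hT)

end ItA2

open ItA2 in
theorem itemA2 : S_A2 := by
  intro S Y hm h1 h2 hh1 hh2 S2 hS2 ⟨p, hp⟩ hr k z hz hb
  rw [← mem_Sup] at hz
  have hz1 : mp h1 z ∈ Sup Y (k + 1) :=
    mp_mem Y Y h1 (fun A hA => hm _ _ Set.subset_union_right (hh1 A hA)) z hz
  have e1 := bdT_Pr h1 k z
  have e2 := bdT_Pr h2 k (mp h1 z)
  rw [hb, map_zero, add_zero] at e1
  rw [← mp_bdT, hb, map_zero, map_zero, add_zero] at e2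
  have hw : mp h2 (mp h1 z) ∈ Sup (fun A => A ⊆ S2) (k + 1) := by
    have := map_mem Y (fun A => A ⊆ S2) (mp h2 ∘ₗ mp h1 : Ch S (k + 1) →ₗ[ℝ] Ch S (k + 1))
      (fun T hT => by
        simp only [LinearMap.comp_apply]
        rw [mp_single, mp_single]
        apply single_mem
        rintro _ ⟨i, rfl⟩
        exact hr _ hT (T i) ⟨i, rfl⟩) z hz
    simpa using this
  refine ⟨con p (mp h2 (mp h1 z)) - Pr h1 (k + 1) z - Pr h2 (k + 1) (mp h1 z), ?_, ?_⟩
  · rw [← mem_Sup]
    refine Submodule.sub_mem _ (Submodule.sub_mem _ ?_ ?_) ?_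
    · exact con_mem _ _ p (fun A hA => hS2 _ (Set.insert_subset hp hA)) _ hw
    · exact Pr_mem Y hm h1 hh1 z hz
    · exact Pr_mem Y hm h2 hh2 _ hz1
  · rw [map_sub, map_sub, bdT_con, e1, e2, ← mp_bdT, ← mp_bdT, hb, map_zero, map_zero, map_zero]
    abel

end RA

end MP8a95ee
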