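import Pool.Agent.Work.MP_8a95ee_gt.R.Cox

/-!
# Statements of the items
-/

namespace MP8a95ee

namespace RA

/-! ### W: the Coxeter group and its walls -/

/-- W1 -/
def S_W1 : Prop := ∀ (V : Finset ℕ) (adj : ℕ → ℕ → Prop) (hs : ∀ a b, adj a b → adj b a), ∃ N, IsPar V adj hs N

/-- W2 -/
def S_W2 : Prop := ∀ (V : Finset ℕ) (adj : ℕ → ℕ → Prop) (hs : ∀ a b, adj a b → adj b a)
  (N : WG V adj hs → WG V adj hs → ZMod 2), IsPar V adj hs N →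
  ∀ x y t, N (x * y) t = N x t + N y (x⁻¹ * t * x)

/-- W3 -/
def S_W3 : Prop := ∀ (V : Finset ℕ) (adj : ℕ → ℕ → Prop) (hs : ∀ a b, adj a b → adj b a)
  (N : WG V adj hs → WG V adj hs → ZMod 2), IsPar V adj hs N → ∀ x, {t | N x t ≠ 0}.Finite ∧
  ∀ t, N x t ≠ 0 → ∃ z a, t = z * rr V adj hs a * z⁻¹

/-- W4 -/
def S_W4 : Prop := ∀ (V : Finset ℕ) (adj : ℕ → ℕ → Prop) (hs : ∀ a b, adj a b → adj b a)
  (N : WG V adj hs → WG V adj hs → ZMod 2), IsPar V adj hs N →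
  ∀ x t, N x t ≠ 0 → (cs V adj hs).length (t * x) < (cs V adj hs).length x

/-- W5 -/
def S_W5 : Prop := ∀ (V : Finset ℕ) (adj : ℕ → ℕ → Prop) (hs : ∀ a b, adj a b → adj b a)
  (N : WG V adj hs → WG V adj hs → ZMod 2), IsPar V adj hs N → ∀ x, x ≠ 1 → ∃ a, N x (rr V adj hs a) ≠ 0

/-- W6: two generators which both can be the first letter are adjacent -/
def S_W6 : Prop := ∀ (V : Finset ℕ) (adj : ℕ → ℕ → Prop) (hs : ∀ a b, adj a b → adj b a)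
  (N : WG V adj hs → WG V adj hs → ZMod 2), IsPar V adj hs N → ∀ (b c : V), b ≠ c → ¬ adj b c →
  ∀ g, N g (rr V adj hs b) = 0 ∨ N g (rr V adj hs c) = 0

/-- W7: centralizer of a generator -/
def S_W7 : Prop := ∀ (V : Finset ℕ) (adj : ℕ → ℕ → Prop) (hs : ∀ a b, adj a b → adj b a)
  (N : WG V adj hs → WG V adj hs → ZMod 2), IsPar V adj hs N → ∀ (b : V) (z : WG V adj hs),
  z * rr V adj hs b = rr V adj hs b * z → N z (rr V adj hs b) = 0 →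
  ∀ (c : V) x, N z (x * rr V adj hs c * x⁻¹) ≠ 0 → adj b c

/-- W8: half spaces are connected -/
def S_W8 : Prop := ∀ (V : Finset ℕ) (adj : ℕ → ℕ → Prop) (hs : ∀ a b, adj a b → adj b a)
  (N : WG V adj hs → WG V adj hs → ZMod 2), IsPar V adj hs N → ∀ t x y, N x t = N y t →
  ∃ ω : List V, y = x * (cs V adj hs).wordProd ω ∧
    ∀ k ≤ ω.length, N (x * (cs V adj hs).wordProd (ω.take k)) t = N x t

/-- W9: conjugate generators are equal -/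
def S_W9 : Prop := ∀ (V : Finset ℕ) (adj : ℕ → ℕ → Prop) (hs : ∀ a b, adj a b → adj b a) (a b : V) (x y : WG V adj hs),
  x * rr V adj hs a * x⁻¹ = y * rr V adj hs b * y⁻¹ → a = b

/-- W10: walls with equal or nonadjacent labels do not cross -/
def S_W10 : Prop := ∀ (V : Finset ℕ) (adj : ℕ → ℕ → Prop) (hs : ∀ a b, adj a b → adj b a)
  (N : WG V adj hs → WG V adj hs → ZMod 2), (∀ a, ¬ adj a a) → IsPar V adj hs N →
  ∀ (a b : V) (x y : WG V adj hs),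
  x * rr V adj hs a * x⁻¹ ≠ y * rr V adj hs b * y⁻¹ → (a = b ∨ ¬ adj a b) →
  ¬ ∀ p q : Prop, ∃ z, (N z (x * rr V adj hs a * x⁻¹) ≠ 0 ↔ p) ∧
    (N z (y * rr V adj hs b * y⁻¹) ≠ 0 ↔ q)

/-- W -/
def S_W : Prop := ∀ (V : Finset ℕ) (adj : ℕ → ℕ → Prop), V.Nonempty →
  (∀ a b, adj a b → adj b a) → (∀ a, ¬ adj a a) → Nonempty (WallData V adj)

/-! ### P: the bounded cocycle -/

section

variable {V : Finset ℕ} {adj : ℕ → ℕ → Prop}

/-- `h` separates `x` and `y` -/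
def WallData.Sep (D : WallData V adj) (h : D.Wl) (x y : D.G) : Prop := D.side h x ≠ D.side h y

/-- there is an `a`-wall which separates from `v 0` exactly the points `v i`, `i ∈ S`, and which
separates `x` from `v 0` -/
def WallData.Crossed (D : WallData V adj) {k : ℕ} (v : Fin (k + 1) → D.G) (a : ℕ)
    (S : Finset (Fin (k + 1))) (x : D.G) : Prop :=
  ∃ h, D.lab h = a ∧ (∀ i, i ∈ S ↔ D.Sep h (v i) (v 0)) ∧ D.Sep h x (v 0)

/-- there is an `a`-wall which separates from `v 0` exactly the points `v i`, `i ∈ S`, and which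
does not separate `x` from `v 0` -/
def WallData.Uncrossed (D : WallData V adj) {k : ℕ} (v : Fin (k + 1) → D.G) (a : ℕ)
    (S : Finset (Fin (k + 1))) (x : D.G) : Prop :=
  ∃ h, D.lab h = a ∧ (∀ i, i ∈ S ↔ D.Sep h (v i) (v 0)) ∧ ¬ D.Sep h x (v 0)

/-- same configuration -/
def WallData.SameCfg (D : WallData V adj) {k : ℕ} (v : Fin (k + 1) → D.G) (x y : D.G) : Prop :=
  ∀ a ∈ V, ∀ S : Finset (Fin (k + 1)), (D.Crossed v a S x ↔ D.Crossed v a S y) ∧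
    (D.Uncrossed v a S x ↔ D.Uncrossed v a S y)

end

/-- P1 (hull lemma) -/
def S_P1 : Prop := ∀ (V : Finset ℕ) (adj : ℕ → ℕ → Prop) (_ : ∀ a b, adj a b → adj b a)
  (D : WallData V adj) (k : ℕ) (v : Fin (k + 1) → D.G) (x : D.G) (h : D.Wl),
  (∀ i, D.Sep h x (v i)) → ∃ u, ∀ i, u ∈ D.In x (v i)

/-- P2: walls with the same label -/
def S_P2 : Prop := ∀ (V : Finset ℕ) (adj : ℕ → ℕ → Prop) (_ : ∀ a b, adj a b → adj b a)
  (D : WallData V adj) (a : ℕ) (x y v : D.G), a ∈ D.In x v → a ∈ D.In y v →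
  D.wall x a = D.wall y a ∨ D.Sep (D.wall x a) x y ∨ D.Sep (D.wall y a) x y

/-- P3: two points next to the same wall, on the same side -/
def S_P3 : Prop := ∀ (V : Finset ℕ) (adj : ℕ → ℕ → Prop) (_ : ∀ a b, adj a b → adj b a)
  (D : WallData V adj) (a : ℕ) (x y : D.G), a ∈ V → D.wall x a = D.wall y a →
  ¬ D.Sep (D.wall x a) x y → ∀ h, D.Sep h x y → adj a (D.lab h)

/-- P4: first letters are pairwise adjacent -/
def S_P4 : Prop := ∀ (V : Finset ℕ) (adj : ℕ → ℕ → Prop) (_ : ∀ a b, adj a b → adj b a)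
  (D : WallData V adj) (x v : D.G), ∀ a ∈ D.In x v, ∀ b ∈ D.In x v, a ≠ b → adj a b

/-- P5: there is a first letter in `A` if all other labels on the way are adjacent to `A` -/
def S_P5 : Prop := ∀ (V : Finset ℕ) (adj : ℕ → ℕ → Prop) (_ : ∀ a b, adj a b → adj b a)
  (D : WallData V adj) (A : ℕ → Prop) (x y : D.G),
  (∀ h, D.Sep h x y → A (D.lab h) ∨ ∀ a, A a → adj a (D.lab h)) →
  (∃ h, D.Sep h x y ∧ A (D.lab h)) → ∃ a ∈ D.In x y, A a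

/-- P6: walls with equal or nonadjacent labels separating points with the same configuration
split the points `v i` in the same way -/
def S_P6 : Prop := ∀ (V : Finset ℕ) (adj : ℕ → ℕ → Prop) (_ : ∀ a b, adj a b → adj b a)
  (D : WallData V adj) (k : ℕ) (v : Fin (k + 1) → D.G) (x y : D.G), D.SameCfg v x y →
  ∀ h h', D.Sep h x y → D.Sep h' x y → (D.lab h = D.lab h' ∨ ¬ adj (D.lab h) (D.lab h')) →
  (∃ i, D.Sep h (v i) (v 0)) → (∃ i, D.Sep h' (v i) (v 0)) →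
  ∀ i, D.Sep h (v i) y ↔ D.Sep h' (v i) y

/-- P7: two points with the same tuple of first letters and the same configuration -/
def S_P7 : Prop := ∀ (L : Finset (Finset ℕ)) (_ : FlagC L) (D : WallData (verts L) (Adj L))
  (k : ℕ) (v : Fin (k + 1) → D.G) (x y : D.G), x ≠ y → (∀ i, D.In x (v i) = D.In y (v i)) →
  D.SameCfg v x y → KG L (fun _ => True) (fun i => D.In x (v i))

/-- P8: uniform bound -/
def S_P8 : Prop := ∀ (L : Finset (Finset ℕ)) (_ : FlagC L) (D : WallData (verts L) (Adj L))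
  (k : ℕ), ∃ B : ℕ, ∀ (v : Fin (k + 1) → D.G) (X : Finset D.G),
  (∀ x ∈ X, ¬ KG L (fun _ => True) (fun i => D.In x (v i))) → X.card ≤ B

/-- P9: the bounded cocycle -/
def S_P9 : Prop := ∀ (L : Finset (Finset ℕ)) (_ : FlagC L) (D : WallData (verts L) (Adj L))
  (k : ℕ) (f : (Fin k → Finset ℕ) → ℝ),
  (∀ T : Fin (k + 1) → Finset ℕ, KG L (fun _ => True) T → dl f T = 0) →
  ∃ K : BCocycle D.G D.χ k, ∀ v, K.F v =
    ∑ᶠ x : D.G, ((D.χ x : ℤ) : ℝ) * dl f (fun i => D.In x (v i))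

/-- P10: evaluation of the cocycle on an ordered simplex -/
def S_P10 : Prop := ∀ (L : Finset (Finset ℕ)) (_ : FlagC L) (D : WallData (verts L) (Adj L))
  (k : ℕ) (f : (Fin k → Finset ℕ) → ℝ),
  (∀ T : Fin (k + 1) → Finset ℕ, KG L (fun _ => True) T → dl f T = 0) →
  ∀ s : Fin k → ℕ, Function.Injective s → Finset.univ.image s ∈ L →
  ∑ᶠ x : D.G, ((D.χ x : ℤ) : ℝ) *
      dl f (fun i => D.In x (Fin.partialProd (fun j => D.r (s j)) i)) =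
    ∑ A ∈ (Finset.univ.image s).powerset, (-1 : ℝ) ^ A.card * dl f (flips A s)

/-- P11: combinatorial identity -/
def S_P11 : Prop := ∀ (L : Finset (Finset ℕ)) (_ : FlagC L) (m : ℕ)
  (o : (Fin (m + 1) → ℕ) → ℤ) (_ : IsOrient L (m + 1) o) (f : (Fin (m + 1) → Finset ℕ) → ℝ),
  ∑ s ∈ Fintype.piFinset (fun _ : Fin (m + 1) => verts L), (o s : ℝ) *
      ∑ A ∈ (Finset.univ.image s).powerset, (-1 : ℝ) ^ A.card * dl f (flips A s) =
    2 * (-1) ^ m * Finsupp.linearCombination ℝ f (zeta L o)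

/-- P12: duality -/
def S_P12 : Prop := ∀ (L : Finset (Finset ℕ)) (_ : FlagC L) (m : ℕ)
  (o : (Fin (m + 1) → ℕ) → ℤ),
  (∀ f : (Fin (m + 1) → Finset ℕ) → ℝ,
    (∀ T : Fin (m + 2) → Finset ℕ, KG L (fun _ => True) T → dl f T = 0) →
    Finsupp.linearCombination ℝ f (zeta L o) = 0) → Bounds L o (KG L fun _ => True)

/-- P13: Part I -/
def S_P13 : Prop := ∀ (L : Finset (Finset ℕ)) (_ : FlagC L) (m : ℕ)
  (o : (Fin (m + 1) → ℕ) → ℤ) (_ : IsOrient L (m + 1) o)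
  (_ : ¬ Bounds L o (KG L fun _ => True)),
  ∃ C : ℝ, 0 < C ∧ ∀ (X : Type) [TopologicalSpace X] (f : C(X, RZ L)) (lam : ℝ)
    (z : SChain X (m + 1)) (w : SChain (RZ L) (m + 2)),
    push f z = lam • momentCycle L (m + 1) o + bd w → C * |lam| ≤ l1 z

/-! ### A: reduction of the family of pairs -/

/-- A1 -/
def S_A1 : Prop := ∀ (L : Finset (Finset ℕ)) (_ : FlagC L) (k : ℕ) (T : Fin k → Finset ℕ),
  KG L (fun _ => True) T → KG L (fun p => TrivP L p ∨ PairP L p ∨ BigP L p) T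

/-- A2: acyclicity of families which can be deformed into a full simplex -/
def S_A2 : Prop := ∀ (S : Type) (Y : Set S → Prop) (_ : ∀ A B, A ⊆ B → Y B → Y A)
  (h1 h2 : S → S) (_ : ∀ A, Y A → Y (A ∪ h1 '' A)) (_ : ∀ A, Y A → Y (A ∪ h2 '' A))
  (S2 : Set S) (_ : ∀ A ⊆ S2, Y A) (_ : S2.Nonempty)
  (_ : ∀ A, Y A → ∀ s ∈ A, h2 (h1 s) ∈ S2)
  (k : ℕ) (z : Ch S (k + 1)), (∀ T ∈ z.support, Y (Set.range T)) → bdT z = 0 →
  ∃ y : Ch S (k + 2), (∀ T ∈ y.support, Y (Set.range T)) ∧ bdT y = z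

/-- the family `Y` for the pair `(P, Q)` and the nonadjacent vertices `p ∈ P`, `q ∈ Q` -/
def YC (L : Finset (Finset ℕ)) (G : Finset ℕ × Finset ℕ → Prop) (P Q : Finset ℕ) (p q : ℕ)
    {k : ℕ} (T : Fin k → Finset ℕ) : Prop :=
  (∀ i, T i ∈ L ∧ (T i).Nonempty ∧ (∀ t ∈ T i, t ∉ P ∪ Q → ∀ c ∈ P ∪ Q, Adj L t c) ∧
    (T i ∩ (P ∪ Q) = ∅ ∨ T i ∩ (P ∪ Q) = P ∨ T i ∩ (P ∪ Q) = {p} ∨ T i ∩ (P ∪ Q) = {q} ∨
      T i ∩ (P ∪ Q) = Q)) ∧
  (InK T ∨ FPQ L {p} {q} T ∨ ∃ p' : Finset ℕ × Finset ℕ, GoodPair L p' ∧ G p' ∧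
    (∀ t ∈ p'.1 ∪ p'.2, t ∉ P ∪ Q ∧ ∀ c ∈ P ∪ Q, Adj L t c) ∧ FPQ L p'.1 p'.2 T)

/-- A3: the family `YC` is acyclic -/
def S_A3 : Prop := ∀ (L : Finset (Finset ℕ)) (_ : FlagC L) (G : Finset ℕ × Finset ℕ → Prop)
  (P Q : Finset ℕ) (_ : GoodPair L (P, Q)) (p q : ℕ) (_ : p ∈ P) (_ : q ∈ Q)
  (_ : ¬ Adj L p q) (k : ℕ) (z : Ch (Finset ℕ) (k + 1)),
  (∀ T ∈ z.support, YC L G P Q p q T) → bdT z = 0 →
  ∃ y : Ch (Finset ℕ) (k + 2), (∀ T ∈ y.support, YC L G P Q p q T) ∧ bdT y = z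

/-- A4: what `F_{P,Q}` has in common with the rest lies in `YC` -/
def S_A4 : Prop := ∀ (L : Finset (Finset ℕ)) (_ : FlagC L) (G : Finset ℕ × Finset ℕ → Prop)
  (_ : ∀ p, G p → TrivP L p ∨ PairP L p ∨ BigP L p)
  (P Q : Finset ℕ) (_ : GoodPair L (P, Q)) (_ : BigP L (P, Q)) (_ : ¬ G (P, Q))
  (_ : ¬ G (Q, P)) (p q : ℕ) (_ : p ∈ P) (_ : q ∈ Q) (_ : ¬ Adj L p q)
  (k : ℕ) (T : Fin k → Finset ℕ), FPQ L P Q T → KG L G T → YC L G P Q p q T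

/-- A5: removal of one pair -/
def S_A5 : Prop := ∀ (L : Finset (Finset ℕ)) (_ : FlagC L) (m : ℕ)
  (o : (Fin (m + 1) → ℕ) → ℤ) (_ : IsOrient L (m + 1) o)
  (G : Finset ℕ × Finset ℕ → Prop) (_ : ∀ p, PairP L p → G p)
  (_ : ∀ p, G p → TrivP L p ∨ PairP L p ∨ BigP L p)
  (P Q : Finset ℕ) (_ : GoodPair L (P, Q)) (_ : BigP L (P, Q)) (_ : ¬ G (P, Q))
  (_ : ¬ G (Q, P)),
  Bounds L o (KG L fun p => G p ∨ p = (P, Q) ∨ p = (Q, P)) → Bounds L o (KG L G)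

/-- A6 -/
def S_A6 : Prop := ∀ (L : Finset (Finset ℕ)) (_ : FlagC L) (m : ℕ)
  (o : (Fin (m + 1) → ℕ) → ℤ) (_ : IsOrient L (m + 1) o),
  Bounds L o (KG L fun _ => True) → Bounds L o (KG L fun p => TrivP L p ∨ PairP L p)

/-! ### B: twisted coefficients -/

/-- B1: `dD ∘ dD = 0` -/
def S_B1 : Prop := ∀ (L : Finset (Finset ℕ)) (_ : FlagC L) (N : Type) [AddCommGroup N]
  [Module ℝ N] (e : ℕ → N →ₗ[ℝ] N) (_ : IdemSys L N e) (X : Finset ℕ)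
  (x : Finset ℕ → Finset ℕ → N), IsDD L e X x → IsDD L e X (dD L e x) ∧ dD L e (dD L e x) = 0

/-- B2: `dC ∘ dC = 0` -/
def S_B2 : Prop := ∀ (L : Finset (Finset ℕ)) (_ : FlagC L) (N : Type) [AddCommGroup N]
  [Module ℝ N] (e : ℕ → N →ₗ[ℝ] N) (_ : IdemSys L N e) (φ : Finset ℕ → N),
  IsCC L e φ → IsCC L e (dC L e φ) ∧ dC L e (dC L e φ) = 0

/-- B3: cap product with a cocycle is a chain map -/
def S_B3 : Prop := ∀ (L : Finset (Finset ℕ)) (_ : FlagC L) (N : Type) [AddCommGroup N]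
  [Module ℝ N] (e : ℕ → N →ₗ[ℝ] N) (_ : IdemSys L N e) (φ : Finset ℕ → N),
  IsCC L e φ → dC L e φ = 0 → ∀ (X : Finset ℕ) (c : Finset ℕ → ℝ),
  (∀ t, c t ≠ 0 → t ∈ L ∧ t ⊆ X) →
  IsDD L e X (capU φ c) ∧ dD L e (capU φ c) = capU φ (bdS L c)

/-- B4: contraction -/
def S_B4 : Prop := ∀ (L : Finset (Finset ℕ)) (_ : FlagC L) (N : Type) [AddCommGroup N]
  [Module ℝ N] (e : ℕ → N →ₗ[ℝ] N) (_ : IdemSys L N e) (X : Finset ℕ) (_ : X ⊆ verts L)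
  (a b : ℕ) (_ : a ∈ X) (_ : b ∈ X) (_ : a ≠ b) (_ : ¬ Adj L a b)
  (_ : ∀ c ∈ X, c ≠ a → c ≠ b → Adj L c a ∧ Adj L c b)
  (x : Finset ℕ → Finset ℕ → N), IsDD L e X x → dD L e x = 0 →
  ∃ y, IsDD L e X y ∧ dD L e y = x

/-- the properties of the map `ψ` -/
def IsPsi (L : Finset (Finset ℕ)) (ψ : ∀ k, (Fin k → Finset ℕ) → Finset ℕ → ℝ) : Prop :=
  (∀ T : Fin 0 → Finset ℕ, ψ 0 T = fun t => if t = ∅ then 1 else 0) ∧
  (∀ k (T : Fin k → Finset ℕ), KG L (TrivP L) T → ∀ t, ψ k T t ≠ 0 →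
    t ∈ L ∧ t ⊆ Wt T ∧ t.card = k) ∧
  (∀ k (T : Fin (k + 1) → Finset ℕ), KG L (TrivP L) T →
    bdS L (ψ (k + 1) T) = ∑ i : Fin (k + 1), ((-1 : ℝ) ^ (i : ℕ)) • ψ k fun j => T (i.succAbove j))

/-- B5: existence of `ψ` -/
def S_B5 : Prop := ∀ (L : Finset (Finset ℕ)) (_ : FlagC L), ∃ ψ, IsPsi L ψ

/-- B6: existence of `Ψ` -/
def S_B6 : Prop := ∀ (L : Finset (Finset ℕ)) (_ : FlagC L) (N : Type) [AddCommGroup N]
  [Module ℝ N] (e : ℕ → N →ₗ[ℝ] N) (_ : IdemSys L N e) (φ : Finset ℕ → N),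
  IsCC L e φ → dC L e φ = 0 → ∀ ψ, IsPsi L ψ →
  ∃ Ψ : ∀ k, (Fin k → Finset ℕ) → Finset ℕ → Finset ℕ → N,
    (∀ k (T : Fin k → Finset ℕ), KG L (TrivP L) T → Ψ k T = capU φ (ψ k T)) ∧
    (∀ k (T : Fin k → Finset ℕ), KG L (fun p => TrivP L p ∨ PairP L p) T →
      IsDD L e (Wt T) (Ψ k T)) ∧
    (∀ k (T : Fin (k + 1) → Finset ℕ), KG L (fun p => TrivP L p ∨ PairP L p) T →
      dD L e (Ψ (k + 1) T) =
        ∑ i : Fin (k + 1), ((-1 : ℝ) ^ (i : ℕ)) • Ψ k fun j => T (i.succAbove j))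

/-- the chain `ζ(c)` for a real function on tuples -/
noncomputable def zetaR (V : Finset ℕ) {m : ℕ} (c : (Fin (m + 1) → ℕ) → ℝ) :
    Ch (Finset ℕ) (m + 1) :=
  ∑ s ∈ Fintype.piFinset (fun _ : Fin (m + 1) => V),
    ∑ B ∈ (Finset.univ.image fun i : Fin m => s i.castSucc).powerset,
      Finsupp.single (zt s B) (c s * (-1) ^ B.card)

/-- alternating functions supported on injective tuples in `V` -/
def IsAlt (V : Finset ℕ) {n : ℕ} (c : (Fin n → ℕ) → ℝ) : Prop :=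
  (∀ (s : Fin n → ℕ) (i j : Fin n), i ≠ j → c (s ∘ Equiv.swap i j) = - c s) ∧
  (∀ s, c s ≠ 0 → Function.Injective s ∧ ∀ i, s i ∈ V)

/-- B7a: boundary of `ζ(c)` -/
def S_B7a : Prop := ∀ (V : Finset ℕ) (m : ℕ) (c : (Fin (m + 2) → ℕ) → ℝ), IsAlt V c →
  bdT (zetaR V c) = (-2 : ℝ) • zetaR V (fun g : Fin (m + 1) → ℕ => ∑ a ∈ V, c (Fin.cons a g))

/-- B7: `ψ(ζ) = (-2)^m o` -/
def S_B7 : Prop := ∀ (L : Finset (Finset ℕ)) (_ : FlagC L) (m : ℕ)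
  (o : (Fin (m + 1) → ℕ) → ℤ) (_ : IsOrient L (m + 1) o) (ψ) (_ : IsPsi L ψ),
  Finsupp.linearCombination ℝ (fun T => ψ (m + 1) T) (zeta L o) = (-2 : ℝ) ^ m • oF o

/-- B8a: homology spheres are pure -/
def S_B8a : Prop := ∀ (L : Finset (Finset ℕ)) (_ : FlagC L) (n : ℕ) (_ : IsHSphere L n),
  ∀ s ∈ L, s.card ≤ n ∧ ∃ t ∈ L, s ⊆ t ∧ t.card = n

/-- the restriction of the orientation to the link of `s` -/
noncomputable def oLk {n : ℕ} (o : (Fin n → ℕ) → ℤ) (s u : Finset ℕ) : ℝ :=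
  if Disjoint s u then sgg s u * oF o (s ∪ u) else 0

/-- `x` is an `N`-valued chain of the link of `s` of size `k`, with values in `E` -/
def LkN (L : Finset (Finset ℕ)) {N : Type} [AddCommGroup N] [Module ℝ N] (E : Submodule ℝ N)
    (s : Finset ℕ) (k : ℕ) (x : Finset ℕ → N) : Prop :=
  ∀ u, (x u ≠ 0 → u ∈ L ∧ Disjoint s u ∧ s ∪ u ∈ L ∧ u.card = k) ∧ x u ∈ E

/-- the boundary in the link of `s` for `N`-valued chains -/
def bdN (L : Finset (Finset ℕ)) {N : Type} [AddCommGroup N] [Module ℝ N]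
    (s : Finset ℕ) (x : Finset ℕ → N) (u : Finset ℕ) : N :=
  ∑ a ∈ verts L \ (s ∪ u), sg a u • x (insert a u)

/-- B8b: exactness of the link with coefficients below the top size -/
def S_B8b : Prop := ∀ (L : Finset (Finset ℕ)) (_ : FlagC L) (n : ℕ) (_ : IsHSphere L n)
  (N : Type) [AddCommGroup N] [Module ℝ N] (E : Submodule ℝ N) (s : Finset ℕ) (_ : s ∈ L)
  (k : ℕ) (_ : s.card + k ≠ n) (x : Finset ℕ → N), LkN L E s k x → bdN L s x = 0 →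
  ∃ y, LkN L E s (k + 1) y ∧ bdN L s y = x

/-- B8c: top cycles of the link with coefficients -/
def S_B8c : Prop := ∀ (L : Finset (Finset ℕ)) (_ : FlagC L) (n : ℕ) (_ : IsHSphere L n)
  (o : (Fin n → ℕ) → ℤ) (_ : IsOrient L n o)
  (N : Type) [AddCommGroup N] [Module ℝ N] (E : Submodule ℝ N) (s : Finset ℕ) (_ : s ∈ L)
  (k : ℕ) (_ : s.card + k = n) (x : Finset ℕ → N), LkN L E s k x → bdN L s x = 0 →
  ∃ y ∈ E, ∀ u, x u = oLk o s u • y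

/-- B8d: moving a filling to the top size -/
def S_B8d : Prop := ∀ (L : Finset (Finset ℕ)) (_ : FlagC L) (n : ℕ) (_ : IsHSphere L n)
  (N : Type) [AddCommGroup N] [Module ℝ N] (e : ℕ → N →ₗ[ℝ] N) (_ : IdemSys L N e)
  (x : Finset ℕ → Finset ℕ → N), IsDD L e (verts L) x →
  (∀ s u, dD L e x s u ≠ 0 → (s ∪ u).card = n) →
  ∃ x', IsDD L e (verts L) x' ∧ dD L e x' = dD L e x ∧ ∀ s u, x' s u ≠ 0 → (s ∪ u).card = n

/-- B8: from a filling of `o ∩ φ` to a primitive of `φ` -/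
def S_B8 : Prop := ∀ (L : Finset (Finset ℕ)) (_ : FlagC L) (n : ℕ) (_ : IsHSphere L n)
  (o : (Fin n → ℕ) → ℤ) (_ : IsOrient L n o) (N : Type) [AddCommGroup N]
  [Module ℝ N] (e : ℕ → N →ₗ[ℝ] N) (_ : IdemSys L N e) (φ : Finset ℕ → N),
  IsCC L e φ → dC L e φ = 0 → ∀ x, IsDD L e (verts L) x → dD L e x = capU φ (oF o) →
  ∃ ψ, IsCC L e ψ ∧ dC L e ψ = φ

/-- B9: combination of B3, B6, B7, B8 -/
def S_B9 : Prop := ∀ (L : Finset (Finset ℕ)) (_ : FlagC L) (m : ℕ) (_ : IsHSphere L (m + 1))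
  (o : (Fin (m + 1) → ℕ) → ℤ) (_ : IsOrient L (m + 1) o)
  (_ : Bounds L o (KG L fun p => TrivP L p ∨ PairP L p))
  (N : Type) [AddCommGroup N] [Module ℝ N] (e : ℕ → N →ₗ[ℝ] N) (_ : IdemSys L N e)
  (φ : Finset ℕ → N), IsCC L e φ → dC L e φ = 0 → ∃ ψ, IsCC L e ψ ∧ dC L e ψ = φ

/-- B10: existence of the coefficients -/
def S_B10 : Prop := ∀ (L : Finset (Finset ℕ)) (_ : FlagC L), ∃ e : ℕ → (Finset (verts L) → ℝ) →ₗ[ℝ]
  (Finset (verts L) → ℝ), IdemSys L (Finset (verts L) → ℝ) e ∧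
  ∀ s ∈ L, Module.finrank ℝ (Es e s) = 2 ^ ((verts L).card - s.card)

/-- B11: Euler characteristic of an exact complex -/
def S_B11 : Prop := ∀ (L : Finset (Finset ℕ)) (_ : FlagC L) (N : Type) [AddCommGroup N]
  [Module ℝ N] [FiniteDimensional ℝ N] (e : ℕ → N →ₗ[ℝ] N) (_ : IdemSys L N e),
  (∀ φ : Finset ℕ → N, IsCC L e φ → dC L e φ = 0 → ∃ ψ, IsCC L e ψ ∧ dC L e ψ = φ) →
  ∑ s ∈ L, (-1 : ℤ) ^ s.card * (Module.finrank ℝ (Es e s) : ℤ) = 0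

/-- B12a: facets of a homology sphere are connected through ridges: a set of facets which
contains with each facet all facets meeting it in `m` vertices is empty or everything -/
def S_B12a : Prop := ∀ (L : Finset (Finset ℕ)) (_ : FlagC L) (m : ℕ) (_ : IsHSphere L (m + 1))
  (F : Finset ℕ → Prop) (_ : ∀ t ∈ L, ∀ t' ∈ L, t.card = m + 1 → t'.card = m + 1 →
    (t ∩ t').card = m → F t → F t') (t0 : Finset ℕ) (_ : t0 ∈ L) (_ : t0.card = m + 1)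
  (_ : F t0), ∀ t ∈ L, t.card = m + 1 → F t

/-- B12b: a ridge is in exactly two facets -/
def S_B12b : Prop := ∀ (L : Finset (Finset ℕ)) (_ : FlagC L) (m : ℕ) (_ : IsHSphere L (m + 1)),
  ∀ r ∈ L, r.card = m → ∃ a b, a ≠ b ∧ a ∉ r ∧ b ∉ r ∧
    ∀ c, (c ∉ r ∧ insert c r ∈ L) ↔ (c = a ∨ c = b)

/-- B12: orientation of a homology sphere -/
def S_B12 : Prop := ∀ (L : Finset (Finset ℕ)) (_ : FlagC L) (m : ℕ) (_ : IsHSphere L (m + 1)),
  ∃ o : (Fin (m + 1) → ℕ) → ℤ, IsOrient L (m + 1) o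

/-- Final -/
def S_Final : Prop := ∀ (m : ℕ) (L : Finset (Finset ℕ)) (_ : IsFlag L)
  (_ : IsHSphere L (m + 1)),
  ((∀ z : SChain (RZ L) (m + 1), bd z = 0 → ∀ ε : ℝ, 0 < ε →
      ∃ b : SChain (RZ L) (m + 2), l1 (z + bd b) < ε) → eulerChar L = 0) ∧
  (eulerChar L ≠ 0 → ∃ o, IsOrient L (m + 1) o ∧ ∃ C : ℝ, 0 < C ∧
    ∀ (X : Type) [TopologicalSpace X] (f : C(X, RZ L)) (lam : ℝ)
      (z : SChain X (m + 1)) (w : SChain (RZ L) (m + 2)),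
      push f z = lam • momentCycle L (m + 1) o + bd w → C * |lam| ≤ l1 z)

end RA

end MP8a95ee
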