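import Pool.Agent.Work.MP_8a95ee_gt.R.Stmts

/-!
# B9: from a filling of `ζ` to the exactness of the twisted cochain complex
-/

set_option autoImplicit false

namespace MP8a95ee

namespace RA

namespace B9

open Finset

section

variable (L : Finset (Finset ℕ)) {N : Type} [AddCommGroup N] [Module ℝ N] (e : ℕ → N →ₗ[ℝ] N)

/-- `dD` as a linear map -/
noncomputable def dDl : (Finset ℕ → Finset ℕ → N) →ₗ[ℝ] (Finset ℕ → Finset ℕ → N) where
  toFun x := dD L e x
  map_add' x y := by
    funext s u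
    simp only [dD, Pi.add_apply]
    split_ifs
    · simp only [map_add, smul_add, Finset.sum_add_distrib]
      abel
    · simp
  map_smul' c x := by
    funext s u
    simp only [dD, Pi.smul_apply, RingHom.id_apply]
    split_ifs
    · simp only [map_smul, smul_sub, Finset.smul_sum]
      congr 1
      · exact Finset.sum_congr rfl fun a _ => smul_comm _ _ _
      · exact Finset.sum_congr rfl fun a _ => smul_comm _ _ _
    · simp

/-- the cap product as a linear map -/
noncomputable def capl (φ : Finset ℕ → N) : (Finset ℕ → ℝ) →ₗ[ℝ] (Finset ℕ → Finset ℕ → N) where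
  toFun c := capU φ c
  map_add' x y := by
    funext s u
    simp only [capU, Pi.add_apply]
    split_ifs
    · rw [← add_smul]
      congr 1
      ring
    · simp
  map_smul' c x := by
    funext s u
    simp only [capU, Pi.smul_apply, RingHom.id_apply, smul_eq_mul]
    split_ifs
    · rw [smul_smul]
      congr 1
      ring
    · simp

/-- the chains in `D` form a submodule -/
def ddS (X : Finset ℕ) : Submodule ℝ (Finset ℕ → Finset ℕ → N) where
  carrier := {x | IsDD L e X x}
  add_mem' := by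
    intro x y hx hy s u
    refine ⟨fun h => ?_, (Es e s).add_mem (hx s u).2 (hy s u).2⟩
    by_cases h1 : x s u = 0
    · refine (hy s u).1 fun h2 => h ?_
      simp [h1, h2]
    · exact (hx s u).1 h1
  zero_mem' := fun s u => ⟨fun h => absurd rfl h, (Es e s).zero_mem⟩
  smul_mem' := by
    intro c x hx s u
    refine ⟨fun h => (hx s u).1 fun h2 => h ?_, (Es e s).smul_mem c (hx s u).2⟩
    simp [h2]

theorem ddS_mono {X Y : Finset ℕ} (h : X ⊆ Y) {x : Finset ℕ → Finset ℕ → N}
    (hx : IsDD L e X x) : IsDD L e Y x := fun s u =>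
  ⟨fun h1 => ⟨((hx s u).1 h1).1, ((hx s u).1 h1).2.1, ((hx s u).1 h1).2.2.trans h⟩, (hx s u).2⟩

end

theorem sub_mem {L : Finset (Finset ℕ)} (hf : FlagC L) {σ τ : Finset ℕ} (hσ : σ ∈ L)
    (h : τ ⊆ σ) : τ ∈ L := (hf τ).2 fun x hx y hy => (hf σ).1 hσ x (h hx) y (h hy)

/-- the tuples in `ζ` -/
theorem zt_mem {L : Finset (Finset ℕ)} (hf : FlagC L) {m : ℕ} (s : Fin (m + 1) → ℕ)
    (hs : Finset.univ.image s ∈ L) (B : Finset ℕ)
    (hB : B ⊆ Finset.univ.image fun i : Fin m => s i.castSucc) (G : Finset ℕ × Finset ℕ → Prop) :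
    KG L G (zt s B) := by
  refine ⟨fun j => ⟨sub_mem hf hs ?_, ⟨s (Fin.last m), Finset.mem_insert_self _ _⟩⟩,
    Or.inl ⟨s (Fin.last m), fun j => Finset.mem_insert_self _ _⟩⟩
  intro x hx
  rcases Finset.mem_insert.1 hx with rfl | hx
  · exact Finset.mem_image_of_mem _ (Finset.mem_univ _)
  · rw [Finset.mem_symmDiff] at hx
    rcases hx with ⟨hx, -⟩ | ⟨hx, -⟩
    · obtain ⟨i, -, rfl⟩ := Finset.mem_image.1 (hB hx)
      exact Finset.mem_image_of_mem _ (Finset.mem_univ _)
    · obtain ⟨i, -, rfl⟩ := Finset.mem_image.1 hx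
      exact Finset.mem_image_of_mem _ (Finset.mem_univ _)

theorem prf (h5 : S_B5) (h6 : S_B6) (h7 : S_B7) (h8 : S_B8) : S_B9 := by
  intro L hf m hS o ho hb N _ _ e he φ hφ hdφ
  obtain ⟨b, hbK, hbz⟩ := hb
  obtain ⟨ψ, hψ⟩ := h5 L hf
  obtain ⟨Ψ, hΨ1, hΨ2, hΨ3⟩ := h6 L hf N e he φ hφ hdφ ψ hψ
  have h7' := h7 L hf m o ho ψ hψ
  set x : Finset ℕ → Finset ℕ → N := Finsupp.linearCombination ℝ (fun T => Ψ (m + 2) T) b with hx
  have hxD : IsDD L e (verts L) x := by
    have h1 : x ∈ ddS L e (verts L) := by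
      rw [hx, Finsupp.linearCombination_apply]
      refine Submodule.sum_mem _ fun T hT => Submodule.smul_mem _ _ ?_
      have hK := hbK T hT
      refine ddS_mono L e ?_ (hΨ2 _ T hK)
      intro y hy
      obtain ⟨i, -, hi⟩ := Finset.mem_biUnion.1 hy
      exact Finset.mem_biUnion.2 ⟨T i, (hK.1 i).1, hi⟩
    exact h1
  have hdx : dD L e x = Finsupp.linearCombination ℝ (fun T => Ψ (m + 1) T) (bdT b) := by
    have h1 : dDl L e x = Finsupp.linearCombination ℝ (fun T => Ψ (m + 1) T) (bdT b) := by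
      have hb2 : bdT b = ∑ T ∈ b.support, b T • bdT0 T := by
        rw [bdT, Finsupp.linearCombination_apply, Finsupp.sum]
      rw [hb2, hx, Finsupp.linearCombination_apply, Finsupp.sum, map_sum, map_sum]
      refine Finset.sum_congr rfl fun T hT => ?_
      rw [map_smul, map_smul]
      congr 1
      have h2 := hΨ3 (m + 1) T (hbK T hT)
      show dD L e (Ψ (m + 1 + 1) T) = _
      rw [h2, bdT0, map_sum]
      refine Finset.sum_congr rfl fun i _ => ?_
      rw [Finsupp.linearCombination_single]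
    exact h1
  have hz : Finsupp.linearCombination ℝ (fun T => Ψ (m + 1) T) (zeta L o) =
      capl φ (Finsupp.linearCombination ℝ (fun T => ψ (m + 1) T) (zeta L o)) := by
    unfold zeta
    simp only [map_sum, Finsupp.linearCombination_single, map_smul]
    refine Finset.sum_congr rfl fun s _ => Finset.sum_congr rfl fun B hB => ?_
    by_cases hos : o s = 0
    · simp [hos]
    congr 1
    exact hΨ1 _ _ (zt_mem hf s (ho.2.1 s hos) B (Finset.mem_powerset.1 hB) _)
  rw [hbz, hz, h7', map_smul] at hdx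
  have hne : ((-2 : ℝ) ^ m) ≠ 0 := pow_ne_zero _ (by norm_num)
  refine h8 L hf (m + 1) hS o ho N e he φ hφ hdφ (((-2 : ℝ) ^ m)⁻¹ • x)
    ((ddS L e (verts L)).smul_mem _ hxD) ?_
  have h9 : dD L e (((-2 : ℝ) ^ m)⁻¹ • x) = ((-2 : ℝ) ^ m)⁻¹ • dD L e x := (dDl L e).map_smul _ _
  rw [h9, hdx, smul_smul, inv_mul_cancel₀ hne, one_smul]
  rfl

end B9

end RA

end MP8a95ee
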