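import Pool.Agent.Work.MP_8a95ee_gt.R.Defs

/-!
# The right-angled Coxeter group of a graph
-/

namespace MP8a95ee

namespace RA

open Classical in
/-- the Coxeter matrix: `1` on the diagonal, `2` for adjacent labels, infinite (`0`) otherwise -/
noncomputable def cm (V : Finset ℕ) (adj : ℕ → ℕ → Prop) (hs : ∀ a b, adj a b → adj b a) :
    CoxeterMatrix V where
  M := Matrix.of fun i j => if i = j then 1 else if adj i j then 2 else 0
  isSymm := by
    ext i j
    simp only [Matrix.transpose_apply, Matrix.of_apply]
    have : adj i j ↔ adj j i := ⟨hs _ _, hs _ _⟩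
    by_cases h : i = j
    · subst h; rfl
    · rw [if_neg h, if_neg (Ne.symm h)]
      simp only [this]
  diagonal := fun i => by simp
  off_diagonal := fun i j h => by
    simp only [Matrix.of_apply, if_neg h]
    split <;> decide

/-- the Coxeter group -/
abbrev WG (V : Finset ℕ) (adj : ℕ → ℕ → Prop) (hs : ∀ a b, adj a b → adj b a) : Type :=
  (cm V adj hs).Group

/-- the Coxeter system -/
noncomputable abbrev cs (V : Finset ℕ) (adj : ℕ → ℕ → Prop) (hs : ∀ a b, adj a b → adj b a) :
    CoxeterSystem (cm V adj hs) (WG V adj hs) :=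
  (cm V adj hs).toCoxeterSystem

/-- the generators -/
noncomputable abbrev rr (V : Finset ℕ) (adj : ℕ → ℕ → Prop) (hs : ∀ a b, adj a b → adj b a)
    (a : V) : WG V adj hs :=
  (cs V adj hs).simple a

open Classical in
/-- `N x t` is the parity of the number of times a way from `1` to `x` crosses the wall of the
reflection `t` -/
def IsPar (V : Finset ℕ) (adj : ℕ → ℕ → Prop) (hs : ∀ a b, adj a b → adj b a)
    (N : WG V adj hs → WG V adj hs → ZMod 2) : Prop :=
  (∀ t, N 1 t = 0) ∧ ∀ x a t, N (x * rr V adj hs a) t =
    N x t + if t = x * rr V adj hs a * x⁻¹ then 1 else 0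

end RA

end MP8a95ee
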