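import Pool.Agent.Work.MP_8a95ee_gt.B6
import Pool.Agent.Work.MP_8a95ee_gt.DefsE

/-!
# Gromov's question for all right-angled Coxeter manifolds: definitions

Auxiliary definitions for the proof.  `L` is a finite flag complex on natural numbers.
-/

namespace MP8a95ee

namespace RA

/-! ### signs, simplicial chains of links, homology spheres -/

/-- the sign of moving `a` into its place in the increasingly ordered set `t` -/
def sg (a : ℕ) (t : Finset ℕ) : ℝ := (-1) ^ (t.filter fun b => b < a).card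

/-- the boundary of a simplicial chain, written as a function on finite sets of vertices -/
def bdS (L : Finset (Finset ℕ)) (c : Finset ℕ → ℝ) (t : Finset ℕ) : ℝ :=
  ∑ a ∈ verts L \ t, sg a t * c (insert a t)

/-- `c` is a real simplicial chain of the link of `s` in `L`, a combination of faces of the link
with `k` vertices -/
def LkChain (L : Finset (Finset ℕ)) (s : Finset ℕ) (k : ℕ) (c : Finset ℕ → ℝ) : Prop :=
  ∀ t, c t ≠ 0 → t ∈ L ∧ Disjoint s t ∧ s ∪ t ∈ L ∧ t.card = k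

/-- every link of `L` (`L` itself included) has the reduced real homology of a sphere of
dimension `n - 1 - |s|` -/
def IsHSphere (L : Finset (Finset ℕ)) (n : ℕ) : Prop :=
  ∀ s ∈ L,
    (∀ k, s.card + k ≠ n → ∀ c, LkChain L s k c → bdS L c = 0 →
      ∃ c', LkChain L s (k + 1) c' ∧ bdS L c' = c) ∧
    (∀ k, s.card + k = n → ∃ z, LkChain L s k z ∧ bdS L z = 0 ∧
      (¬ ∃ c', LkChain L s (k + 1) c' ∧ bdS L c' = z) ∧
      ∀ c, LkChain L s k c → bdS L c = 0 →
        ∃ (lam : ℝ) (c' : Finset ℕ → ℝ), LkChain L s (k + 1) c' ∧ c = lam • z + bdS L c')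

/-- adjacent vertices -/
def Adj (L : Finset (Finset ℕ)) (a b : ℕ) : Prop := a ≠ b ∧ ({a, b} : Finset ℕ) ∈ L

/-! ### tuples of simplices -/

/-- common vertex -/
def InK {k : ℕ} (T : Fin k → Finset ℕ) : Prop := ∃ u, ∀ i, u ∈ T i

/-- all entries are of the form `P ∪ τ` or `Q ∪ τ`, `τ` adjacent to all of `P ∪ Q` -/
def FPQ (L : Finset (Finset ℕ)) (P Q : Finset ℕ) {k : ℕ} (T : Fin k → Finset ℕ) : Prop :=
  ∀ i, ((P ⊆ T i ∧ Disjoint Q (T i)) ∨ (Q ⊆ T i ∧ Disjoint P (T i))) ∧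
    ∀ t ∈ T i, t ∉ P ∪ Q → ∀ c ∈ P ∪ Q, Adj L t c

/-- the pairs `(P, Q)` which may occur -/
def GoodPair (L : Finset (Finset ℕ)) (p : Finset ℕ × Finset ℕ) : Prop :=
  p.1 ∈ L ∧ p.2 ∈ L ∧ p.1.Nonempty ∧ p.2.Nonempty ∧ Disjoint p.1 p.2

/-- tuples of nonempty simplices with a common vertex or contained in some `F_{P,Q}` with
`(P, Q)` in the family `G` -/
def KG (L : Finset (Finset ℕ)) (G : Finset ℕ × Finset ℕ → Prop) {k : ℕ}
    (T : Fin k → Finset ℕ) : Prop :=
  (∀ i, T i ∈ L ∧ (T i).Nonempty) ∧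
    (InK T ∨ ∃ p : Finset ℕ × Finset ℕ, GoodPair L p ∧ G p ∧ FPQ L p.1 p.2 T)

/-- `P ∪ Q` is a simplex -/
def TrivP (L : Finset (Finset ℕ)) (p : Finset ℕ × Finset ℕ) : Prop := p.1 ∪ p.2 ∈ L

/-- a pair of nonadjacent vertices -/
def PairP (L : Finset (Finset ℕ)) (p : Finset ℕ × Finset ℕ) : Prop :=
  ∃ a b : ℕ, a ≠ b ∧ ¬ Adj L a b ∧ p = ({a}, {b})

/-- `P ∪ Q` has at least three elements and is connected in the complement graph -/
def BigP (L : Finset (Finset ℕ)) (p : Finset ℕ × Finset ℕ) : Prop :=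
  3 ≤ (p.1 ∪ p.2).card ∧
    ∀ D ⊆ p.1 ∪ p.2, D.Nonempty → D ≠ p.1 ∪ p.2 → ∃ a ∈ D, ∃ b ∈ p.1 ∪ p.2, b ∉ D ∧ ¬ Adj L a b

/-- coboundary of a function on tuples -/
def dl {S : Type} {M : Type} [AddCommGroup M] [Module ℝ M] {k : ℕ} (f : (Fin k → S) → M)
    (T : Fin (k + 1) → S) : M :=
  ∑ i : Fin (k + 1), ((-1 : ℝ) ^ (i : ℕ)) • f fun j => T (i.succAbove j)

/-- chains of ordered tuples -/
abbrev Ch (S : Type) (k : ℕ) : Type := (Fin k → S) →₀ ℝ

/-- boundary of a tuple -/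
noncomputable def bdT0 {S : Type} {k : ℕ} (T : Fin (k + 1) → S) : Ch S k :=
  ∑ i : Fin (k + 1), Finsupp.single (fun j => T (i.succAbove j)) ((-1 : ℝ) ^ (i : ℕ))

/-- boundary of chains of ordered tuples -/
noncomputable def bdT {S : Type} {k : ℕ} : Ch S (k + 1) →ₗ[ℝ] Ch S k :=
  Finsupp.linearCombination ℝ bdT0

/-- the entries of the tuples in the chain `ζ` -/
def zt {m : ℕ} (s : Fin (m + 1) → ℕ) (B : Finset ℕ) (j : Fin (m + 1)) : Finset ℕ :=
  insert (s (Fin.last m))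
    (symmDiff B ((Finset.univ.filter fun i : Fin m => (i : ℕ) < (j : ℕ)).image
      fun i => s i.castSucc))

/-- the chain `ζ(o)` of tuples of simplices with a common vertex -/
noncomputable def zeta (L : Finset (Finset ℕ)) {m : ℕ} (o : (Fin (m + 1) → ℕ) → ℤ) :
    Ch (Finset ℕ) (m + 1) :=
  ∑ s ∈ Fintype.piFinset (fun _ : Fin (m + 1) => verts L),
    ∑ B ∈ (Finset.univ.image fun i : Fin m => s i.castSucc).powerset,
      Finsupp.single (zt s B) ((o s : ℝ) * (-1) ^ B.card)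

/-- `ζ(o)` bounds a chain supported in the family `A` -/
def Bounds (L : Finset (Finset ℕ)) {m : ℕ} (o : (Fin (m + 1) → ℕ) → ℤ)
    (A : (Fin (m + 2) → Finset ℕ) → Prop) : Prop :=
  ∃ b : Ch (Finset ℕ) (m + 2), (∀ T ∈ b.support, A T) ∧ bdT b = zeta L o

/-! ### walls of right-angled Coxeter groups -/

/-- a group with involutions `r a` (`a` in the finite set `V`), commuting for adjacent labels,
acting on a set of labelled walls; a wall has two sides; `wall x a` is the wall between `x` and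
`x * r a` -/
structure WallData (V : Finset ℕ) (adj : ℕ → ℕ → Prop) where
  G : Type
  [grp : Group G]
  χ : G →* ℤˣ
  r : ℕ → G
  sq : ∀ a ∈ V, r a * r a = 1
  comm : ∀ a ∈ V, ∀ b ∈ V, adj a b → r a * r b = r b * r a
  χr : ∀ a ∈ V, χ (r a) = -1
  Wl : Type
  wall : G → ℕ → Wl
  lab : Wl → ℕ
  side : Wl → G → Bool
  lab_mem : ∀ h, lab h ∈ V
  lab_wall : ∀ x, ∀ a ∈ V, lab (wall x a) = a
  step : ∀ x, ∀ a ∈ V, ∀ h, side h (x * r a) ≠ side h x ↔ h = wall x a
  move : ∀ x, ∀ a ∈ V, ∀ b ∈ V, adj a b → wall (x * r b) a = wall x a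
  act : G → Wl → Wl
  act_wall : ∀ g x, ∀ a ∈ V, act g (wall x a) = wall (g * x) a
  act_side : ∀ g h x y, (side (act g h) (g * x) = side (act g h) (g * y)) ↔ side h x = side h y
  fin : ∀ x y, {h | side h x ≠ side h y}.Finite
  first : ∀ x y, x ≠ y → ∃ a ∈ V, side (wall x a) x ≠ side (wall x a) y
  cross : ∀ h h', h ≠ h' → (lab h = lab h' ∨ ¬ adj (lab h) (lab h')) →
    ¬ ∀ p q : Bool, ∃ x, side h x = p ∧ side h' x = q

attribute [instance] WallData.grp

/-- first letters of the way from `x` to `v` -/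
noncomputable def WallData.In {V : Finset ℕ} {adj : ℕ → ℕ → Prop} (D : WallData V adj) (x v : D.G) :
    Finset ℕ :=
  V.filter fun a => D.side (D.wall x a) x ≠ D.side (D.wall x a) v

/-! ### linear algebra -/

/-- the common range of the idempotents `e a`, `a ∈ s` -/
def Es {N : Type} [AddCommGroup N] [Module ℝ N] (e : ℕ → N →ₗ[ℝ] N) (s : Finset ℕ) :
    Submodule ℝ N where
  carrier := {x | ∀ a ∈ s, e a x = x}
  add_mem' := fun {x y} hx hy a ha => by rw [map_add, hx a ha, hy a ha]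
  zero_mem' := fun a _ => map_zero _
  smul_mem' := fun c x hx a ha => by rw [map_smul, hx a ha]

/-- idempotents, commuting for adjacent vertices and independent for nonadjacent ones -/
structure IdemSys (L : Finset (Finset ℕ)) (N : Type) [AddCommGroup N] [Module ℝ N]
    (e : ℕ → N →ₗ[ℝ] N) : Prop where
  idem : ∀ a x, e a (e a x) = e a x
  comm : ∀ a b, Adj L a b → ∀ x, e a (e b x) = e b (e a x)
  iso : ∀ a ∈ verts L, ∀ b ∈ verts L, a ≠ b → ¬ Adj L a b → ∀ m m', e a m = m → e b m' = m' →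
    ∃! g, e a g = m ∧ e b g = m'

section

variable (L : Finset (Finset ℕ)) {N : Type} [AddCommGroup N] [Module ℝ N] (e : ℕ → N →ₗ[ℝ] N)

/-- cochains with coefficients in `N` -/
def IsCC (φ : Finset ℕ → N) : Prop := ∀ s, (φ s ≠ 0 → s ∈ L) ∧ φ s ∈ Es e s

/-- coboundary -/
def dC (φ : Finset ℕ → N) (s : Finset ℕ) : N :=
  if s ∈ L then ∑ a ∈ s, sg a (s.erase a) • e a (φ (s.erase a)) else 0

/-- the chains of the subdivided complex, supported in `X` -/
def IsDD (X : Finset ℕ) (x : Finset ℕ → Finset ℕ → N) : Prop :=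
  ∀ s u, (x s u ≠ 0 → Disjoint s u ∧ s ∪ u ∈ L ∧ s ∪ u ⊆ X) ∧ x s u ∈ Es e s

/-- the boundary of the subdivided complex -/
def dD (x : Finset ℕ → Finset ℕ → N) (s u : Finset ℕ) : N :=
  if Disjoint s u then
    (∑ a ∈ s, sg a u • e a (x (s.erase a) (insert a u)))
      - ∑ a ∈ verts L \ (s ∪ u), sg a u • x s (insert a u)
  else 0

/-- product of the signs between two sets -/
def sgg (s u : Finset ℕ) : ℝ := ∏ a ∈ s, sg a u

/-- cap product of a chain with a cochain -/
def capU (φ : Finset ℕ → N) (c : Finset ℕ → ℝ) (s u : Finset ℕ) : N :=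
  if Disjoint s u then ((-1 : ℝ) ^ ((s.card + 1) * u.card) * sgg s u * c (s ∪ u)) • φ s else 0

end

/-- the union of the entries of a tuple -/
def Wt {k : ℕ} (T : Fin k → Finset ℕ) : Finset ℕ := Finset.univ.biUnion T

/-- the function on sets given by an alternating function on tuples -/
noncomputable def oF {n : ℕ} (o : (Fin n → ℕ) → ℤ) (t : Finset ℕ) : ℝ :=
  if h : t.card = n then (o (t.orderEmbOfFin h) : ℝ) else 0

end RA

end MP8a95ee
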