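import Pool.Agent.Work.MP_8a95ee_gt.R.Stmts
import Pool.Agent.Work.MP_8a95ee_gt.R.Bas

/-!
# B4: contraction
-/

namespace MP8a95ee

namespace RA

namespace IB4

variable {L : Finset (Finset ℕ)} {N : Type} [AddCommGroup N] [Module ℝ N] {e : ℕ → N →ₗ[ℝ] N}

/-- the part of the boundary with elements outside `W` -/
def dY (L : Finset (Finset ℕ)) (e : ℕ → N →ₗ[ℝ] N) (W : Finset ℕ) (f : Finset ℕ → Finset ℕ → N)
    (s u : Finset ℕ) : N :=
  (∑ c ∈ s, sg c u • e c (f (s.erase c) (insert c u)))
    - ∑ c ∈ (verts L \ (s ∪ u)) \ W, sg c u • f s (insert c u)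

omit [Module ℝ N] in
theorem sum_two {V S W : Finset ℕ} {a b : ℕ} (hW : ∀ c, c ∈ W ↔ c = a ∨ c = b)
    (ha : a ∈ V) (hb : b ∈ V) (hab : a ≠ b) (haS : a ∉ S) (hbS : b ∉ S) (g : ℕ → N) :
    ∑ c ∈ V \ S, g c = g a + (g b + ∑ c ∈ (V \ S) \ W, g c) := by
  have h1 : V \ S = insert a (insert b ((V \ S) \ W)) := by
    ext c
    simp only [Finset.mem_sdiff, Finset.mem_insert, hW]
    constructor
    · rintro ⟨h1, h2⟩
      by_cases h3 : c = a
      · exact Or.inl h3
      · by_cases h4 : c = b
        · exact Or.inr (Or.inl h4)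
        · exact Or.inr (Or.inr ⟨⟨h1, h2⟩, by tauto⟩)
    · rintro (h | h | h)
      · rw [h]; exact ⟨ha, haS⟩
      · rw [h]; exact ⟨hb, hbS⟩
      · exact h.1
  have h2 : a ∉ insert b ((V \ S) \ W) := by
    simp only [Finset.mem_insert, Finset.mem_sdiff, hW]
    tauto
  have h3 : b ∉ (V \ S) \ W := by
    simp only [Finset.mem_sdiff, hW]
    tauto
  conv_lhs => rw [h1, Finset.sum_insert h2, Finset.sum_insert h3]

omit [Module ℝ N] in
theorem sum_one {V S S' W : Finset ℕ} {a b : ℕ} (hW : ∀ c, c ∈ W ↔ c = a ∨ c = b)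
    (hb : b ∈ V) (hab : a ≠ b) (hS' : ∀ c, c ∈ S' ↔ c = a ∨ c ∈ S) (hbS : b ∉ S)
    (g : ℕ → N) :
    ∑ c ∈ V \ S', g c = g b + ∑ c ∈ (V \ S) \ W, g c := by
  have h1 : V \ S' = insert b ((V \ S) \ W) := by
    ext c
    simp only [Finset.mem_sdiff, Finset.mem_insert, hW, hS']
    constructor
    · rintro ⟨h1, h2⟩
      by_cases h4 : c = b
      · exact Or.inl h4
      · exact Or.inr ⟨⟨h1, by tauto⟩, by tauto⟩
    · rintro (h | h)
      · rw [h]
        refine ⟨hb, ?_⟩
        rintro (h2 | h2)
        · exact hab h2.symm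
        · exact hbS h2
      · exact ⟨h.1.1, by tauto⟩
  have h3 : b ∉ (V \ S) \ W := by
    simp only [Finset.mem_sdiff, hW]
    tauto
  rw [h1, Finset.sum_insert h3]

section

variable {W : Finset ℕ} {a b : ℕ} (hW : ∀ c, c ∈ W ↔ c = a ∨ c = b)
  (ha : a ∈ verts L) (hb : b ∈ verts L) (hab : a ≠ b)

include hW hb hab

include ha in
theorem F1 (f : Finset ℕ → Finset ℕ → N) {s u : Finset ℕ} (hd : Disjoint s u) (has : a ∉ s)
    (hau : a ∉ u) (hbs : b ∉ s) (hbu : b ∉ u) :
    dD L e f s u = dY L e W f s u - sg a u • f s (insert a u) - sg b u • f s (insert b u) := by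
  unfold dD dY
  rw [if_pos hd, sum_two hW ha hb hab (by simp [has, hau]) (by simp [hbs, hbu])]
  abel

theorem F2 (f : Finset ℕ → Finset ℕ → N) {s u : Finset ℕ} (hd : Disjoint s u) (has : a ∉ s)
    (hau : a ∉ u) (hbs : b ∉ s) (hbu : b ∉ u) :
    dD L e f (insert a s) u = sg a u • e a (f s (insert a u)) +
      dY L e W (fun s u => f (insert a s) u) s u - sg b u • f (insert a s) (insert b u) := by
  unfold dD dY
  rw [if_pos (Finset.disjoint_insert_left.2 ⟨hau, hd⟩), Finset.sum_insert has,
    Finset.erase_insert has, sum_one hW hb hab (S := s ∪ u) (S' := insert a s ∪ u)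
      (by intro c; simp) (by simp [hbs, hbu])]
  have h1 : ∑ c ∈ s, sg c u • e c (f ((insert a s).erase c) (insert c u)) =
      ∑ c ∈ s, sg c u • e c (f (insert a (s.erase c)) (insert c u)) := by
    refine Finset.sum_congr rfl fun c hc => ?_
    rw [Finset.erase_insert_of_ne]
    rintro rfl
    exact has hc
  rw [h1]
  abel

theorem F3 (f fa : Finset ℕ → Finset ℕ → N) {s u : Finset ℕ} (hd : Disjoint s u) (has : a ∉ s)
    (hau : a ∉ u) (hbs : b ∉ s) (hbu : b ∉ u)
    (hfa : ∀ s' u', a ∉ s' → b ∉ s' → a ∉ u' → b ∉ u' → f s' (insert a u') = sg a u' • fa s' u')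
    (hfb : f s (insert b (insert a u)) = 0) :
    dD L e f s (insert a u) = -(sg a u • dY L e W fa s u) := by
  unfold dD dY
  rw [if_pos (Finset.disjoint_insert_right.2 ⟨has, hd⟩),
    sum_one hW hb hab (S := s ∪ u) (S' := s ∪ insert a u)
      (by intro c; simp only [Finset.mem_union, Finset.mem_insert]; tauto) (by simp [hbs, hbu]),
    hfb, smul_zero, zero_add, smul_sub, neg_sub, sub_eq_add_neg, add_comm, Finset.smul_sum,
    Finset.smul_sum, ← Finset.sum_neg_distrib]
  rw [sub_eq_add_neg, ← Finset.sum_neg_distrib (s := s)]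
  congr 1
  · refine Finset.sum_congr rfl fun c hc => ?_
    simp only [Finset.mem_sdiff, Finset.mem_union, hW] at hc
    have h1 : c ≠ a := fun h => hc.2 (Or.inl h)
    have h2 : c ≠ b := fun h => hc.2 (Or.inr h)
    have h3 : c ∉ u := fun h => hc.1.2 (Or.inr h)
    rw [Finset.insert_comm, hfa s (insert c u) has hbs
      (by simp [hau, Ne.symm h1]) (by simp [hbu, Ne.symm h2]), smul_smul, smul_smul,
      sg_anti' hau h3 h1.symm, neg_smul, neg_neg, mul_comm]
  · refine Finset.sum_congr rfl fun c hc => ?_
    have h1 : c ≠ a := fun h => has (h ▸ hc)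
    have h2 : c ≠ b := fun h => hbs (h ▸ hc)
    have h3 : c ∉ u := fun h => Finset.disjoint_left.1 hd hc h
    rw [Finset.insert_comm, hfa (s.erase c) (insert c u)
      (fun h => has (Finset.mem_of_mem_erase h)) (fun h => hbs (Finset.mem_of_mem_erase h))
      (by simp [hau, Ne.symm h1]) (by simp [hbu, Ne.symm h2]), map_smul, smul_smul, smul_smul,
      sg_anti' hau h3 h1.symm, neg_smul, mul_comm]

end

theorem dY_zero (W : Finset ℕ) {f : Finset ℕ → Finset ℕ → N} {s u : Finset ℕ}
    (h1 : ∀ c ∈ s, f (s.erase c) (insert c u) = 0)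
    (h2 : ∀ c, c ∉ W → f s (insert c u) = 0) : dY L e W f s u = 0 := by
  unfold dY
  rw [Finset.sum_eq_zero, Finset.sum_eq_zero, sub_zero]
  · intro c hc
    rw [h2 c (Finset.mem_sdiff.1 hc).2, smul_zero]
  · intro c hc
    rw [h1 c hc, map_zero, smul_zero]

theorem dY_neg_sub (W : Finset ℕ) (f g : Finset ℕ → Finset ℕ → N) (s u : Finset ℕ) :
    dY L e W (fun s u => -f s u - g s u) s u = -dY L e W f s u - dY L e W g s u := by
  unfold dY
  simp only [map_sub, map_neg, smul_sub, smul_neg, Finset.sum_sub_distrib, Finset.sum_neg_distrib]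
  abel

theorem map_dY (W : Finset ℕ) (f : Finset ℕ → Finset ℕ → N) (s u : Finset ℕ) (a : ℕ)
    (h : ∀ c ∈ s, e a (e c (f (s.erase c) (insert c u))) =
      e c (e a (f (s.erase c) (insert c u)))) :
    e a (dY L e W f s u) = dY L e W (fun s u => e a (f s u)) s u := by
  unfold dY
  rw [map_sub, map_sum, map_sum]
  congr 1
  · refine Finset.sum_congr rfl fun c hc => ?_
    rw [map_smul, h c hc]
  · refine Finset.sum_congr rfl fun c _ => ?_
    rw [map_smul]

theorem uniq (he : IdemSys L N e) {a b : ℕ} (ha : a ∈ verts L) (hb : b ∈ verts L) (hab : a ≠ b)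
    (hna : ¬ Adj L a b) {g g' : N} (h1 : e a g = e a g') (h2 : e b g = e b g') : g = g' := by
  obtain ⟨z, -, hz⟩ := he.iso a ha b hb hab hna (e a g') (e b g') (he.idem a g') (he.idem b g')
  rw [hz g ⟨h1, h2⟩, hz g' ⟨rfl, rfl⟩]

end IB4

open IB4 in
theorem itemB4 : S_B4 := by
  classical
  intro L hf N _ _ e he X hX a b haX hbX hab hna hadj x hx hdx
  have ha := hX haX
  have hb := hX hbX
  have hma : ∀ s u, e a (x (insert a s) u) = x (insert a s) u := fun s u =>
    (hx (insert a s) u).2 a (Finset.mem_insert_self _ _)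
  have hmb : ∀ s u, e b (x (insert b s) u) = x (insert b s) u := fun s u =>
    (hx (insert b s) u).2 b (Finset.mem_insert_self _ _)
  have hex : ∀ s u, ∃ w, e a w = -x (insert a s) u - e a (x s u) ∧
      e b w = x (insert b s) u := by
    intro s u
    obtain ⟨w, hw, -⟩ := he.iso a ha b hb hab hna (-x (insert a s) u - e a (x s u))
      (x (insert b s) u) (by rw [map_sub, map_neg, hma, he.idem]) (hmb s u)
    exact ⟨w, hw⟩
  choose w hwa hwb using hex
  obtain ⟨v, hv⟩ : ∃ v : Finset ℕ → Finset ℕ → N, ∀ s u, v s u = -w s u - x s u :=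
    ⟨fun s u => -w s u - x s u, fun _ _ => rfl⟩
  have hva : ∀ s u, e a (v s u) = x (insert a s) u := by
    intro s u
    rw [hv, map_sub, map_neg, hwa]
    abel
  -- support
  have hsupp : ∀ s u, ¬ (Disjoint s u ∧ s ∪ u ∈ L ∧ s ∪ u ⊆ X) →
      x s u = 0 ∧ w s u = 0 ∧ v s u = 0 := by
    intro s u hP
    have h0 : x s u = 0 := by
      by_contra h
      exact hP ((hx s u).1 h)
    have h1 : ∀ c, x (insert c s) u = 0 := by
      intro c
      by_contra h
      obtain ⟨h2, h3, h4⟩ := (hx (insert c s) u).1 h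
      have h5 : s ∪ u ⊆ insert c s ∪ u := Finset.union_subset_union_left (Finset.subset_insert _ _)
      exact hP ⟨(Finset.disjoint_insert_left.1 h2).2, hf.mono h3 h5, h5.trans h4⟩
    have h2 : w s u = 0 := by
      apply uniq he ha hb hab hna
      · rw [hwa, h1, h0, map_zero, neg_zero, sub_zero]
      · rw [hwb, h1, map_zero]
    exact ⟨h0, h2, by rw [hv, h2, h0, neg_zero, sub_zero]⟩
  have hcomma : ∀ c, c ≠ a → c ≠ b → ∀ z : N, (z ≠ 0 → c ∈ X) → e a (e c z) = e c (e a z) := by
    intro c h1 h2 z h3
    by_cases hz : z = 0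
    · rw [hz, map_zero, map_zero, map_zero]
    · exact he.comm a c (adj_symm (hadj c (h3 hz) h1 h2).1) z
  have hcommb : ∀ c, c ≠ a → c ≠ b → ∀ z : N, (z ≠ 0 → c ∈ X) → e b (e c z) = e c (e b z) := by
    intro c h1 h2 z h3
    by_cases hz : z = 0
    · rw [hz, map_zero, map_zero, map_zero]
    · exact he.comm b c (adj_symm (hadj c (h3 hz) h1 h2).2) z
  -- fixed by the idempotents of `s`
  have hwE : ∀ s u, a ∉ s → b ∉ s → ∀ c ∈ s, e c (w s u) = w s u := by
    intro s u has hbs c hc
    by_cases hP : Disjoint s u ∧ s ∪ u ∈ L ∧ s ∪ u ⊆ X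
    · have hcX : c ∈ X := hP.2.2 (Finset.mem_union_left _ hc)
      have h1 : c ≠ a := fun h => has (h ▸ hc)
      have h2 : c ≠ b := fun h => hbs (h ▸ hc)
      apply uniq he ha hb hab hna
      · rw [hcomma c h1 h2 _ fun _ => hcX, hwa, map_sub, map_neg,
          (hx (insert a s) u).2 c (Finset.mem_insert_of_mem hc),
          ← hcomma c h1 h2 _ fun _ => hcX, (hx s u).2 c hc]
      · rw [hcommb c h1 h2 _ fun _ => hcX, hwb,
          (hx (insert b s) u).2 c (Finset.mem_insert_of_mem hc)]
    · rw [(hsupp s u hP).2.1, map_zero]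
  have hvE : ∀ s u, a ∉ s → b ∉ s → ∀ c ∈ s, e c (v s u) = v s u := by
    intro s u has hbs c hc
    rw [hv, map_sub, map_neg, hwE s u has hbs c hc, (hx s u).2 c hc]
  have hx0 : ∀ s u, a ∈ s ∪ u → b ∈ s ∪ u → x s u = 0 := by
    intro s u h1 h2
    by_contra h
    exact hna (adj_of_mem hf ((hx s u).1 h).2.1 h1 h2 hab)
  obtain ⟨W, hW⟩ : ∃ W : Finset ℕ, ∀ c, c ∈ W ↔ c = a ∨ c = b :=
    ⟨{a, b}, fun c => by rw [Finset.mem_insert, Finset.mem_singleton]⟩
  have hW' : ∀ c, c ∈ W ↔ c = b ∨ c = a := fun c => (hW c).trans or_comm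
  have hd0 : ∀ s u, dD L e x s u = 0 := fun s u => by rw [hdx]; rfl
  have E0 : ∀ s u, Disjoint s u → a ∉ s → a ∉ u → b ∉ s → b ∉ u →
      dY L e W x s u = sg a u • x s (insert a u) + sg b u • x s (insert b u) := by
    intro s u hd has hau hbs hbu
    have h1 := F1 hW ha hb hab (e := e) x hd has hau hbs hbu
    rw [hd0] at h1
    rw [eq_comm, sub_sub, sub_eq_zero] at h1
    exact h1
  have Ea : ∀ s u, Disjoint s u → a ∉ s → a ∉ u → b ∉ s → b ∉ u →
      dY L e W (fun s u => x (insert a s) u) s u = -(sg a u • e a (x s (insert a u))) := by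
    intro s u hd has hau hbs hbu
    have h1 := F2 hW hb hab (e := e) x hd has hau hbs hbu
    rw [hd0, hx0 (insert a s) (insert b u) (by simp) (by simp), smul_zero, sub_zero] at h1
    exact (neg_eq_of_add_eq_zero_right h1.symm).symm
  have Eb : ∀ s u, Disjoint s u → a ∉ s → a ∉ u → b ∉ s → b ∉ u →
      dY L e W (fun s u => x (insert b s) u) s u = -(sg b u • e b (x s (insert b u))) := by
    intro s u hd has hau hbs hbu
    have h1 := F2 hW' ha hab.symm (e := e) x hd hbs hbu has hau
    rw [hd0, hx0 (insert b s) (insert a u) (by simp) (by simp), smul_zero, sub_zero] at h1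
    exact (neg_eq_of_add_eq_zero_right h1.symm).symm
  have hwX : ∀ (s u : Finset ℕ) (c : ℕ), c ∈ s → w (s.erase c) (insert c u) ≠ 0 → c ∈ X := by
    intro s u c _ h
    by_contra hc
    apply h
    refine (hsupp _ _ fun hP => hc (hP.2.2 ?_)).2.1
    exact Finset.mem_union_right _ (Finset.mem_insert_self _ _)
  have hdw : ∀ s u, Disjoint s u → a ∉ s → a ∉ u → b ∉ s → b ∉ u →
      dY L e W w s u = -(sg b u • x s (insert b u)) := by
    intro s u hd has hau hbs hbu
    apply uniq he ha hb hab hna
    · rw [map_dY W w s u a fun c hc => hcomma c (fun h => has (h ▸ hc)) (fun h => hbs (h ▸ hc)) _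
        (hwX s u c hc)]
      have h1 : (fun s u => e a (w s u)) = fun s u => -x (insert a s) u - e a (x s u) := by
        funext s u
        exact hwa s u
      have h2 : dY L e W (fun s u => e a (x s u)) s u = e a (dY L e W x s u) := by
        rw [map_dY W x s u a]
        intro c hc
        refine hcomma c (fun h => has (h ▸ hc)) (fun h => hbs (h ▸ hc)) _ fun h => ?_
        exact ((hx _ _).1 h).2.2 (Finset.mem_union_right _ (Finset.mem_insert_self _ _))
      rw [h1, dY_neg_sub W (fun s u => x (insert a s) u) (fun s u => e a (x s u)), h2,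
        Ea s u hd has hau hbs hbu, E0 s u hd has hau hbs hbu, map_add, map_smul, map_neg,
        map_smul]
      abel
    · rw [map_dY W w s u b fun c hc => hcommb c (fun h => has (h ▸ hc)) (fun h => hbs (h ▸ hc)) _
        (hwX s u c hc)]
      have h1 : (fun s u => e b (w s u)) = fun s u => x (insert b s) u := by
        funext s u
        exact hwb s u
      rw [h1, Eb s u hd has hau hbs hbu, map_neg, map_smul]
  have hdv : ∀ s u, Disjoint s u → a ∉ s → a ∉ u → b ∉ s → b ∉ u →
      dY L e W v s u = -(sg a u • x s (insert a u)) := by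
    intro s u hd has hau hbs hbu
    have h1 : v = fun s u => -w s u - x s u := by
      funext s u
      exact hv s u
    rw [h1, dY_neg_sub, hdw s u hd has hau hbs hbu, E0 s u hd has hau hbs hbu]
    abel
  -- the primitive
  obtain ⟨y, hy⟩ : ∃ y : Finset ℕ → Finset ℕ → N, ∀ s t, y s t =
      if a ∈ s ∨ b ∈ s then 0 else if a ∈ t then
        (if b ∈ t then 0 else sg a (t.erase a) • v s (t.erase a))
        else (if b ∈ t then sg b (t.erase b) • w s (t.erase b) else 0) := ⟨_, fun _ _ => rfl⟩
  have hy1 : ∀ s t, (a ∈ s ∨ b ∈ s) → y s t = 0 := by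
    intro s t h
    rw [hy, if_pos h]
  have hy2 : ∀ s u, a ∉ s → b ∉ s → a ∉ u → b ∉ u → y s (insert a u) = sg a u • v s u := by
    intro s u has hbs hau hbu
    rw [hy, if_neg (by tauto), if_pos (Finset.mem_insert_self _ _), if_neg (by simp [hbu, hab.symm]),
      Finset.erase_insert hau]
  have hy3 : ∀ s u, b ∉ s → a ∉ s → b ∉ u → a ∉ u → y s (insert b u) = sg b u • w s u := by
    intro s u hbs has hbu hau
    rw [hy, if_neg (by tauto), if_neg (by simp [hau, hab]), if_pos (Finset.mem_insert_self _ _),
      Finset.erase_insert hbu]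
  have hy4 : ∀ s t, a ∈ t → b ∈ t → y s t = 0 := by
    intro s t h1 h2
    rw [hy, if_pos h1, if_pos h2, ite_self]
  have hy5 : ∀ s t, a ∉ t → b ∉ t → y s t = 0 := by
    intro s t h1 h2
    rw [hy, if_neg h1, if_neg h2, ite_self]
  refine ⟨y, ?_, ?_⟩
  · intro s t
    by_cases hs : a ∈ s ∨ b ∈ s
    · rw [hy1 s t hs]
      exact ⟨fun h => absurd rfl h, (Es e s).zero_mem⟩
    · have has : a ∉ s := fun h => hs (Or.inl h)
      have hbs : b ∉ s := fun h => hs (Or.inr h)
      have key : ∀ (c : ℕ) (u : Finset ℕ), c ∈ X → c ∉ s →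
          (∀ d ∈ s ∪ u, d ∈ X → Adj L d c) → Disjoint s u ∧ s ∪ u ∈ L ∧ s ∪ u ⊆ X →
          Disjoint s (insert c u) ∧ s ∪ insert c u ∈ L ∧ s ∪ insert c u ⊆ X := by
        intro c u hc hcs hd hP
        rw [Finset.union_insert]
        refine ⟨Finset.disjoint_insert_right.2 ⟨hcs, hP.1⟩, ?_, ?_⟩
        · exact insert_mem hf hP.2.1 (hX hc) fun d hd' _ => hd d hd' (hP.2.2 hd')
        · exact Finset.insert_subset hc hP.2.2
      by_cases h1 : a ∈ t
      · by_cases h2 : b ∈ t
        · rw [hy4 s t h1 h2]
          exact ⟨fun h => absurd rfl h, (Es e s).zero_mem⟩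
        · obtain ⟨u, hu, rfl⟩ : ∃ u, a ∉ u ∧ insert a u = t :=
            ⟨t.erase a, Finset.notMem_erase _ _, Finset.insert_erase h1⟩
          have hbu : b ∉ u := fun h => h2 (Finset.mem_insert_of_mem h)
          rw [hy2 s u has hbs hu hbu]
          refine ⟨fun h => ?_, (Es e s).smul_mem _ fun c hc => hvE s u has hbs c hc⟩
          have h3 : Disjoint s u ∧ s ∪ u ∈ L ∧ s ∪ u ⊆ X := by
            by_contra hP
            rw [(hsupp s u hP).2.2, smul_zero] at h
            exact h rfl
          refine key a u haX has (fun d hd hdX => ?_) h3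
          rw [Finset.mem_union] at hd
          refine (hadj d hdX ?_ ?_).1
          · rintro rfl
            exact hd.elim has hu
          · rintro rfl
            exact hd.elim hbs hbu
      · by_cases h2 : b ∈ t
        · obtain ⟨u, hu, rfl⟩ : ∃ u, b ∉ u ∧ insert b u = t :=
            ⟨t.erase b, Finset.notMem_erase _ _, Finset.insert_erase h2⟩
          have hau : a ∉ u := fun h => h1 (Finset.mem_insert_of_mem h)
          rw [hy3 s u hbs has hu hau]
          refine ⟨fun h => ?_, (Es e s).smul_mem _ fun c hc => hwE s u has hbs c hc⟩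
          have h3 : Disjoint s u ∧ s ∪ u ∈ L ∧ s ∪ u ⊆ X := by
            by_contra hP
            rw [(hsupp s u hP).2.1, smul_zero] at h
            exact h rfl
          refine key b u hbX hbs (fun d hd hdX => ?_) h3
          rw [Finset.mem_union] at hd
          refine (hadj d hdX ?_ ?_).2
          · rintro rfl
            exact hd.elim has hau
          · rintro rfl
            exact hd.elim hbs hu
        · rw [hy5 s t h1 h2]
          exact ⟨fun h => absurd rfl h, (Es e s).zero_mem⟩
  · funext s t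
    by_cases hd : Disjoint s t
    swap
    · have h1 : x s t = 0 := by
        by_contra h
        exact hd ((hx s t).1 h).1
      rw [h1]
      unfold dD
      rw [if_neg hd]
    by_cases has : a ∈ s
    · have hat : a ∉ t := Finset.disjoint_left.1 hd has
      by_cases hbs : b ∈ s
      · rw [hx0 s t (Finset.mem_union_left _ has) (Finset.mem_union_left _ hbs)]
        unfold dD
        rw [if_pos hd, Finset.sum_eq_zero, Finset.sum_eq_zero, sub_zero]
        · intro c _
          rw [hy1 s _ (Or.inl has), smul_zero]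
        · intro c _
          rw [hy1 (s.erase c) _ ?_, map_zero, smul_zero]
          by_cases hc : c = a
          · exact Or.inr (Finset.mem_erase.2 ⟨fun h => hab (h.trans hc).symm, hbs⟩)
          · exact Or.inl (Finset.mem_erase.2 ⟨fun h => hc h.symm, has⟩)
      · by_cases hbt : b ∈ t
        · rw [hx0 s t (Finset.mem_union_left _ has) (Finset.mem_union_right _ hbt)]
          unfold dD
          rw [if_pos hd, Finset.sum_eq_zero, Finset.sum_eq_zero, sub_zero]
          · intro c _
            rw [hy1 s _ (Or.inl has), smul_zero]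
          · intro c _
            by_cases hc : c = a
            · rw [hc, hy4 _ _ (Finset.mem_insert_self _ _) (Finset.mem_insert_of_mem hbt), map_zero,
                smul_zero]
            · rw [hy1 (s.erase c) _ (Or.inl (Finset.mem_erase.2 ⟨fun h => hc h.symm, has⟩)),
                map_zero, smul_zero]
        · obtain ⟨s0, hs0, rfl⟩ : ∃ u, a ∉ u ∧ insert a u = s :=
            ⟨s.erase a, Finset.notMem_erase _ _, Finset.insert_erase has⟩
          have hbs0 : b ∉ s0 := fun h => hbs (Finset.mem_insert_of_mem h)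
          rw [F2 hW hb hab (e := e) y (Finset.disjoint_insert_left.1 hd).2 hs0 hat hbs0 hbt,
            hy2 s0 t hs0 hbs0 hat hbt, map_smul, smul_smul, sg_sq, one_smul, hva,
            hy1 (insert a s0) _ (Or.inl (Finset.mem_insert_self _ _)), smul_zero, sub_zero,
            dY_zero, add_zero]
          · intro c _
            exact hy1 _ _ (Or.inl (Finset.mem_insert_self _ _))
          · intro c _
            exact hy1 _ _ (Or.inl (Finset.mem_insert_self _ _))
    · by_cases hbs : b ∈ s
      · have hbt : b ∉ t := Finset.disjoint_left.1 hd hbs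
        by_cases hat : a ∈ t
        · rw [hx0 s t (Finset.mem_union_right _ hat) (Finset.mem_union_left _ hbs)]
          unfold dD
          rw [if_pos hd, Finset.sum_eq_zero, Finset.sum_eq_zero, sub_zero]
          · intro c _
            rw [hy1 s _ (Or.inr hbs), smul_zero]
          · intro c _
            by_cases hc : c = b
            · rw [hc, hy4 _ _ (Finset.mem_insert_of_mem hat) (Finset.mem_insert_self _ _), map_zero,
                smul_zero]
            · rw [hy1 (s.erase c) _ (Or.inr (Finset.mem_erase.2 ⟨fun h => hc h.symm, hbs⟩)),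
                map_zero, smul_zero]
        · obtain ⟨s0, hs0, rfl⟩ : ∃ u, b ∉ u ∧ insert b u = s :=
            ⟨s.erase b, Finset.notMem_erase _ _, Finset.insert_erase hbs⟩
          have has0 : a ∉ s0 := fun h => has (Finset.mem_insert_of_mem h)
          rw [F2 hW' ha hab.symm (e := e) y (Finset.disjoint_insert_left.1 hd).2 hs0 hbt has0 hat,
            hy3 s0 t hs0 has0 hbt hat, map_smul, smul_smul, sg_sq, one_smul, hwb,
            hy1 (insert b s0) _ (Or.inr (Finset.mem_insert_self _ _)), smul_zero, sub_zero,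
            dY_zero, add_zero]
          · intro c _
            exact hy1 _ _ (Or.inr (Finset.mem_insert_self _ _))
          · intro c _
            exact hy1 _ _ (Or.inr (Finset.mem_insert_self _ _))
      · by_cases hat : a ∈ t
        · by_cases hbt : b ∈ t
          · rw [hx0 s t (Finset.mem_union_right _ hat) (Finset.mem_union_right _ hbt)]
            unfold dD
            rw [if_pos hd, Finset.sum_eq_zero, Finset.sum_eq_zero, sub_zero]
            · intro c _
              rw [hy4 s _ (Finset.mem_insert_of_mem hat) (Finset.mem_insert_of_mem hbt), smul_zero]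
            · intro c _
              rw [hy4 _ _ (Finset.mem_insert_of_mem hat) (Finset.mem_insert_of_mem hbt), map_zero,
                smul_zero]
          · obtain ⟨u, hau, rfl⟩ : ∃ u, a ∉ u ∧ insert a u = t :=
              ⟨t.erase a, Finset.notMem_erase _ _, Finset.insert_erase hat⟩
            have hbu : b ∉ u := fun h => hbt (Finset.mem_insert_of_mem h)
            have hdu : Disjoint s u := (Finset.disjoint_insert_right.1 hd).2
            rw [F3 hW hb hab (e := e) y v hdu has hau hbs hbu
              (fun s' u' h1 h2 h3 h4 => hy2 s' u' h1 h2 h3 h4)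
              (hy4 _ _ (by simp) (by simp)), hdv s u hdu has hau hbs hbu, smul_neg, neg_neg,
              smul_smul, sg_sq, one_smul]
        · by_cases hbt : b ∈ t
          · obtain ⟨u, hbu, rfl⟩ : ∃ u, b ∉ u ∧ insert b u = t :=
              ⟨t.erase b, Finset.notMem_erase _ _, Finset.insert_erase hbt⟩
            have hau : a ∉ u := fun h => hat (Finset.mem_insert_of_mem h)
            have hdu : Disjoint s u := (Finset.disjoint_insert_right.1 hd).2
            rw [F3 hW' ha hab.symm (e := e) y w hdu hbs hbu has hau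
              (fun s' u' h1 h2 h3 h4 => hy3 s' u' h1 h2 h3 h4)
              (hy4 _ _ (by simp) (by simp)), hdw s u hdu has hau hbs hbu, smul_neg, neg_neg,
              smul_smul, sg_sq, one_smul]
          · rw [F1 hW ha hb hab (e := e) y hd has hat hbs hbt, hy2 s t has hbs hat hbt,
              hy3 s t hbs has hbt hat, smul_smul, smul_smul, sg_sq, sg_sq, one_smul, one_smul, hv,
              dY_zero]
            · abel
            · intro c hc
              refine hy5 _ _ ?_ ?_
              · simp only [Finset.mem_insert, not_or]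
                exact ⟨fun h => has (h ▸ hc), hat⟩
              · simp only [Finset.mem_insert, not_or]
                exact ⟨fun h => hbs (h ▸ hc), hbt⟩
            · intro c hc
              rw [hW] at hc
              refine hy5 _ _ ?_ ?_
              · simp only [Finset.mem_insert, not_or]
                exact ⟨fun h => hc (Or.inl h.symm), hat⟩
              · simp only [Finset.mem_insert, not_or]
                exact ⟨fun h => hc (Or.inr h.symm), hbt⟩

end RA

end MP8a95ee
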