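import Pool.Agent.Work.MP_8a95ee_gt.R.Stmts

set_option autoImplicit false

namespace MP8a95ee

namespace RA

namespace IP7

lemma adj_symm (L : Finset (Finset ℕ)) : ∀ a b, Adj L a b → Adj L b a := by
  intro a b h
  refine ⟨h.1.symm, ?_⟩
  rw [Finset.pair_comm]
  exact h.2

lemma mem_In {V : Finset ℕ} {adj : ℕ → ℕ → Prop} (D : WallData V adj) (x v : D.G) (a : ℕ) :
    a ∈ D.In x v ↔ a ∈ V ∧ D.Sep (D.wall x a) x v := by
  unfold WallData.In WallData.Sep
  rw [Finset.mem_filter]

lemma sep_comm {V : Finset ℕ} {adj : ℕ → ℕ → Prop} (D : WallData V adj) (h : D.Wl) (x y : D.G) :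
    D.Sep h x y ↔ D.Sep h y x := by
  unfold WallData.Sep
  exact ne_comm

lemma sep_iff {V : Finset ℕ} {adj : ℕ → ℕ → Prop} (D : WallData V adj) (h : D.Wl) (x y z : D.G)
    (hxy : D.Sep h x y) : D.Sep h x z ↔ ¬ D.Sep h z y := by
  unfold WallData.Sep at *
  cases h1 : D.side h x <;> cases h2 : D.side h y <;> cases h3 : D.side h z <;> simp_all

lemma pair_mem (L : Finset (Finset ℕ)) (hL : FlagC L) (s : Finset ℕ) (hs : s ⊆ verts L)
    (h : ∀ a ∈ s, ∀ b ∈ s, a ≠ b → Adj L a b) : s ∈ L := by
  rw [hL]
  intro a ha b hb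
  by_cases hab : a = b
  · subst hab
    obtain ⟨σ, hσ, haσ⟩ := Finset.mem_biUnion.1 (hs ha)
    exact (hL σ).1 hσ a haσ a haσ
  · exact (h a ha b hb hab).2

end IP7

open IP7 in
theorem itemP7 (h1 : S_P1) (h2 : S_P2) (h3 : S_P3) (h4 : S_P4) (h5 : S_P5) (h6 : S_P6) :
    S_P7 := by
  intro L hL D k v x y hxy hT hcfg
  have hsym := adj_symm L
  have hTL : ∀ z w : D.G, D.In z w ∈ L := by
    intro z w
    apply pair_mem L hL
    · intro a ha
      exact ((mem_In D z w a).1 ha).1
    · exact h4 (verts L) (Adj L) hsym D z w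
  refine ⟨fun i => ⟨hTL x (v i), ?_⟩, ?_⟩
  · -- nonempty
    rw [Finset.nonempty_iff_ne_empty]
    intro he0
    have he : D.In x (v i) = ∅ := he0
    apply hxy
    have e1 : x = v i := by
      by_contra hne
      obtain ⟨a, ha, hs⟩ := D.first x (v i) hne
      have : a ∈ D.In x (v i) := (mem_In D x (v i) a).2 ⟨ha, hs⟩
      rw [he] at this
      exact absurd this (Finset.notMem_empty a)
    have e2 : y = v i := by
      by_contra hne
      obtain ⟨a, ha, hs⟩ := D.first y (v i) hne
      have : a ∈ D.In y (v i) := (mem_In D y (v i) a).2 ⟨ha, hs⟩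
      rw [← hT i, he] at this
      exact absurd this (Finset.notMem_empty a)
    rw [e1, e2]
  · by_cases hK : InK (fun i => D.In x (v i))
    · exact Or.inl hK
    right
    have hx : ∀ h : D.Wl, ¬ ∀ i, D.Sep h x (v i) :=
      fun h hall => hK (h1 (verts L) (Adj L) hsym D k v x h hall)
    have hy : ∀ h : D.Wl, ¬ ∀ i, D.Sep h y (v i) := by
      intro h hall
      obtain ⟨u, hu⟩ := h1 (verts L) (Adj L) hsym D k v y h hall
      exact hK ⟨u, fun i => by
        change u ∈ D.In x (v i)
        rw [hT i]
        exact hu i⟩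
    have F1 : ∀ h, D.Sep h x y → ∃ i, D.Sep h (v i) (v 0) := by
      intro h hs
      by_contra hcon
      push Not at hcon
      have hall : ∀ i, D.side h (v i) = D.side h (v 0) := by
        intro i
        by_contra hne
        exact hcon i hne
      by_cases hx0 : D.side h x = D.side h (v 0)
      · apply hy h
        intro i
        change D.side h y ≠ D.side h (v i)
        rw [hall i, ← hx0]
        exact fun e => hs e.symm
      · apply hx h
        intro i
        change D.side h x ≠ D.side h (v i)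
        rw [hall i]
        exact hx0
    obtain ⟨a0, ha0, hs0⟩ := D.first x y hxy
    set h0 : D.Wl := D.wall x a0 with hh0
    have hsep0 : D.Sep h0 x y := hs0
    set A : ℕ → Prop := fun a => ∃ h, D.Sep h x y ∧ D.lab h = a ∧
      ∀ i, D.Sep h (v i) y ↔ D.Sep h0 (v i) y with hA
    have hA0 : A (D.lab h0) := ⟨h0, hsep0, rfl, fun _ => Iff.rfl⟩
    have F2 : ∀ h, D.Sep h x y → A (D.lab h) → ∀ i, D.Sep h (v i) y ↔ D.Sep h0 (v i) y := by
      rintro h hs ⟨h', hs', hl, hsp⟩ i
      have := h6 (verts L) (Adj L) hsym D k v x y hcfg h h' hs hs' (Or.inl hl.symm)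
        (F1 h hs) (F1 h' hs') i
      exact this.trans (hsp i)
    have F3 : ∀ a h, A a → D.Sep h x y → ¬ A (D.lab h) → Adj L a (D.lab h) := by
      rintro a h ⟨h', hs', hl, hsp⟩ hs hnA
      by_contra hnadj
      apply hnA
      refine ⟨h, hs, rfl, fun i => ?_⟩
      have := h6 (verts L) (Adj L) hsym D k v x y hcfg h' h hs' hs
        (Or.inr (by rw [hl]; exact hnadj)) (F1 h' hs') (F1 h hs) i
      exact this.symm.trans (hsp i)
    have hexP : ∃ a ∈ D.In x y, A a := by
      apply h5 (verts L) (Adj L) hsym D A x y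
      · intro h hs
        by_cases hAh : A (D.lab h)
        · exact Or.inl hAh
        · exact Or.inr (fun a ha => F3 a h ha hs hAh)
      · exact ⟨h0, hsep0, hA0⟩
    have hexQ : ∃ a ∈ D.In y x, A a := by
      apply h5 (verts L) (Adj L) hsym D A y x
      · intro h hs
        by_cases hAh : A (D.lab h)
        · exact Or.inl hAh
        · exact Or.inr (fun a ha => F3 a h ha ((sep_comm D h y x).1 hs) hAh)
      · exact ⟨h0, (sep_comm D h0 x y).1 hsep0, hA0⟩
    classical
    set P : Finset ℕ := (D.In x y).filter A with hP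
    set Q : Finset ℕ := (D.In y x).filter A with hQ
    have hPm : ∀ p ∈ P, ∀ i, p ∈ D.In x (v i) ↔ ¬ D.Sep h0 (v i) y := by
      intro p hp i
      rw [hP, Finset.mem_filter] at hp
      obtain ⟨hpI, hpA⟩ := hp
      rw [mem_In] at hpI
      obtain ⟨hpV, hps⟩ := hpI
      have hl : D.lab (D.wall x p) = p := D.lab_wall x p hpV
      have hs2 := F2 (D.wall x p) hps (by rw [hl]; exact hpA) i
      rw [mem_In, ← hs2, ← sep_iff D (D.wall x p) x y (v i) hps]
      exact ⟨fun h => h.2, fun h => ⟨hpV, h⟩⟩
    have hQm : ∀ q ∈ Q, ∀ i, q ∈ D.In x (v i) ↔ D.Sep h0 (v i) y := by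
      intro q hq i
      rw [hQ, Finset.mem_filter] at hq
      obtain ⟨hqI, hqA⟩ := hq
      rw [mem_In] at hqI
      obtain ⟨hqV, hqs⟩ := hqI
      have hl : D.lab (D.wall y q) = q := D.lab_wall y q hqV
      have hs2 := F2 (D.wall y q) ((sep_comm D _ y x).1 hqs) (by rw [hl]; exact hqA) i
      rw [hT i, mem_In, ← hs2, sep_comm D (D.wall y q) y (v i)]
      exact ⟨fun h => h.2, fun h => ⟨hqV, h⟩⟩
    refine ⟨(P, Q), ⟨?_, ?_, ?_, ?_, ?_⟩, trivial, ?_⟩
    · apply pair_mem L hL
      · intro a ha
        exact ((mem_In D x y a).1 (Finset.mem_filter.1 ha).1).1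
      · intro a ha b hb hab
        exact h4 (verts L) (Adj L) hsym D x y a (Finset.mem_filter.1 ha).1 b
          (Finset.mem_filter.1 hb).1 hab
    · apply pair_mem L hL
      · intro a ha
        exact ((mem_In D y x a).1 (Finset.mem_filter.1 ha).1).1
      · intro a ha b hb hab
        exact h4 (verts L) (Adj L) hsym D y x a (Finset.mem_filter.1 ha).1 b
          (Finset.mem_filter.1 hb).1 hab
    · obtain ⟨a, ha, haA⟩ := hexP
      exact ⟨a, Finset.mem_filter.2 ⟨ha, haA⟩⟩
    · obtain ⟨a, ha, haA⟩ := hexQ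
      exact ⟨a, Finset.mem_filter.2 ⟨ha, haA⟩⟩
    · rw [Finset.disjoint_left]
      intro c hcP hcQ
      have e1 := hPm c hcP 0
      have e2 := hQm c hcQ 0
      by_cases hs : D.Sep h0 (v 0) y
      · exact e1.1 (e2.2 hs) hs
      · exact hs (e2.1 (e1.2 hs))
    · intro i
      constructor
      · by_cases hs : D.Sep h0 (v i) y
        · right
          refine ⟨fun q hq => (hQm q hq i).2 hs, ?_⟩
          rw [Finset.disjoint_left]
          intro c hcP hcT
          exact (hPm c hcP i).1 hcT hs
        · left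
          refine ⟨fun p hp => (hPm p hp i).2 hs, ?_⟩
          rw [Finset.disjoint_left]
          intro c hcQ hcT
          exact hs ((hQm c hcQ i).1 hcT)
      · intro t ht htPQ c hc
        have hcA : A c := by
          rcases Finset.mem_union.1 hc with h | h
          · exact (Finset.mem_filter.1 h).2
          · exact (Finset.mem_filter.1 h).2
        have ht' : t ∈ D.In y (v i) := by
          rw [← hT i]
          exact ht
        have htx := (mem_In D x (v i) t).1 ht
        have hty := (mem_In D y (v i) t).1 ht'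
        rcases h2 (verts L) (Adj L) hsym D t x y (v i) ht ht' with hw | hw | hw
        · have hns : ¬ D.Sep (D.wall x t) x y := by
            intro hs
            have e1 := (sep_iff D (D.wall x t) x y (v i) hs).1 htx.2
            apply e1
            rw [hw]
            exact (sep_comm D _ _ _).1 hty.2
          obtain ⟨h', hs', hl, -⟩ := hcA
          rw [← hl]
          exact h3 (verts L) (Adj L) hsym D t x y htx.1 hw hns h' hs'
        · have htI : t ∈ D.In x y := (mem_In D x y t).2 ⟨htx.1, hw⟩
          have hnA : ¬ A t := fun hAt => htPQ (Finset.mem_union_left _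
            (Finset.mem_filter.2 ⟨htI, hAt⟩))
          have hl : D.lab (D.wall x t) = t := D.lab_wall x t htx.1
          have := F3 c (D.wall x t) hcA hw (by rw [hl]; exact hnA)
          rw [hl] at this
          exact hsym _ _ this
        · have htI : t ∈ D.In y x := (mem_In D y x t).2 ⟨htx.1, (sep_comm D _ _ _).1 hw⟩
          have hnA : ¬ A t := fun hAt => htPQ (Finset.mem_union_right _
            (Finset.mem_filter.2 ⟨htI, hAt⟩))
          have hl : D.lab (D.wall y t) = t := D.lab_wall y t htx.1
          have := F3 c (D.wall y t) hcA hw (by rw [hl]; exact hnA)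
          rw [hl] at this
          exact hsym _ _ this

end RA

end MP8a95ee
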