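import Pool.Agent.Work.MP_8a95ee_gt.R.Stmts

/-!
MP_8a95ee_gt, item W1: the parity function of the right-angled Coxeter group.
-/

namespace MP8a95ee

namespace RA

section

variable (V : Finset ℕ) (adj : ℕ → ℕ → Prop) (hs : ∀ a b, adj a b → adj b a)

open Classical in
/-- the action of a generator on pairs -/
noncomputable def iW1_f (a : V) (p : WG V adj hs × ZMod 2) : WG V adj hs × ZMod 2 :=
  (rr V adj hs a * p.1 * rr V adj hs a, p.2 + if p.1 = rr V adj hs a then 1 else 0)

theorem iW1_sq (a : V) : rr V adj hs a * rr V adj hs a = 1 :=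
  (cs V adj hs).simple_mul_simple_self a

theorem iW1_zz (x : ZMod 2) : x + x = 0 := by
  have : ∀ x : ZMod 2, x + x = 0 := by decide
  exact this x

theorem iW1_conj (s t : WG V adj hs) (h : s * s = 1) : s * t * s = s ↔ t = s := by
  constructor
  · intro h1
    have h2 : s * (s * t * s) * s = s * s * s := by rw [h1]
    have h3 : s * (s * t * s) * s = (s * s) * t * (s * s) := by group
    rw [h3, h] at h2
    simpa using h2
  · rintro rfl
    rw [h, one_mul]

theorem iW1_invol (a : V) (p : WG V adj hs × ZMod 2) :
    iW1_f V adj hs a (iW1_f V adj hs a p) = p := by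
  classical
  have hsq := iW1_sq V adj hs a
  obtain ⟨t, e⟩ := p
  unfold iW1_f
  simp only
  have h1 : rr V adj hs a * (rr V adj hs a * t * rr V adj hs a) * rr V adj hs a = t := by
    have : rr V adj hs a * (rr V adj hs a * t * rr V adj hs a) * rr V adj hs a
      = (rr V adj hs a * rr V adj hs a) * t * (rr V adj hs a * rr V adj hs a) := by group
    rw [this, hsq, one_mul, mul_one]
  rw [h1]
  have h2 := iW1_conj V adj hs (rr V adj hs a) t hsq
  simp only [h2]
  rw [add_assoc, iW1_zz, add_zero]

/-- the action of a generator as a permutation -/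
noncomputable def iW1_p (a : V) : Equiv.Perm (WG V adj hs × ZMod 2) where
  toFun := iW1_f V adj hs a
  invFun := iW1_f V adj hs a
  left_inv := iW1_invol V adj hs a
  right_inv := iW1_invol V adj hs a

theorem iW1_pp (a : V) : iW1_p V adj hs a * iW1_p V adj hs a = 1 := by
  ext1 p
  exact iW1_invol V adj hs a p

theorem iW1_comm (a b : V) (hab : adj a b) (hne : a ≠ b) :
    iW1_p V adj hs a * iW1_p V adj hs b = iW1_p V adj hs b * iW1_p V adj hs a := by
  classical
  have hM : (cm V adj hs).M a b = 2 := by
    show (if a = b then 1 else if adj a b then 2 else 0) = 2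
    rw [if_neg hne, if_pos hab]
  have hc : rr V adj hs a * rr V adj hs b = rr V adj hs b * rr V adj hs a := by
    have h := (cs V adj hs).simple_mul_simple_pow a b
    have h' : (rr V adj hs a * rr V adj hs b) ^ 2 = 1 := by
      have h2 := h
      rw [show ((cm V adj hs).M a b) = 2 from hM] at h2
      exact h2
    have ha := iW1_sq V adj hs a
    have hb := iW1_sq V adj hs b
    rw [pow_two] at h'
    calc rr V adj hs a * rr V adj hs b
        = (rr V adj hs a * rr V adj hs b) *
          ((rr V adj hs b * rr V adj hs b) * 1) := by rw [hb]; simp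
      _ = 1 * ((rr V adj hs a * rr V adj hs b) * 1) := by rw [hb]; simp
      _ = 1 * (rr V adj hs a * rr V adj hs b) := by simp
      _ = (rr V adj hs b * rr V adj hs b) * (rr V adj hs a * rr V adj hs b) := by rw [hb]
      _ = rr V adj hs b * ((rr V adj hs a * rr V adj hs a) * (rr V adj hs b *
            (rr V adj hs a * rr V adj hs b))) := by rw [ha]; group
      _ = rr V adj hs b * rr V adj hs a * ((rr V adj hs a * rr V adj hs b) *
            (rr V adj hs a * rr V adj hs b)) := by group
      _ = rr V adj hs b * rr V adj hs a := by rw [h', mul_one]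
  have hab' : ∀ t : WG V adj hs, rr V adj hs b * t * rr V adj hs b = rr V adj hs a ↔
      t = rr V adj hs a := by
    intro t
    have hb := iW1_sq V adj hs b
    constructor
    · intro h1
      have h2 : rr V adj hs b * (rr V adj hs b * t * rr V adj hs b) * rr V adj hs b =
        rr V adj hs b * rr V adj hs a * rr V adj hs b := by rw [h1]
      have h3 : rr V adj hs b * (rr V adj hs b * t * rr V adj hs b) * rr V adj hs b
        = (rr V adj hs b * rr V adj hs b) * t * (rr V adj hs b * rr V adj hs b) := by group
      rw [h3, hb, ← hc, mul_assoc (rr V adj hs a), hb] at h2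
      simpa using h2
    · rintro rfl
      rw [← hc, mul_assoc, hb, mul_one]
  have hba' : ∀ t : WG V adj hs, rr V adj hs a * t * rr V adj hs a = rr V adj hs b ↔
      t = rr V adj hs b := by
    intro t
    have ha := iW1_sq V adj hs a
    constructor
    · intro h1
      have h2 : rr V adj hs a * (rr V adj hs a * t * rr V adj hs a) * rr V adj hs a =
        rr V adj hs a * rr V adj hs b * rr V adj hs a := by rw [h1]
      have h3 : rr V adj hs a * (rr V adj hs a * t * rr V adj hs a) * rr V adj hs a
        = (rr V adj hs a * rr V adj hs a) * t * (rr V adj hs a * rr V adj hs a) := by group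
      rw [h3, ha, hc, mul_assoc (rr V adj hs b), ha] at h2
      simpa using h2
    · rintro rfl
      rw [hc, mul_assoc, ha, mul_one]
  ext1 p
  obtain ⟨t, e⟩ := p
  show iW1_f V adj hs a (iW1_f V adj hs b (t, e)) = iW1_f V adj hs b (iW1_f V adj hs a (t, e))
  unfold iW1_f
  simp only [hab', hba']
  refine Prod.ext ?_ ?_
  · simp only
    calc rr V adj hs a * (rr V adj hs b * t * rr V adj hs b) * rr V adj hs a
        = (rr V adj hs a * rr V adj hs b) * t * (rr V adj hs b * rr V adj hs a) := by group
      _ = (rr V adj hs b * rr V adj hs a) * t * (rr V adj hs a * rr V adj hs b) := by rw [hc]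
      _ = rr V adj hs b * (rr V adj hs a * t * rr V adj hs a) * rr V adj hs b := by group
  · simp only
    ring

theorem iW1_lift : (cm V adj hs).IsLiftable (iW1_p V adj hs) := by
  classical
  intro a b
  by_cases h : a = b
  · subst h
    rw [iW1_pp]
    simp
  · by_cases hadj : adj a b
    · have hM : (cm V adj hs).M a b = 2 := by
        show (if a = b then 1 else if adj a b then 2 else 0) = 2
        rw [if_neg h, if_pos hadj]
      rw [show ((cm V adj hs).M a b) = 2 from hM, pow_two]
      have hc := iW1_comm V adj hs a b hadj h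
      calc iW1_p V adj hs a * iW1_p V adj hs b * (iW1_p V adj hs a * iW1_p V adj hs b)
          = iW1_p V adj hs a * iW1_p V adj hs b * (iW1_p V adj hs b * iW1_p V adj hs a) := by
            rw [hc]
        _ = iW1_p V adj hs a * (iW1_p V adj hs b * iW1_p V adj hs b) * iW1_p V adj hs a := by
            group
        _ = 1 := by rw [iW1_pp, mul_one, iW1_pp]
    · have hM : (cm V adj hs).M a b = 0 := by
        show (if a = b then 1 else if adj a b then 2 else 0) = 0
        rw [if_neg h, if_neg hadj]
      rw [show ((cm V adj hs).M a b) = 0 from hM, pow_zero]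

/-- the action of the group on pairs -/
noncomputable def iW1_phi : WG V adj hs →* Equiv.Perm (WG V adj hs × ZMod 2) :=
  (cs V adj hs).lift ⟨iW1_p V adj hs, iW1_lift V adj hs⟩

theorem iW1_phi_rr (a : V) : iW1_phi V adj hs (rr V adj hs a) = iW1_p V adj hs a :=
  (cs V adj hs).lift_apply_simple (iW1_lift V adj hs) a

theorem iW1_fst (x : WG V adj hs) : ∀ p, (iW1_phi V adj hs x p).1 = x * p.1 * x⁻¹ := by
  classical
  induction x using (cs V adj hs).simple_induction_left with
  | one => intro p; simp
  | mul_simple_left w i ih =>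
    intro p
    rw [map_mul, Equiv.Perm.mul_apply]
    have h1 : iW1_phi V adj hs ((cs V adj hs).simple i) = iW1_p V adj hs i := iW1_phi_rr V adj hs i
    rw [h1]
    show (iW1_f V adj hs i (iW1_phi V adj hs w p)).1 = _
    unfold iW1_f
    simp only
    rw [ih p]
    have hinv : ((cs V adj hs).simple i)⁻¹ = (cs V adj hs).simple i := (cs V adj hs).inv_simple i
    rw [mul_inv_rev, hinv]
    group

end

theorem itemW1 : S_W1 := by
  classical
  intro V adj hs
  refine ⟨fun x t => (iW1_phi V adj hs x⁻¹ (t, 0)).2, ?_, ?_⟩
  · intro t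
    simp
  · intro x a t
    have hinv : (rr V adj hs a)⁻¹ = rr V adj hs a := (cs V adj hs).inv_simple a
    have h1 : iW1_phi V adj hs (x * rr V adj hs a)⁻¹ =
        iW1_p V adj hs a * iW1_phi V adj hs x⁻¹ := by
      rw [mul_inv_rev, hinv, map_mul, iW1_phi_rr]
    have h2 : (iW1_phi V adj hs (x * rr V adj hs a)⁻¹ (t, 0)).2 =
        (iW1_f V adj hs a (iW1_phi V adj hs x⁻¹ (t, 0))).2 := by
      rw [h1]; rfl
    show (iW1_phi V adj hs (x * rr V adj hs a)⁻¹ (t, 0)).2 = _
    rw [h2]
    unfold iW1_f
    simp only
    rw [iW1_fst V adj hs x⁻¹ (t, 0)]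
    congr 1
    have h3 : (x⁻¹ * t * x⁻¹⁻¹ = rr V adj hs a) ↔ (t = x * rr V adj hs a * x⁻¹) := by
      constructor
      · intro h; rw [← h]; group
      · intro h; rw [h]; group
    simp only [h3]

end RA

end MP8a95ee
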