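import Pool.Agent.Work.MP_8a95ee_gt.R.Stmts

/-!
# Item W3: the parity function has finite support, consisting of reflections
-/

namespace MP8a95ee

namespace RA

theorem itemW3 : S_W3 := by
  classical
  intro V adj hs N hN x
  induction x using (cs V adj hs).simple_induction_right with
  | one =>
    constructor
    · convert Set.finite_empty
      ext t
      simp [hN.1 t]
    · intro t ht
      exact absurd (hN.1 t) ht
  | mul_simple_right w i ih =>
    constructor
    · refine (ih.1.union (Set.finite_singleton (w * rr V adj hs i * w⁻¹))).subset ?_
      intro t ht
      rw [Set.mem_ofPred_eq, hN.2] at ht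
      by_cases h : t = w * rr V adj hs i * w⁻¹
      · exact Or.inr h
      · left
        rw [if_neg h, add_zero] at ht
        exact ht
    · intro t ht
      rw [hN.2] at ht
      by_cases h : t = w * rr V adj hs i * w⁻¹
      · exact ⟨w, i, h⟩
      · rw [if_neg h, add_zero] at ht
        exact ih.2 t ht

end RA

end MP8a95ee
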