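import Pool.Agent.Work.MP_8a95ee_gt.R.Stmts

/-!
# Item W5: a nontrivial element has a first letter
-/

namespace MP8a95ee

namespace RA

open Classical in
theorem par_wordProd (V : Finset ℕ) (adj : ℕ → ℕ → Prop) (hs : ∀ a b, adj a b → adj b a)
    (N : WG V adj hs → WG V adj hs → ZMod 2) (hN : IsPar V adj hs N) (ω : List V) (t : WG V adj hs) :
    N ((cs V adj hs).wordProd ω) t = (((cs V adj hs).leftInvSeq ω).count t : ZMod 2) := by
  induction ω using List.reverseRecOn with
  | nil => simp [hN.1]
  | append_singleton ω a ih =>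
    have h1 := (cs V adj hs).leftInvSeq_concat ω a
    have h2 := (cs V adj hs).wordProd_concat a ω
    rw [List.concat_eq_append] at h1 h2
    rw [h1, h2, hN.2, ih, List.concat_eq_append, List.count_append, List.count_singleton]
    by_cases h : t = (cs V adj hs).wordProd ω * rr V adj hs a * ((cs V adj hs).wordProd ω)⁻¹
    · rw [if_pos h, if_pos (beq_iff_eq.2 h.symm)]
      push_cast
      rfl
    · rw [if_neg h]
      have h' : ¬ (((cs V adj hs).wordProd ω * (cs V adj hs).simple a * ((cs V adj hs).wordProd ω)⁻¹ == t)
          = true) := fun h' => h (beq_iff_eq.1 h').symm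
      rw [if_neg h']
      simp

theorem itemW5 : S_W5 := by
  classical
  intro V adj hs N hN x hx
  obtain ⟨ω, hω, rfl⟩ := (cs V adj hs).exists_isReduced x
  cases ω with
  | nil => exact absurd (by simp) hx
  | cons a ω =>
    refine ⟨a, ?_⟩
    rw [par_wordProd V adj hs N hN]
    have h1 : rr V adj hs a ∈ (cs V adj hs).leftInvSeq (a :: ω) := by
      rw [CoxeterSystem.leftInvSeq]
      exact List.mem_cons_self
    rw [List.count_eq_one_of_mem hω.nodup_leftInvSeq h1]
    simp

end RA

end MP8a95ee
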